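import Mathlib
import Pool.Agent.Lib.MP_5deabe_nt.Chain

/-!
# Uniqueness of the conductor
-/

namespace MTate

open MonoidAlgebra

/-- elements of the kernel of the restriction -/
theorem exists_rep {m d : ℕ} (h : d ∣ m) {x : Gp m} (hx : res h x = 1) :
    ∃ a : Gm m, toGp m a = x ∧ ZMod.unitsMap h a = 1 := by
  obtain ⟨z, rfl⟩ := toGp_surjective m x
  have hx' : toGp d (ZMod.unitsMap h z) = 1 := hx
  obtain ⟨j, hj⟩ := Subgroup.mem_zpowers_iff.mp ((QuotientGroup.eq_one_iff _).mp hx')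
  refine ⟨z * ((-1) ^ j)⁻¹, ?_, ?_⟩
  · have h3 : toGp m (-1 : Gm m) = 1 := (QuotientGroup.eq_one_iff _).mpr (Subgroup.mem_zpowers _)
    rw [map_mul, map_inv, map_zpow, h3, one_zpow, inv_one, mul_one]
  · rw [map_mul, map_inv, map_zpow, unitsMap_neg_one, hj, mul_inv_cancel]

theorem unitsMap_unitsMap {m d l : ℕ} (hd : d ∣ m) (hl : l ∣ d) (a : Gm m) :
    ZMod.unitsMap hl (ZMod.unitsMap hd a) = ZMod.unitsMap (hl.trans hd) a :=
  DFunLike.congr_fun (ZMod.unitsMap_comp hl hd) a

/-- a homomorphism which factors through `G_d⁺` and `G_e⁺` factors through `G_g⁺` for the greatest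
common divisor `g` -/
theorem ker_gcd {m : ℕ} (hsq : Squarefree m) {d e g : ℕ} (hd : d ∣ m) (he : e ∣ m) (hg : g ∣ m)
    (hgcd : ∀ l : ℕ, l.Prime → l ∣ d → l ∣ e → l ∣ g) {G : Type*} [CommGroup G] {f : Gp m →* G}
    (h1 : (res hd).ker ≤ f.ker) (h2 : (res he).ker ≤ f.ker) : (res hg).ker ≤ f.ker := by
  classical
  intro x hx
  obtain ⟨a, rfl, ha⟩ := exists_rep hg (MonoidHom.mem_ker.mp hx)
  obtain ⟨b, hb⟩ := exists_of_comp hsq (fun l => if h : l ∣ m then
    (if l ∣ d then 1 else ZMod.unitsMap h a) else 1)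
  have hb1 : ZMod.unitsMap hd b = 1 := by
    refine eq_one_of_unitsMap (hsq.squarefree_of_dvd hd) _ fun l hl hlP => ?_
    rw [unitsMap_unitsMap, hb l (hl.trans hd) hlP, dif_pos (hl.trans hd), if_pos hl]
  have hb2 : ZMod.unitsMap he (a * b⁻¹) = 1 := by
    refine eq_one_of_unitsMap (hsq.squarefree_of_dvd he) _ fun l hl hlP => ?_
    rw [unitsMap_unitsMap, map_mul, map_inv, hb l (hl.trans he) hlP, dif_pos (hl.trans he)]
    by_cases hld : l ∣ d
    · rw [if_pos hld, inv_one, mul_one]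
      have h3 := congrArg (ZMod.unitsMap (hgcd l hlP hld hl)) ha
      rwa [unitsMap_unitsMap, map_one] at h3
    · rw [if_neg hld, mul_inv_cancel]
  have h3 : toGp m b ∈ f.ker := h1 (by
    rw [MonoidHom.mem_ker, res_toGp, hb1, map_one])
  have h4 : toGp m (a * b⁻¹) ∈ f.ker := h2 (by
    rw [MonoidHom.mem_ker, res_toGp, hb2, map_one])
  have h5 := mul_mem h4 h3
  rwa [← map_mul, inv_mul_cancel_right] at h5

/-- the conductor is determined by the homomorphism -/
theorem IsField.eq_of_comp {m : ℕ} (hsq : Squarefree m) {d e : ℕ} (hd : d ∣ m) (he : e ∣ m)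
    {G : Type*} [CommGroup G] {f : Gp d →* G} {f' : Gp e →* G} (hf : IsField d f)
    (hf' : IsField e f') (h : f.comp (res hd) = f'.comp (res he)) : d = e := by
  have key : ∀ {d e : ℕ} (hd : d ∣ m) (he : e ∣ m) {f : Gp d →* G} {f' : Gp e →* G},
      IsField d f → IsField e f' → f.comp (res hd) = f'.comp (res he) → Nat.gcd d e = d := by
    intro d e hd he f f' hf hf' h
    have hg : Nat.gcd d e ∣ m := (Nat.gcd_dvd_left d e).trans hd
    have h1 : (res hg).ker ≤ (f.comp (res hd)).ker := by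
      refine ker_gcd hsq hd he hg (fun l _ h1 h2 => Nat.dvd_gcd h1 h2) ?_ ?_
      · intro x hx
        rw [MonoidHom.mem_ker] at hx ⊢
        rw [MonoidHom.comp_apply, hx, map_one]
      · intro x hx
        rw [MonoidHom.mem_ker] at hx ⊢
        rw [h, MonoidHom.comp_apply, hx, map_one]
    refine hf.2 _ (Nat.gcd_dvd_left d e) ?_
    intro y hy
    obtain ⟨x, rfl⟩ := res_surjective hsq.ne_zero hd y
    have h2 : x ∈ (res hg).ker := by
      rw [MonoidHom.mem_ker] at hy ⊢
      rwa [res_res] at hy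
    exact h1 h2
  have h1 := key hd he hf hf' h
  have h2 := key he hd hf' hf h.symm
  rw [← h1, Nat.gcd_comm, h2]

theorem comp_res_injective {m d : ℕ} (hm : m ≠ 0) (hd : d ∣ m) {G : Type*} [CommGroup G]
    {f f' : Gp d →* G} (h : f.comp (res hd) = f'.comp (res hd)) : f = f' := by
  ext y
  obtain ⟨x, rfl⟩ := res_surjective hm hd y
  exact DFunLike.congr_fun h x

variable {p : ℕ} [hp : Fact p.Prime] {D : MTData}

namespace MTData

/-- Q1 for a field given by a homomorphism of its conductor -/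
theorem Q1At.q1 {M : ℕ} (hsq : Squarefree M) {d : ℕ} (hd : d ∣ M) {G : Type*} [CommGroup G]
    {f : Gp d →* G} (hf : IsField d f) (h : D.Q1At p M (f.comp (res hd))) : D.Q1 p d f := by
  obtain ⟨e, he, f', hf', hff, hQ⟩ := h
  have h1 := hf'.eq_of_comp hsq he hd hf hff
  subst h1
  rwa [← comp_res_injective hsq.ne_zero he hff]

theorem Q1.q1At {M d : ℕ} (hd : d ∣ M) {G : Type*} [CommGroup G]
    {f : Gp d →* G} (hf : IsField d f) (h : D.Q1 p d f) : D.Q1At p M (f.comp (res hd)) :=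
  ⟨d, hd, f, hf, rfl, h⟩

/-- the notion does not depend on the level -/
theorem Q1At.down {M d : ℕ} (hsq : Squarefree M) (hd : d ∣ M) {G : Type*} [CommGroup G]
    {f : Gp d →* G} (hf : Function.Surjective f) (h : D.Q1At p M (f.comp (res hd))) :
    D.Q1At p d f := by
  obtain ⟨e, he, f', hf', rfl⟩ := exists_field (hsq.squarefree_of_dvd hd).ne_zero hf
  have h1 : (f'.comp (res he)).comp (res hd) = f'.comp (res (he.trans hd)) := by
    ext x
    rw [MonoidHom.comp_apply, MonoidHom.comp_apply, MonoidHom.comp_apply, res_res]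
  rw [h1] at h
  exact ⟨e, he, f', hf', rfl, h.q1 hsq (he.trans hd) hf'⟩

end MTData

end MTate
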