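import Mathlib
import Pool.Agent.Lib.MP_5deabe_nt.Defs2
import Pool.Agent.Lib.MP_5deabe_nt.Cyc

/-!
# Dirichlet series which count real abelian fields by their conductors
-/

namespace MTate

/-- the number of the surjective homomorphisms `ψ : Gal(ℚ(ζ_m)⁺/ℚ) → C` of conductor `m` with the
property `P` (a field `F` with `Gal(F/ℚ) ≅ C` is counted once for each isomorphism) -/
noncomputable def NF (C : Type) [CommGroup C] (P : ∀ m, (Gp m →* C) → Prop) (m : ℕ) : ℕ :=
  Nat.card {ψ : Gp m →* C // IsField m ψ ∧ P m ψ}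

/-- `m₀ m` satisfies (i)-(iii) and the prime divisors of `m` are congruent to `1` modulo `p ^ n` -/
def MTData.Lvl (D : MTData) (p n m₀ m : ℕ) : Prop :=
  D.Adm p (m₀ * m) ∧ ∀ l ∈ m.primeFactors, p ^ n ∣ l - 1

/-- the sum of `m ^ (-s)` over all `ψ` with the group `C` and the property `P`, where `m` is the
conductor of `ψ` and satisfies `L` -/
noncomputable def DS (L : ℕ → Prop) (C : Type) [CommGroup C] (P : ∀ m, (Gp m →* C) → Prop)
    (s : ℝ) : ℝ :=
  ∑' m : ℕ, (NF C (fun m ψ => L m ∧ P m ψ) m : ℝ) * (m : ℝ) ^ (-s)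

end MTate
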