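import Mathlib
import Pool.Agent.Lib.MP_5deabe_nt.ZeroOne
import Pool.Agent.Lib.MP_5deabe_nt_DN.Cond
import Pool.Agent.Lib.MP_5deabe_nt_DN.Defs

/-!
# Counting homomorphisms by their conductors
-/

namespace MTate

open MonoidAlgebra

variable {p : ℕ} [hp : Fact p.Prime]

/-- the number of all homomorphisms -/
theorem card_hom (hp2 : p ≠ 2) {t n : ℕ} (hsq : Squarefree t)
    (h : ∀ l ∈ t.primeFactors, p ^ n ∣ l - 1) {C : Type*} [CommGroup C] [Finite C]
    (hC : ∀ c : C, c ^ p ^ n = 1) :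
    Nat.card (Gp t →* C) = Nat.card C ^ t.primeFactors.card := by
  classical
  obtain ⟨c, -, hc2, -, -, hc5⟩ := exists_gens (p := p) hsq
  have hcl := closure_toGp hc2
  have hbij : Function.Bijective
      (fun (ψ : Gp t →* C) (i : t.primeFactors) => ψ (toGp t (c i))) := by
    constructor
    · intro ψ ψ' he
      exact hom_ext_gens hcl fun i => congrFun he i
    · intro a
      have h1 : ∀ j : t.primeFactors, ∃ φ : Gp t →* C, ∀ i, φ (toGp t (c i)) =
          if i = j then a j else 1 := by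
        intro j
        obtain ⟨φ0, h0⟩ := hc5 n (fun i => h i.1 i.2) (fun i => if i = j then 1 else 0)
        obtain ⟨φ, hφ⟩ := exists_hom_Gp hp2 φ0
        obtain ⟨θ, hθ⟩ := exists_hom_Cpn (hC (a j))
        refine ⟨θ.comp φ, fun i => ?_⟩
        rw [MonoidHom.comp_apply, hφ, h0, map_pow, hθ]
        by_cases hij : i = j
        · rw [if_pos hij, if_pos hij, pow_one]
        · rw [if_neg hij, if_neg hij, pow_zero]
      choose φ hφ using h1
      refine ⟨∏ j, φ j, ?_⟩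
      funext i
      show (∏ j, φ j) (toGp t (c i)) = a i
      rw [MonoidHom.finsetProd_apply, Finset.prod_eq_single i]
      · rw [hφ, if_pos rfl]
      · intro j _ hj
        rw [hφ, if_neg hj.symm]
      · intro h6
        exact absurd (Finset.mem_univ i) h6
  rw [Nat.card_eq_of_bijective _ hbij, Nat.card_fun, Nat.card_eq_fintype_card
    (α := t.primeFactors), Fintype.card_coe]

variable {C : Type} [CommGroup C] [Finite C]

omit hp in
theorem sum_NF_le {t : ℕ} (hsq : Squarefree t) {P : ∀ m, (Gp m →* C) → Prop}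
    {Q : (Gp t →* C) → Prop}
    (h : ∀ (m : ℕ) (hm : m ∣ t) (ψ : Gp m →* C), IsField m ψ → P m ψ → Q (ψ.comp (res hm))) :
    ∑ m ∈ t.divisors, NF C P m ≤ Nat.card {ψ : Gp t →* C // Q ψ} := by
  classical
  have hV := finite_hom hsq.ne_zero C
  have hV' : ∀ m : t.divisors, Finite {ψ : Gp m.1 →* C // IsField m.1 ψ ∧ P m.1 ψ} := by
    intro m
    have := finite_hom (hsq.squarefree_of_dvd (Nat.dvd_of_mem_divisors m.2)).ne_zero C
    infer_instance
  rw [← Finset.sum_coe_sort t.divisors (NF C P)]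
  unfold NF
  rw [← Nat.card_sigma (β := fun m : t.divisors => {ψ : Gp m.1 →* C // IsField m.1 ψ ∧ P m.1 ψ})]
  refine Nat.card_le_card_of_injective (fun q => ⟨q.2.1.comp
    (res (Nat.dvd_of_mem_divisors q.1.2)), h _ _ _ q.2.2.1 q.2.2.2⟩) ?_
  rintro ⟨⟨m, hm⟩, ⟨ψ, hψ, hP⟩⟩ ⟨⟨m', hm'⟩, ⟨ψ', hψ', hP'⟩⟩ he
  have he' := congrArg Subtype.val he
  have h1 := hψ.eq_of_comp hsq (Nat.dvd_of_mem_divisors hm) (Nat.dvd_of_mem_divisors hm') hψ' he'
  subst h1
  have h2 := comp_res_injective hsq.ne_zero (Nat.dvd_of_mem_divisors hm) he'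
  subst h2
  rfl

omit hp in
theorem le_sum_NF {t : ℕ} (hsq : Squarefree t) {P : ∀ m, (Gp m →* C) → Prop}
    {Q : (Gp t →* C) → Prop}
    (h : ∀ ψ : Gp t →* C, Q ψ → ∃ (m : ℕ) (hm : m ∣ t) (ψ' : Gp m →* C), IsField m ψ' ∧ P m ψ' ∧
      ψ'.comp (res hm) = ψ) :
    Nat.card {ψ : Gp t →* C // Q ψ} ≤ ∑ m ∈ t.divisors, NF C P m := by
  classical
  have hV' : ∀ m : t.divisors, Finite {ψ : Gp m.1 →* C // IsField m.1 ψ ∧ P m.1 ψ} := by
    intro m
    have := finite_hom (hsq.squarefree_of_dvd (Nat.dvd_of_mem_divisors m.2)).ne_zero C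
    infer_instance
  rw [← Finset.sum_coe_sort t.divisors (NF C P)]
  unfold NF
  rw [← Nat.card_sigma (β := fun m : t.divisors => {ψ : Gp m.1 →* C // IsField m.1 ψ ∧ P m.1 ψ})]
  choose m hm ψ' h1 h2 h3 using h
  refine Nat.card_le_card_of_injective (fun q : {ψ : Gp t →* C // Q ψ} =>
    (⟨⟨m q.1 q.2, Nat.mem_divisors.mpr ⟨hm q.1 q.2, hsq.ne_zero⟩⟩,
      ⟨ψ' q.1 q.2, h1 q.1 q.2, h2 q.1 q.2⟩⟩ :
      Σ m : t.divisors, {ψ : Gp m.1 →* C // IsField m.1 ψ ∧ P m.1 ψ})) ?_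
  rintro ⟨ψ, hψ⟩ ⟨φ, hφ⟩ he
  have key : ∀ (a b : Σ m : t.divisors, {ψ : Gp m.1 →* C // IsField m.1 ψ ∧ P m.1 ψ}), a = b →
      a.2.1.comp (res (Nat.dvd_of_mem_divisors a.1.2)) =
      b.2.1.comp (res (Nat.dvd_of_mem_divisors b.1.2)) := by
    rintro a _ rfl
    rfl
  have h4 := key _ _ he
  refine Subtype.ext ?_
  show ψ = φ
  rw [← h3 ψ hψ, ← h3 φ hφ]
  exact h4

end MTate
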