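import Mathlib

/-!
# Multiplicative weights as mixtures of uniform distributions
-/

namespace MTate

/-- the weight of the conductor `m` -/
noncomputable def wt (w : ℕ → ℝ) (m : ℕ) : ℝ := ∏ l ∈ m.primeFactors, w l

/-- the coefficients of the mixture -/
noncomputable def mixc (w : ℕ → ℝ) (t t' : ℕ) : ℝ :=
  (∏ l ∈ t'.primeFactors, w l) * ∏ l ∈ t.primeFactors \ t'.primeFactors, (1 - w l)

theorem wt_nonneg {w : ℕ → ℝ} (hw : ∀ l, 0 ≤ w l) (m : ℕ) : 0 ≤ wt w m :=
  Finset.prod_nonneg fun l _ => hw l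

theorem mixc_nonneg {w : ℕ → ℝ} (hw : ∀ l, 0 ≤ w l) (hw' : ∀ l, w l ≤ 1) (t t' : ℕ) :
    0 ≤ mixc w t t' :=
  mul_nonneg (Finset.prod_nonneg fun l _ => hw l)
    (Finset.prod_nonneg fun l _ => sub_nonneg.mpr (hw' l))

/-- sums over the divisors of a square-free number -/
theorem sum_divisors_sq {t : ℕ} (hsq : Squarefree t) (F : Finset ℕ → ℝ) :
    ∑ t' ∈ t.divisors, F t'.primeFactors = ∑ S ∈ t.primeFactors.powerset, F S := by
  refine Finset.sum_bij' (fun t' _ => t'.primeFactors) (fun S _ => ∏ l ∈ S, l) ?_ ?_ ?_ ?_ ?_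
  · intro t' ht'
    exact Finset.mem_powerset.mpr (Nat.primeFactors_mono (Nat.dvd_of_mem_divisors ht')
      hsq.ne_zero)
  · intro S hS
    rw [Nat.mem_divisors]
    refine ⟨?_, hsq.ne_zero⟩
    conv_rhs => rw [← Nat.prod_primeFactors_of_squarefree hsq]
    exact Finset.prod_dvd_prod_of_subset _ _ _ (Finset.mem_powerset.mp hS)
  · intro t' ht'
    exact Nat.prod_primeFactors_of_squarefree
      (hsq.squarefree_of_dvd (Nat.dvd_of_mem_divisors ht'))
  · intro S hS
    exact Nat.primeFactors_prod fun l hl =>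
      Nat.prime_of_mem_primeFactors (Finset.mem_powerset.mp hS hl)
  · intro t' _
    rfl

/-- the mixture of the multiplicative functions -/
theorem mix_prod {w : ℕ → ℝ} {t : ℕ} (hsq : Squarefree t) (x : ℝ) :
    ∑ t' ∈ t.divisors, mixc w t t' * x ^ t'.primeFactors.card =
      ∏ l ∈ t.primeFactors, (1 - w l + w l * x) := by
  classical
  let F : Finset ℕ → ℝ := fun S => (∏ l ∈ S, w l * x) * ∏ l ∈ t.primeFactors \ S, (1 - w l)
  have h1 : ∀ t' ∈ t.divisors, mixc w t t' * x ^ t'.primeFactors.card =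
      F t'.primeFactors := by
    intro t' _
    show _ = (∏ l ∈ t'.primeFactors, w l * x) * ∏ l ∈ t.primeFactors \ t'.primeFactors, (1 - w l)
    rw [Finset.prod_mul_distrib, Finset.prod_const]
    unfold mixc
    ring
  rw [Finset.sum_congr rfl h1, sum_divisors_sq hsq F, ← Finset.prod_add]
  refine Finset.prod_congr rfl fun l _ => ?_
  ring

/-- the mixture over the multiples of a divisor -/
theorem mix_mul {w : ℕ → ℝ} {t m : ℕ} (hsq : Squarefree t) (hm : m ∣ t) (x : ℝ) :
    ∑ t' ∈ t.divisors.filter (fun t' => m ∣ t'), mixc w t t' * x ^ t'.primeFactors.card =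
      (∏ l ∈ m.primeFactors, w l * x) *
        ∏ l ∈ t.primeFactors \ m.primeFactors, (1 - w l + w l * x) := by
  classical
  have hsub : m.primeFactors ⊆ t.primeFactors := Nat.primeFactors_mono hm hsq.ne_zero
  have hdvd : ∀ t' ∈ t.divisors, (m ∣ t' ↔ m.primeFactors ⊆ t'.primeFactors) := by
    intro t' ht'
    have ht'' := Nat.dvd_of_mem_divisors ht'
    constructor
    · intro h
      exact Nat.primeFactors_mono h (hsq.squarefree_of_dvd ht'').ne_zero
    · intro h
      rw [← Nat.prod_primeFactors_of_squarefree (hsq.squarefree_of_dvd hm),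
        ← Nat.prod_primeFactors_of_squarefree (hsq.squarefree_of_dvd ht'')]
      exact Finset.prod_dvd_prod_of_subset _ _ _ h
  rw [Finset.sum_filter]
  let F : Finset ℕ → ℝ := fun S => (∏ l ∈ S, w l * x) *
    ∏ l ∈ t.primeFactors \ S, if l ∈ m.primeFactors then 0 else (1 - w l)
  have h1 : ∀ t' ∈ t.divisors, (if m ∣ t' then mixc w t t' * x ^ t'.primeFactors.card else 0) =
      F t'.primeFactors := by
    intro t' ht'
    show _ = (∏ l ∈ t'.primeFactors, w l * x) * ∏ l ∈ t.primeFactors \ t'.primeFactors,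
      if l ∈ m.primeFactors then 0 else (1 - w l)
    by_cases h : m ∣ t'
    · rw [if_pos h, Finset.prod_mul_distrib, Finset.prod_const]
      have h2 : (∏ l ∈ t.primeFactors \ t'.primeFactors,
          if l ∈ m.primeFactors then 0 else (1 - w l)) =
          ∏ l ∈ t.primeFactors \ t'.primeFactors, (1 - w l) := by
        refine Finset.prod_congr rfl fun l hl => ?_
        rw [if_neg]
        intro hlm
        exact (Finset.mem_sdiff.mp hl).2 ((hdvd t' ht').mp h hlm)
      rw [h2]
      unfold mixc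
      ring
    · rw [if_neg h]
      have h2 : ¬ m.primeFactors ⊆ t'.primeFactors := fun h3 => h ((hdvd t' ht').mpr h3)
      obtain ⟨l, hl, hl'⟩ := Finset.not_subset.mp h2
      have h3 : (∏ l ∈ t.primeFactors \ t'.primeFactors,
          if l ∈ m.primeFactors then 0 else (1 - w l)) = 0 :=
        Finset.prod_eq_zero (Finset.mem_sdiff.mpr ⟨hsub hl, hl'⟩) (if_pos hl)
      rw [h3, mul_zero]
  rw [Finset.sum_congr rfl h1, sum_divisors_sq hsq F, ← Finset.prod_add,
    ← Finset.prod_sdiff hsub, mul_comm]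
  congr 1
  · refine Finset.prod_congr rfl fun l hl => ?_
    rw [if_pos hl, add_zero]
  · refine Finset.prod_congr rfl fun l hl => ?_
    rw [if_neg (Finset.mem_sdiff.mp hl).2]
    ring

/-- **the weights are mixtures** -/
theorem mix_sum {w : ℕ → ℝ} {t : ℕ} (hsq : Squarefree t) (N : ℕ → ℝ) :
    ∑ m ∈ t.divisors, N m * wt w m =
      ∑ t' ∈ t.divisors, mixc w t t' * ∑ m ∈ t'.divisors, N m := by
  classical
  have h1 : ∀ m ∈ t.divisors, N m * wt w m =
      ∑ t' ∈ t.divisors, if m ∣ t' then mixc w t t' * N m else 0 := by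
    intro m hm
    have h2 := mix_mul (w := w) hsq (Nat.dvd_of_mem_divisors hm) 1
    simp only [one_pow, mul_one] at h2
    have h3 : ∏ l ∈ t.primeFactors \ m.primeFactors, (1 - w l + w l) = 1 :=
      Finset.prod_eq_one fun l _ => by ring
    rw [h3, mul_one] at h2
    rw [← Finset.sum_filter, ← Finset.sum_mul, h2]
    unfold wt
    ring
  rw [Finset.sum_congr rfl h1, Finset.sum_comm]
  refine Finset.sum_congr rfl fun t' ht' => ?_
  rw [Finset.mul_sum, ← Finset.sum_filter]
  have h2 : t.divisors.filter (fun m => m ∣ t') = t'.divisors := by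
    ext m
    simp only [Finset.mem_filter, Nat.mem_divisors]
    have h3 := Nat.dvd_of_mem_divisors ht'
    have h4 := (hsq.squarefree_of_dvd h3).ne_zero
    constructor
    · rintro ⟨-, h5⟩
      exact ⟨h5, h4⟩
    · rintro ⟨h5, -⟩
      exact ⟨⟨h5.trans h3, hsq.ne_zero⟩, h5⟩
  rw [h2]

/-- the total of the mixture coefficients -/
theorem mix_one {w : ℕ → ℝ} {t : ℕ} (hsq : Squarefree t) :
    ∑ t' ∈ t.divisors, mixc w t t' = 1 := by
  have h := mix_prod (w := w) hsq 1
  simp only [one_pow, mul_one] at h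
  rw [h]
  exact Finset.prod_eq_one fun l _ => by ring

/-- comparison of the products -/
theorem prod_le_exp {w : ℕ → ℝ} (hw : ∀ l, 0 ≤ w l) (hw' : ∀ l, w l ≤ 1) {T : Finset ℕ} {c q : ℝ}
    (hc : 1 ≤ c) (hq : 1 ≤ q) :
    ∏ l ∈ T, (1 - w l + w l * (c / q)) ≤
      Real.exp (-((1 - 1 / q) * ∑ l ∈ T, w l)) * ∏ l ∈ T, (1 - w l + w l * c) := by
  rw [Finset.mul_sum, ← Finset.sum_neg_distrib, Real.exp_sum, ← Finset.prod_mul_distrib]
  have hq0 : 0 < q := by linarith
  have hq1 : 0 ≤ 1 - 1 / q := by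
    rw [sub_nonneg, div_le_one hq0]
    exact hq
  refine Finset.prod_le_prod (fun l _ => ?_) fun l _ => ?_
  · have h1 := hw l
    have h2 := hw' l
    have h3 : 0 ≤ w l * (c / q) := mul_nonneg h1 (by positivity)
    linarith
  · have h1 := hw l
    have h2 := hw' l
    have h3 : 1 - (1 - 1 / q) * w l ≤ Real.exp (-((1 - 1 / q) * w l)) := by
      have := Real.add_one_le_exp (-((1 - 1 / q) * w l))
      linarith
    have h4 : 0 ≤ 1 - w l + w l * c := by nlinarith
    refine le_trans ?_ (mul_le_mul_of_nonneg_right h3 h4)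
    have h5 : c / q = c - (1 - 1 / q) * c := by
      field_simp
      ring
    rw [h5]
    have h6 : 0 ≤ (1 - 1 / q) * w l * (c - 1) * (1 - w l) :=
      mul_nonneg (mul_nonneg (mul_nonneg hq1 h1) (by linarith)) (by linarith)
    nlinarith

end MTate
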