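import Mathlib
import Pool.Agent.Lib.MP_5deabe_nt.ZeroOne

/-!
# Powers of the augmentation ideal for cyclic groups of order `p ^ n` in terms of functionals
-/

namespace MTate

open MonoidAlgebra

variable {p : ℕ} [hp : Fact p.Prime]

/-- the augmentation ideal of a cyclic group -/
theorem augI_pow_le_span (n k : ℕ) : augI ℤ_[p] (Cpn p n) ^ k ≤
    Ideal.span {(of ℤ_[p] (Cpn p n) (gam p n) - 1) ^ k} := by
  have hcl : Subgroup.closure {gam p n} = (⊤ : Subgroup (Cpn p n)) := by
    rw [eq_top_iff]
    intro x _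
    rw [Subgroup.mem_closure_singleton]
    obtain ⟨j, hj⟩ := gam_pow_val x
    exact ⟨(j : ℤ), by rw [zpow_natCast, hj]⟩
  have h6 := augI_le_span (R := ℤ_[p]) hcl
  rw [Set.image_singleton] at h6
  rw [← Ideal.span_singleton_pow]
  exact Ideal.pow_right_mono h6 k

theorem lam_eq_zero {n j : ℕ} {y : MonoidAlgebra ℤ_[p] (Cpn p n)}
    (hy : y ∈ augI ℤ_[p] (Cpn p n) ^ j) {k : ℕ} (hk : k < j) (hkp : k < p) : lam n k y = 0 := by
  obtain ⟨v, rfl⟩ := Ideal.mem_span_singleton.mp (augI_pow_le_span n j hy)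
  obtain ⟨i, rfl⟩ := Nat.exists_eq_add_of_lt hk
  have h1 : (of ℤ_[p] (Cpn p n) (gam p n) - 1) ^ (k + i + 1) * v =
      (of ℤ_[p] (Cpn p n) (gam p n) - 1) ^ (k + 1) *
        ((of ℤ_[p] (Cpn p n) (gam p n) - 1) ^ i * v) := by
    ring
  rw [h1, lam_pow_succ hkp]

/-- the functionals detect the powers of the augmentation ideal -/
theorem mem_of_lam {n r j : ℕ} (hr : r < p) (hj : 1 ≤ j) {y : MonoidAlgebra ℤ_[p] (Cpn p n)}
    (h0 : y ∈ augI ℤ_[p] (Cpn p n) ^ j) (h : ∀ k, j ≤ k → k ≤ r → lam n k y = 0) :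
    y ∈ augI ℤ_[p] (Cpn p n) ^ (r + 1) := by
  set z := of ℤ_[p] (Cpn p n) (gam p n) - 1 with hz
  have hzI : z ∈ augI ℤ_[p] (Cpn p n) := of_sub_one_mem _
  have key : ∀ i, i ≤ r + 1 → y ∈ augI ℤ_[p] (Cpn p n) ^ i := by
    intro i
    induction i with
    | zero => intro _; simp
    | succ i ih =>
      intro hi
      have h1 := ih (by omega)
      rcases Nat.lt_or_ge i j with hij | hij
      · exact Ideal.pow_le_pow_right hij h0
      · obtain ⟨v, hv⟩ := Ideal.mem_span_singleton.mp (augI_pow_le_span n i h1)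
        have h2 := h i hij (by omega)
        rw [hv, lam_pow (by omega)] at h2
        have h3 : eps ℤ_[p] _ v ∈ RingHom.ker (PadicInt.toZModPow (p := p) n) := h2
        rw [PadicInt.ker_toZModPow, Ideal.mem_span_singleton] at h3
        obtain ⟨c, hc⟩ := h3
        obtain ⟨i', rfl⟩ : ∃ i', i = i' + 1 := ⟨i - 1, by omega⟩
        have h4 : y = z ^ (i' + 1) * (v - algebraMap ℤ_[p] _ (eps ℤ_[p] _ v)) +
            z ^ i' * (algebraMap ℤ_[p] _ c * (((p ^ n : ℕ) : MonoidAlgebra ℤ_[p] (Cpn p n)) *
              z)) := by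
          rw [hv, hc, map_mul, map_pow, map_natCast]
          push_cast
          ring
        rw [h4]
        refine Ideal.add_mem _ ?_ ?_
        · rw [pow_succ (augI ℤ_[p] (Cpn p n))]
          exact Ideal.mul_mem_mul (Ideal.pow_mem_pow hzI _) (sub_eps_mem v)
        · obtain ⟨w, hw⟩ := nsmul_sub_one_mem (R := ℤ_[p]) (gam_pow_card (p := p) n)
          rw [← hz] at hw
          rw [hw]
          have h5 : z ^ i' * (algebraMap ℤ_[p] _ c * (z ^ 2 * w)) =
              z ^ (i' + 1 + 1) * (algebraMap ℤ_[p] _ c * w) := by ring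
          rw [h5]
          exact Ideal.mul_mem_right _ _ (Ideal.pow_mem_pow hzI _)
  exact key _ le_rfl

/-- the functionals as polynomials -/
theorem exists_poly {H : Type*} [CommGroup H] {ι : Type*} [Fintype ι] [DecidableEq ι]
    {k : ℕ} (hk : k < p) (v : ι → H →* Cpn p 1) (x : MonoidAlgebra ℤ_[p] H) :
    ∃ P : MvPolynomial ι (ZMod (p ^ 1)), P.totalDegree ≤ k ∧
      ∀ u : ι → ZMod (p ^ 1), MvPolynomial.eval u P =
        lam 1 k (push (∏ i, v i ^ (u i).val) x) := by
  haveI : Fact (p ^ 1).Prime := ⟨by rw [pow_one]; exact hp.out⟩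
  induction x using MonoidAlgebra.induction_linear with
  | zero => exact ⟨0, by simp, fun u => by simp⟩
  | add a b ha hb =>
    obtain ⟨P, h1, h2⟩ := ha
    obtain ⟨P', h1', h2'⟩ := hb
    refine ⟨P + P', (MvPolynomial.totalDegree_add _ _).trans (max_le h1 h1'), fun u => ?_⟩
    rw [map_add, h2, h2', map_add, map_add]
  | single h a =>
    let L : MvPolynomial ι (ZMod (p ^ 1)) :=
      ∑ i, MvPolynomial.C (Multiplicative.toAdd (v i h)) * MvPolynomial.X i
    have hL : L.totalDegree ≤ 1 := by
      refine MvPolynomial.totalDegree_finsetSum_le fun i _ => ?_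
      refine (MvPolynomial.totalDegree_mul _ _).trans ?_
      rw [MvPolynomial.totalDegree_C, MvPolynomial.totalDegree_X]
    let Q : Polynomial (ZMod (p ^ 1)) := descPochhammer (ZMod (p ^ 1)) k
    refine ⟨MvPolynomial.C (PadicInt.toZModPow 1 a * ((k.factorial : ℕ) : ZMod (p ^ 1))⁻¹) *
      Polynomial.aeval L Q, ?_, fun u => ?_⟩
    · refine (MvPolynomial.totalDegree_mul _ _).trans ?_
      rw [MvPolynomial.totalDegree_C, zero_add, Polynomial.aeval_eq_sum_range]
      refine MvPolynomial.totalDegree_finsetSum_le fun i hi => ?_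
      refine (MvPolynomial.totalDegree_smul_le _ _).trans ?_
      refine (MvPolynomial.totalDegree_pow _ _).trans ?_
      have h1 : i ≤ k := by
        have h2 := Finset.mem_range.mp hi
        have h3 : Q.natDegree = k := descPochhammer_natDegree _ _
        omega
      calc i * L.totalDegree ≤ i * 1 := Nat.mul_le_mul_left _ hL
        _ ≤ k := by omega
    · rw [push_single, lam_single, map_mul, MvPolynomial.eval_C, mul_assoc]
      congr 1
      have h1 : MvPolynomial.eval u (Polynomial.aeval L Q) =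
          Polynomial.eval (MvPolynomial.eval u L) Q := by
        rw [Polynomial.aeval_def, Polynomial.hom_eval₂, Polynomial.eval]
        congr 1
        ext y
        simp
      have h2 : MvPolynomial.eval u L =
          Multiplicative.toAdd ((∏ i, v i ^ (u i).val) h) := by
        rw [MonoidHom.finsetProd_apply, toAdd_prod, map_sum]
        refine Finset.sum_congr rfl fun i _ => ?_
        rw [map_mul, MvPolynomial.eval_C, MvPolynomial.eval_X, MonoidHom.pow_apply, toAdd_pow,
          nsmul_eq_mul, ZMod.natCast_zmod_val, mul_comm]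
      rw [h1, h2]
      unfold bino
      set y := Multiplicative.toAdd ((∏ i, v i ^ (u i).val) h) with hy
      have h3 : Polynomial.eval y Q = ((y.val.descFactorial k : ℕ) : ZMod (p ^ 1)) := by
        rw [← descPochhammer_eval_eq_descFactorial, ZMod.natCast_zmod_val]
      rw [h3, Nat.descFactorial_eq_factorial_mul_choose, Nat.cast_mul, ← mul_assoc,
        inv_mul_cancel₀, one_mul]
      rw [Ne, ZMod.natCast_eq_zero_iff, pow_one]
      intro hd
      exact absurd ((hp.out.dvd_factorial).mp hd) (by omega)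

end MTate
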