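import Mathlib
import Pool.Agent.Lib.MP_5deabe_nt_DN.Lam

/-!
# The proportion of zeros, by means of random subspaces
-/

namespace MTate

open MonoidAlgebra

variable {p : ℕ} [hp : Fact p.Prime]

/-- averaging over subspaces -/
theorem card_le_of_span {V : Type*} [CommGroup V] [Finite V] (hV : ∀ v : V, v ^ p = 1)
    (Good : V → Prop) (K : ℕ)
    (h : ∀ v : Fin K → V, p - 1 ≤ Nat.card {u : Fin K → ZMod (p ^ 1) //
      u ≠ 0 ∧ Good (∏ i, v i ^ (u i).val)}) :
    (p - 1) * Nat.card V ≤ (p ^ K - 1) * Nat.card {v // Good v} := by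
  classical
  have : NeZero (p ^ 1) := ⟨by rw [pow_one]; exact hp.out.ne_zero⟩
  have : Fintype V := Fintype.ofFinite V
  rw [Nat.card_eq_fintype_card, Nat.card_eq_fintype_card, Fintype.card_subtype]
  set S : Finset V := Finset.univ.filter fun v => Good v with hS
  let φ : (Fin K → ZMod (p ^ 1)) → (Fin K → V) →* V := fun u =>
    { toFun := fun v => ∏ i, v i ^ (u i).val
      map_one' := by simp
      map_mul' := fun v w => by simp [mul_pow, Finset.prod_mul_distrib] }
  have hφ : ∀ u, u ≠ 0 → Function.Surjective (φ u) := by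
    intro u hu a
    obtain ⟨i, hi⟩ := Function.ne_iff.mp hu
    have hc : (u i).val.Coprime p := by
      refine Nat.Coprime.symm ((Nat.Prime.coprime_iff_not_dvd hp.out).mpr fun hd => hi ?_)
      have h1 : (((u i).val : ℕ) : ZMod (p ^ 1)) = 0 :=
        (ZMod.natCast_eq_zero_iff _ _).mpr ((pow_one p).dvd.trans hd)
      rw [ZMod.natCast_zmod_val] at h1
      exact h1
    obtain ⟨j, hj⟩ := exists_pow_eq_self_of_coprime (x := a)
      (hc.coprime_dvd_right (orderOf_dvd_of_pow_eq_one (hV a)))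
    refine ⟨Function.update 1 i (a ^ j), ?_⟩
    show ∏ k, Function.update (1 : Fin K → V) i (a ^ j) k ^ (u k).val = a
    rw [Finset.prod_eq_single i]
    · rw [Function.update_self, ← pow_mul, mul_comm, pow_mul, hj]
    · intro k _ hk
      rw [Function.update_of_ne hk, Pi.one_apply, one_pow]
    · intro h
      exact absurd (Finset.mem_univ i) h
  have h1 : ∀ v : Fin K → V, p - 1 ≤ ∑ u ∈ (Finset.univ.erase (0 : Fin K → ZMod (p ^ 1))),
      if φ u v ∈ S then 1 else 0 := by
    intro v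
    refine (h v).trans (le_of_eq ?_)
    rw [Nat.card_eq_fintype_card, Fintype.card_subtype, ← Finset.sum_filter,
      Finset.sum_const, smul_eq_mul, mul_one]
    congr 1
    ext u
    simp only [Finset.mem_filter, Finset.mem_univ, true_and, Finset.mem_erase, hS]
    exact ⟨fun h => ⟨⟨h.1, trivial⟩, h.2⟩, fun h => ⟨h.1.1, h.2⟩⟩
  have h2 : (Finset.univ : Finset (Fin K → V)).card * (p - 1) ≤
      ∑ v : Fin K → V, ∑ u ∈ (Finset.univ.erase (0 : Fin K → ZMod (p ^ 1))),
        if φ u v ∈ S then 1 else 0 := by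
    rw [← smul_eq_mul, ← Finset.sum_const]
    exact Finset.sum_le_sum fun v _ => h1 v
  rw [Finset.sum_comm] at h2
  have h3 : (∑ u ∈ (Finset.univ.erase (0 : Fin K → ZMod (p ^ 1))), ∑ v : Fin K → V,
      if φ u v ∈ S then 1 else 0) * Fintype.card V =
      (p ^ K - 1) * (S.card * Fintype.card (Fin K → V)) := by
    rw [Finset.sum_mul, Finset.sum_congr rfl (g := fun _ => S.card * Fintype.card (Fin K → V))]
    · rw [Finset.sum_const, smul_eq_mul, Finset.card_erase_of_mem (Finset.mem_univ _),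
        Finset.card_univ, Fintype.card_fun, ZMod.card, Fintype.card_fin, pow_one]
    · intro u hu
      have hu0 := (Finset.mem_erase.mp hu).1
      rw [← card_preimage (φ u) (hφ u hu0) S, ← Finset.sum_filter, Finset.sum_const, smul_eq_mul,
        mul_one]
  have h4 := Nat.mul_le_mul_right (Fintype.card V) h2
  rw [h3, Finset.card_univ] at h4
  have h5 : 0 < Fintype.card (Fin K → V) := Fintype.card_pos
  refine Nat.le_of_mul_le_mul_left (c := Fintype.card (Fin K → V)) ?_ h5
  calc Fintype.card (Fin K → V) * ((p - 1) * Fintype.card V) =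
        Fintype.card (Fin K → V) * (p - 1) * Fintype.card V := by ring
    _ ≤ (p ^ K - 1) * (S.card * Fintype.card (Fin K → V)) := h4
    _ = _ := by ring

/-- nontrivial zeros in a subspace -/
theorem zeros_span {H : Type*} [CommGroup H] {r j K : ℕ} (hr : r < p) (hj : 1 ≤ j)
    (hK : ∑ k ∈ Finset.Icc j r, k < K) {x : MonoidAlgebra ℤ_[p] H}
    (hx : ∀ ψ : H →* Cpn p 1, push ψ x ∈ augI ℤ_[p] (Cpn p 1) ^ j) (v : Fin K → H →* Cpn p 1) :
    p - 1 ≤ Nat.card {u : Fin K → ZMod (p ^ 1) //
      u ≠ 0 ∧ push (∏ i, v i ^ (u i).val) x ∈ augI ℤ_[p] (Cpn p 1) ^ (r + 1)} := by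
  classical
  have hF : Fact (p ^ 1).Prime := ⟨by rw [pow_one]; exact hp.out⟩
  choose P hP1 hP2 using fun k : {k // k ∈ Finset.Icc j r} =>
    exists_poly (k := k.1) (by
      have := (Finset.mem_Icc.mp k.2).2
      omega) v x
  have h1 : ∑ k, (P k).totalDegree < Fintype.card (Fin K) := by
    rw [Fintype.card_fin]
    refine lt_of_le_of_lt (Finset.sum_le_sum fun k _ => hP1 k) ?_
    rwa [Finset.sum_coe_sort (Finset.Icc j r) (fun k => k)]
  have h2 := char_dvd_card_solutions_of_fintype_sum_lt (K := ZMod (p ^ 1)) (p ^ 1) h1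
  set Z := {u : Fin K → ZMod (p ^ 1) // ∀ k, MvPolynomial.eval u (P k) = 0} with hZ
  have h0 : ∀ k, MvPolynomial.eval (0 : Fin K → ZMod (p ^ 1)) (P k) = 0 := by
    intro k
    rw [hP2]
    have h3 : (∏ i, v i ^ ((0 : Fin K → ZMod (p ^ 1)) i).val) = 1 := by
      refine Finset.prod_eq_one fun i _ => ?_
      rw [Pi.zero_apply, ZMod.val_zero, pow_zero]
    rw [h3]
    have h4 := hx 1
    have h5 : push (1 : H →* Cpn p 1) x = single 1 (eps ℤ_[p] H x) := by
      clear h4 h2 h1 hP1 hP2
      induction x using MonoidAlgebra.induction_linear with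
      | zero => simp
      | add a b ha hb =>
        have ha' : ∀ y : MonoidAlgebra ℤ_[p] H, push (1 : H →* Cpn p 1) y =
            single 1 (eps ℤ_[p] H y) := by
          intro y
          induction y using MonoidAlgebra.induction_linear with
          | zero => simp
          | add a b ha hb => rw [map_add, map_add, ha, hb, MonoidAlgebra.single_add]
          | single h a => rw [push_single, eps_single, MonoidHom.one_apply]
        exact ha' _
      | single h a => rw [push_single, eps_single, MonoidHom.one_apply]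
    have h6 : eps ℤ_[p] H x = 0 := by
      have h7 := Ideal.pow_le_pow_right hj h4
      rw [pow_one (augI ℤ_[p] (Cpn p 1)), mem_augI, eps_push] at h7
      exact h7
    rw [h5, h6, MonoidAlgebra.single_zero, map_zero]
  have h3 : 0 < Fintype.card Z := Fintype.card_pos_iff.mpr ⟨⟨0, h0⟩⟩
  have h4 : p ^ 1 ≤ Fintype.card Z := Nat.le_of_dvd h3 h2
  have h5 : Fintype.card Z ≤ Nat.card {u : Fin K → ZMod (p ^ 1) //
      u ≠ 0 ∧ push (∏ i, v i ^ (u i).val) x ∈ augI ℤ_[p] (Cpn p 1) ^ (r + 1)} + 1 := by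
    have h6 : Nat.card (Option {u : Fin K → ZMod (p ^ 1) //
        u ≠ 0 ∧ push (∏ i, v i ^ (u i).val) x ∈ augI ℤ_[p] (Cpn p 1) ^ (r + 1)}) =
        Nat.card {u : Fin K → ZMod (p ^ 1) //
        u ≠ 0 ∧ push (∏ i, v i ^ (u i).val) x ∈ augI ℤ_[p] (Cpn p 1) ^ (r + 1)} + 1 :=
      Finite.card_option
    rw [← h6, ← Nat.card_eq_fintype_card]
    refine Nat.card_le_card_of_injective (fun z : Z => if h : z.1 = 0 then none else
      some ⟨z.1, h, mem_of_lam hr hj (hx _) fun k hk hk' => ?_⟩) ?_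
    · rw [← hP2 ⟨k, Finset.mem_Icc.mpr ⟨hk, hk'⟩⟩]
      exact z.2 _
    · intro z z' h
      by_cases h1 : z.1 = 0 <;> by_cases h2 : z'.1 = 0
      · exact Subtype.ext (h1.trans h2.symm)
      · simp [h1, h2] at h
      · simp [h1, h2] at h
      · simp only [h1, h2, dif_neg, not_false_iff] at h
        have h7 := congrArg Subtype.val (Option.some.inj h)
        exact Subtype.ext h7
  have h6 : p ≤ Fintype.card Z := (pow_one p).symm.le.trans h4
  omega

/-- **the proportion of the characters of order `p` which kill the image in `I^j/I^{r+1}`** -/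
theorem card_span {H : Type*} [CommGroup H] [Finite (H →* Cpn p 1)] {r j : ℕ} (hr : r < p)
    (hj : 1 ≤ j) {x : MonoidAlgebra ℤ_[p] H}
    (hx : ∀ ψ : H →* Cpn p 1, push ψ x ∈ augI ℤ_[p] (Cpn p 1) ^ j) :
    (p - 1) * Nat.card (H →* Cpn p 1) ≤ (p ^ (∑ k ∈ Finset.Icc j r, k + 1) - 1) *
      Nat.card {ψ : H →* Cpn p 1 // push ψ x ∈ augI ℤ_[p] (Cpn p 1) ^ (r + 1)} := by
  refine card_le_of_span (fun ψ => ?_)
    (fun ψ : H →* Cpn p 1 => push ψ x ∈ augI ℤ_[p] (Cpn p 1) ^ (r + 1)) _
    fun v => zeros_span hr hj (Nat.lt_succ_self _) hx v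
  refine MonoidHom.ext fun g => ?_
  rw [MonoidHom.pow_apply, MonoidHom.one_apply]
  exact (congrArg (fun k => ψ g ^ k) (pow_one p)).symm.trans (Cpn_pow_card (ψ g))

end MTate
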