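import Mathlib
import Pool.Agent.Lib.MP_5deabe_nt.PosProp
import Pool.Agent.Lib.MP_5deabe_nt_DN.Count
import Pool.Agent.Lib.MP_5deabe_nt_DN.Mix
import Pool.Agent.Lib.MP_5deabe_nt_DN.Warn

/-!
# Weighted counting of the fields of conductor dividing `t`
-/

namespace MTate

open MonoidAlgebra

variable {p : ℕ} [hp : Fact p.Prime] {D : MTData}

/-- the nonsurjective homomorphisms to a cyclic group -/
theorem card_ns_cyclic (hp2 : p ≠ 2) {t n : ℕ} (hsq : Squarefree t) (ht1 : t ≠ 1) (hn : 1 ≤ n)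
    (h : ∀ l ∈ t.primeFactors, p ^ n ∣ l - 1) :
    p * Nat.card {ψ : Gp t →* Cpn p n // ¬ Function.Surjective ψ} ≤
      Nat.card (Gp t →* Cpn p n) := by
  classical
  have hfC := Cpn_finite (p := p) n
  have hV := finite_hom hsq.ne_zero (Cpn p n)
  let N : Subgroup (Gp t →* Cpn p n) := (powMonoidHom (p ^ (n - 1))).ker
  have h1 : Nat.card {ψ : Gp t →* Cpn p n // ¬ Function.Surjective ψ} ≤ Nat.card N := by
    refine Nat.card_le_card_of_injective (fun ψ => ⟨ψ.1, ?_⟩) ?_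
    · show ψ.1 ^ p ^ (n - 1) = 1
      refine MonoidHom.ext fun g => ?_
      rw [MonoidHom.pow_apply, MonoidHom.one_apply]
      obtain ⟨a, ha⟩ := gam_pow_val (ψ.1 g)
      obtain ⟨b, rfl⟩ := dvd_of_not_surjective ψ.2 ha.symm
      rw [← ha, ← pow_mul]
      have h2 : p * b * p ^ (n - 1) = p ^ n * b := by
        obtain ⟨n', rfl⟩ : ∃ n', n = n' + 1 := ⟨n - 1, by omega⟩
        rw [Nat.add_sub_cancel, pow_succ]
        ring
      rw [h2, pow_mul, gam_pow_card, one_pow]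
    · intro ψ ψ' he
      have h2 : ψ.1 = ψ'.1 := congrArg (fun z : N => z.1) he
      exact Subtype.ext h2
  have h2 : N ≠ ⊤ := by
    intro hN
    obtain ⟨c, -, hc2, hc3, -, hc5⟩ := exists_gens (p := p) hsq
    obtain ⟨φ, hφ, -, hs⟩ := exists_totRam (u := fun _ => 1) hp2 hsq.ne_zero hc3
      (fun i => Nat.coprime_one_right p) (hc5 n (fun i => h i.1 i.2) fun _ => 1)
    obtain ⟨y, hy⟩ := hs ht1 (gam p n)
    have h3 : φ ∈ N := by rw [hN]; trivial
    have h4 : φ ^ p ^ (n - 1) = 1 := h3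
    have h5 := DFunLike.congr_fun h4 y
    rw [MonoidHom.pow_apply, hy, MonoidHom.one_apply] at h5
    have h6 := (gam_pow_eq_iff (p := p) (n := n) (p ^ (n - 1)) 0).mp (by rw [h5, pow_zero])
    have h7 := Nat.le_of_dvd (Nat.pow_pos hp.out.pos) ((Nat.modEq_zero_iff_dvd).mp h6)
    have h8 := (Nat.pow_le_pow_iff_right hp.out.one_lt).mp h7
    omega
  have h3 := N.card_mul_index
  have h4 : p ≤ N.index := by
    have h5 : N.index ∣ p ^ (n * t.primeFactors.card) := by
      have h5 := card_hom hp2 hsq h (C := Cpn p n) (fun c => Cpn_pow_card c)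
      rw [Cpn_card, ← pow_mul] at h5
      rw [← h5]
      exact N.index_dvd_card
    obtain ⟨k, -, hk⟩ := (Nat.dvd_prime_pow hp.out).mp h5
    have h6 : N.index ≠ 1 := fun h => h2 (Subgroup.index_eq_one.mp h)
    rw [hk] at h6 ⊢
    rcases Nat.eq_zero_or_pos k with rfl | hk0
    · exact absurd (pow_zero p) h6
    · exact Nat.le_self_pow hk0.ne' p
  calc _ ≤ p * Nat.card N := Nat.mul_le_mul_left _ h1
    _ ≤ N.index * Nat.card N := Nat.mul_le_mul_right _ h4
    _ = _ := by rw [mul_comm, h3]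

/-- surjective and nonsurjective homomorphisms -/
theorem card_surj_add {t : ℕ} (ht0 : t ≠ 0) {C : Type*} [CommGroup C] [Finite C] :
    Nat.card {ψ : Gp t →* C // Function.Surjective ψ} +
      Nat.card {ψ : Gp t →* C // ¬ Function.Surjective ψ} = Nat.card (Gp t →* C) := by
  classical
  have hV := finite_hom ht0 C
  rw [← Nat.card_sum]
  exact Nat.card_congr (Equiv.sumCompl fun ψ : Gp t →* C => Function.Surjective ψ)

namespace MTData

/-- the defect, with orders of vanishing -/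
theorem exists_defect_ord (hD : D.Valid p) {M : ℕ} (hM : D.Adm p M) (hI : D.Integral p M)
    (hP : D.Pairing p M) : ∃ x : MonoidAlgebra ℤ_[p] (Gp M),
      (∀ (G : Type) [CommGroup G] [Finite G] (f : Gp M →* G), Function.Surjective f →
        (D.Q1At p M f ↔ push f x ∈ augI ℤ_[p] G ^ (D.r + 1))) ∧
      ∀ (j d : ℕ) (hd : d ∣ M) (G : Type) [CommGroup G] [Finite G] (f : Gp d →* G), j ≤ D.r →
        (∃ θ, D.IsTheta p d f θ ∧ θ ∈ augI ℤ_[p] G ^ j) →
        push (f.comp (res hd)) x ∈ augI ℤ_[p] G ^ j := by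
  obtain ⟨θ, hθ⟩ := exists_theta hD hM hI
  obtain ⟨n, hn, hn'⟩ := hP.ext
  have hA : D.Compat p M (D.r + 1) (D.rhs p n) := compat_reg hM
  refine ⟨θ - D.rhs p n M (Gp M) (MonoidHom.id (Gp M)), fun G _ _ f hs => ⟨?_, fun h => ?_⟩,
    fun j d hd G _ _ f hj hθ' => ?_⟩
  · rintro ⟨d, hd, f', hf', rfl, hQ⟩
    have h1 := (hQ.stmt hn fun j => (hn' j).of_dvd hd).up_dvd hM hA hd dvd_rfl
    exact push_sub_mem hA hθ h1
  · obtain ⟨d, hd, f', hf', rfl⟩ := exists_field hM.1.ne_zero hs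
    refine ⟨d, hd, f', hf', rfl, ?_⟩
    obtain ⟨θ', hθ'⟩ := hI d hd G f' hf'
    refine Stmt.q1 hP hd hn (fun j => (hn' j).of_dvd hd) ?_
    refine Stmt.down_dvd hM hA hθ' hd dvd_rfl ?_
    refine ⟨push (f'.comp (res hd)) θ, ?_, ?_⟩
    · have := hθ.push' (f'.comp (res hd))
      rwa [MonoidHom.comp_id] at this
    · rw [map_sub, hA.comp, MonoidHom.comp_id] at h
      exact h
  · obtain ⟨θ₁, h1, h2⟩ := hθ'
    have h3 : D.Stmt p j (fun _ G _ _ => (0 : MonoidAlgebra ℤ_[p] G)) d G f :=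
      ⟨θ₁, h1, by rw [sub_zero]; exact h2⟩
    have h4 := push_sub_mem (compat_zero M j) hθ (h3.up_dvd hM (compat_zero M j) hd dvd_rfl)
    rw [sub_zero] at h4
    rw [map_sub]
    refine Ideal.sub_mem _ h4 (push_mem _ ?_)
    refine Ideal.pow_le_pow_right hj ?_
    exact Ideal.mul_mem_left _ _ (reg_mem n M _)

/-- **cyclic fields of degree `p`: the number of the fields with Q1** -/
theorem count_A1 (hD : D.Valid p) (hr1 : 1 ≤ D.r) (hr : D.r < p) {t : ℕ} (hM : D.Adm p t)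
    (hI : D.Integral p t) (hP : D.Pairing p t) (ht : ∀ l ∈ t.primeFactors, p ^ 1 ∣ l - 1)
    (hQ : ∀ (G : Type) [CommGroup G] (f : Gp 1 →* G), IsField 1 f → D.Q1 p 1 f) {j : ℕ}
    (hj1 : 1 ≤ j) (hjr : j ≤ D.r) (hj : j = 1 ∨ ∀ d, d ∣ t → ∀ f : Gp d →* Cpn p 1, IsField d f →
      ∃ θ, D.IsTheta p d f θ ∧ θ ∈ augI ℤ_[p] (Cpn p 1) ^ j) :
    (p - 1) * p ^ t.primeFactors.card ≤ (p ^ (∑ k ∈ Finset.Icc j D.r, k + 1) - 1) *
      (Nat.card {ψ : Gp t →* Cpn p 1 // Function.Surjective ψ ∧ D.Q1At p t ψ} + 1) := by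
  classical
  have hsq := hM.1
  have hfC := Cpn_finite (p := p) 1
  have hV := finite_hom hsq.ne_zero (Cpn p 1)
  obtain ⟨x, hx, hx'⟩ := exists_defect_ord hD hM hI hP
  have hcard : Nat.card (Gp t →* Cpn p 1) = p ^ t.primeFactors.card := by
    rw [card_hom hD.ne_two hsq ht (fun c => Cpn_pow_card c), Cpn_card]
    congr 1
    exact pow_one p
  have hns : ∀ ψ : Gp t →* Cpn p 1, ¬ Function.Surjective ψ → ψ = 1 := by
    intro ψ hψ
    refine MonoidHom.ext fun g => ?_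
    obtain ⟨a, ha⟩ := gam_pow_val (ψ g)
    have h1 : p ^ 1 ∣ a := (pow_one p).dvd.trans (dvd_of_not_surjective hψ ha.symm)
    obtain ⟨b, rfl⟩ := h1
    rw [← ha, pow_mul, gam_pow_card, one_pow, MonoidHom.one_apply]
  -- the trivial homomorphism
  have h1f : IsField 1 (MonoidHom.id (Gp 1)) := by
    refine ⟨Function.surjective_id, fun d hd _ => Nat.dvd_one.mp hd⟩
  have hfin1 := finite_Gp one_ne_zero
  have h1 := (hx (Gp 1) ((MonoidHom.id (Gp 1)).comp (res (one_dvd t)))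
    (res_surjective hsq.ne_zero _)).mp ((hQ _ _ h1f).q1At (one_dvd t) h1f)
  have htriv : push (1 : Gp t →* Cpn p 1) x ∈ augI ℤ_[p] (Cpn p 1) ^ (D.r + 1) := by
    have h2 := push_mem (1 : Gp 1 →* Cpn p 1) h1
    rw [push_push] at h2
    exact h2
  have hall : ∀ ψ : Gp t →* Cpn p 1, push ψ x ∈ augI ℤ_[p] (Cpn p 1) ^ j := by
    intro ψ
    rcases hj with rfl | hj
    · have h2 := Ideal.pow_le_pow_right (show 1 ≤ D.r + 1 by omega) htriv
      rw [pow_one (augI ℤ_[p] (Cpn p 1)), mem_augI, eps_push] at h2 ⊢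
      exact h2
    · by_cases hs : Function.Surjective ψ
      · obtain ⟨d, hd, f, hf, rfl⟩ := exists_field hsq.ne_zero hs
        exact hx' j d hd _ f hjr (hj d hd f hf)
      · rw [hns ψ hs]
        exact Ideal.pow_le_pow_right (by omega) htriv
  have h2 := card_span (H := Gp t) hr hj1 hall
  rw [hcard] at h2
  refine h2.trans (Nat.mul_le_mul_left _ ?_)
  have h3 : Nat.card (Option {ψ : Gp t →* Cpn p 1 // Function.Surjective ψ ∧ D.Q1At p t ψ}) =
      Nat.card {ψ : Gp t →* Cpn p 1 // Function.Surjective ψ ∧ D.Q1At p t ψ} + 1 :=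
    Finite.card_option
  rw [← h3]
  refine Nat.card_le_card_of_injective (fun ψ => if h : Function.Surjective ψ.1 then
    some ⟨ψ.1, h, (hx _ _ h).mpr ψ.2⟩ else none) ?_
  intro ψ ψ' h
  by_cases h4 : Function.Surjective ψ.1 <;> by_cases h5 : Function.Surjective ψ'.1
  · simp only [h4, h5, dif_pos] at h
    have h6 := congrArg (fun z => (z : {ψ : Gp t →* Cpn p 1 //
      Function.Surjective ψ ∧ D.Q1At p t ψ}).1) (Option.some.inj h)
    exact Subtype.ext h6
  · simp [h4, h5] at h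
  · simp [h4, h5] at h
  · exact Subtype.ext ((hns _ h4).trans (hns _ h5).symm)

/-- **the number of the fields without Q1** -/
theorem count_B (hD : D.Valid p) (hr1 : 1 ≤ D.r) (hr : D.r < p) {t : ℕ} (ht1 : t ≠ 1)
    (hM : D.Adm p t) (hI : D.Integral p t) (hP : D.Pairing p t) {n : ℕ} (hn : 1 ≤ n)
    (ht : ∀ l ∈ t.primeFactors, p ^ n ∣ l - 1) {G : Type} [CommGroup G] {m : ℕ} (hm : m ∣ t)
    {f : Gp m →* G} (hf : IsField m f) (hG : ∃ k, p.Coprime k ∧ ∀ g : G, g ^ (p ^ n * k) = 1)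
    (hQ : ¬ D.Q1 p m f) :
    (p - D.r) * (p - 1) * (p ^ n) ^ t.primeFactors.card ≤ p ^ 2 *
      Nat.card {ψ : Gp t →* Cpn p n // Function.Surjective ψ ∧ ¬ D.Q1At p t ψ} := by
  classical
  have hsq := hM.1
  have hfC := Cpn_finite (p := p) n
  have hV := finite_hom hsq.ne_zero (Cpn p n)
  have hcard : Nat.card (Gp t →* Cpn p n) = (p ^ n) ^ t.primeFactors.card := by
    rw [card_hom hD.ne_two hsq ht (fun c => Cpn_pow_card c), Cpn_card]
  have h1 : ¬ (D.r * Nat.card {ψ : Gp t →* Cpn p n // Function.Surjective ψ} ≤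
      p * Nat.card {ψ : Gp t →* Cpn p n // Function.Surjective ψ ∧ D.Q1At p t ψ}) := by
    intro h
    have h2 := zero_one hD hr1 hr ht1 hM hI hP hn ht h (f := f.comp (res hm))
      (hf.1.comp (res_surjective hsq.ne_zero hm)) hG
    exact hQ (h2.q1 hsq hm hf)
  have h2 : Nat.card {ψ : Gp t →* Cpn p n // Function.Surjective ψ} =
      Nat.card {ψ : Gp t →* Cpn p n // Function.Surjective ψ ∧ D.Q1At p t ψ} +
      Nat.card {ψ : Gp t →* Cpn p n // Function.Surjective ψ ∧ ¬ D.Q1At p t ψ} := by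
    rw [← Nat.card_sum, ← Nat.card_congr (Equiv.sumCompl
      fun ψ : {ψ : Gp t →* Cpn p n // Function.Surjective ψ} => D.Q1At p t ψ.1)]
    refine Nat.card_congr (Equiv.sumCongr ?_ ?_)
    · exact Equiv.subtypeSubtypeEquivSubtypeInter (fun ψ : Gp t →* Cpn p n =>
        Function.Surjective ψ) (fun ψ => D.Q1At p t ψ)
    · exact Equiv.subtypeSubtypeEquivSubtypeInter (fun ψ : Gp t →* Cpn p n =>
        Function.Surjective ψ) (fun ψ => ¬ D.Q1At p t ψ)
  have h3 := card_ns_cyclic hD.ne_two hsq ht1 hn ht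
  have h4 := card_surj_add (t := t) (C := Cpn p n) hsq.ne_zero
  rw [← hcard]
  push Not at h1
  set V := Nat.card (Gp t →* Cpn p n) with hVd
  set S := Nat.card {ψ : Gp t →* Cpn p n // Function.Surjective ψ} with hSd
  set Gd := Nat.card {ψ : Gp t →* Cpn p n // Function.Surjective ψ ∧ D.Q1At p t ψ}
  set Fl := Nat.card {ψ : Gp t →* Cpn p n // Function.Surjective ψ ∧ ¬ D.Q1At p t ψ}
  set NS := Nat.card {ψ : Gp t →* Cpn p n // ¬ Function.Surjective ψ}
  obtain ⟨a, ha⟩ : ∃ a, p = D.r + a := ⟨p - D.r, by omega⟩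
  obtain ⟨b, hb⟩ : ∃ b, p = b + 1 := ⟨p - 1, by have := hp.out.pos; omega⟩
  have e1 : p - D.r = a := by omega
  have e2 : p - 1 = b := by omega
  rw [e1, e2]
  have h5 : a * S ≤ p * Fl := by
    have h6 : p * S = p * Gd + p * Fl := by rw [h2]; ring
    have h7 : p * S = D.r * S + a * S := by
      conv_lhs => rw [ha]
      ring
    omega
  have h6 : b * V ≤ p * S := by
    have h7 : p * V = p * S + p * NS := by rw [← h4]; ring
    have h8 : p * V = b * V + V := by
      conv_lhs => rw [hb]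
      ring
    omega
  calc a * b * V = a * (b * V) := by ring
    _ ≤ a * (p * S) := Nat.mul_le_mul_left _ h6
    _ = p * (a * S) := by ring
    _ ≤ p * (p * Fl) := Nat.mul_le_mul_left _ h5
    _ = p ^ 2 * Fl := by ring

end MTData

end MTate
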