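import Mathlib
import Pool.Agent.Lib.MP_5deabe_nt_DN.Count

/-!
# The number of the homomorphisms to a finite abelian `p`-group
-/

namespace MTate

variable {p : ℕ} [hp : Fact p.Prime]

/-- homomorphisms to a group of odd order factor through `G_m⁺` -/
theorem exists_hom_Gp' (hp2 : p ≠ 2) {m n : ℕ} {C : Type*} [CommGroup C]
    (hC : ∀ c : C, c ^ p ^ n = 1) (φ0 : Gm m →* C) :
    ∃ φ : Gp m →* C, ∀ a, φ (toGp m a) = φ0 a := by
  have hφ1 : φ0 (-1) = 1 := by
    have h1 : φ0 (-1) ^ 2 = 1 := by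
      rw [← map_pow]
      simp
    have h2 : orderOf (φ0 (-1)) ∣ 2 := orderOf_dvd_of_pow_eq_one h1
    have h3 : orderOf (φ0 (-1)) ∣ p ^ n := orderOf_dvd_of_pow_eq_one (hC _)
    have h4 : Nat.Coprime 2 (p ^ n) :=
      Nat.Coprime.pow_right n ((Nat.coprime_primes Nat.prime_two hp.out).mpr hp2.symm)
    exact orderOf_eq_one_iff.mp (Nat.dvd_one.mp (h4 ▸ Nat.dvd_gcd h2 h3))
  refine ⟨QuotientGroup.lift (Subgroup.zpowers (-1 : Gm m)) φ0 ?_, fun a => rfl⟩
  intro a ha
  obtain ⟨j, rfl⟩ := Subgroup.mem_zpowers_iff.mp ha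
  rw [MonoidHom.mem_ker, map_zpow, hφ1, one_zpow]

theorem card_hom_mul (hp2 : p ≠ 2) {a b n : ℕ} (hab : a.Coprime b) {C : Type*} [CommGroup C]
    (hC : ∀ c : C, c ^ p ^ n = 1) :
    Nat.card (Gp (a * b) →* C) = Nat.card (Gp a →* C) * Nat.card (Gp b →* C) := by
  classical
  rw [← Nat.card_prod]
  symm
  refine Nat.card_eq_of_bijective (fun q : (Gp a →* C) × (Gp b →* C) =>
    (q.1.comp (res (Dvd.intro b rfl))) * (q.2.comp (res (Dvd.intro_left a rfl)))) ⟨?_, ?_⟩
  · rintro ⟨φ, ψ⟩ ⟨φ', ψ'⟩ h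
    have h' : ∀ g : Gp (a * b), φ (res (Dvd.intro b rfl) g) * ψ (res (Dvd.intro_left a rfl) g) =
        φ' (res (Dvd.intro b rfl) g) * ψ' (res (Dvd.intro_left a rfl) g) :=
      fun g => DFunLike.congr_fun h g
    refine Prod.ext (MonoidHom.ext fun x => ?_) (MonoidHom.ext fun y => ?_)
    · obtain ⟨g, h1, h2⟩ := Gp_surjective_pair hab x 1
      have h3 := h' g
      rw [h1, h2, map_one, map_one, mul_one, mul_one] at h3
      exact h3
    · obtain ⟨g, h1, h2⟩ := Gp_surjective_pair hab 1 y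
      have h3 := h' g
      rw [h1, h2, map_one, map_one, one_mul, one_mul] at h3
      exact h3
  · intro θ
    let e : Gm (a * b) ≃* Gm a × Gm b := MulEquiv.ofBijective (crtHom (m := a * b) rfl)
      (crt_bijective rfl hab)
    obtain ⟨φ, hφ⟩ := exists_hom_Gp' hp2 hC ((θ.comp (toGp (a * b))).comp
      (e.symm.toMonoidHom.comp (MonoidHom.inl (Gm a) (Gm b))))
    obtain ⟨ψ, hψ⟩ := exists_hom_Gp' hp2 hC ((θ.comp (toGp (a * b))).comp
      (e.symm.toMonoidHom.comp (MonoidHom.inr (Gm a) (Gm b))))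
    refine ⟨(φ, ψ), MonoidHom.ext fun x => ?_⟩
    obtain ⟨z, rfl⟩ := toGp_surjective _ x
    show φ (toGp a (ZMod.unitsMap (Dvd.intro b rfl) z)) *
      ψ (toGp b (ZMod.unitsMap (Dvd.intro_left a rfl) z)) = θ (toGp (a * b) z)
    rw [hφ, hψ]
    show θ (toGp (a * b) (e.symm (ZMod.unitsMap (Dvd.intro b rfl) z, 1))) *
      θ (toGp (a * b) (e.symm (1, ZMod.unitsMap (Dvd.intro_left a rfl) z))) = _
    rw [← map_mul, ← map_mul, ← map_mul, Prod.mk_mul_mk, one_mul, mul_one]
    have h1 : e z = (ZMod.unitsMap (Dvd.intro b rfl) z, ZMod.unitsMap (Dvd.intro_left a rfl) z) :=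
      rfl
    rw [← h1, MulEquiv.symm_apply_apply]

omit hp in
theorem card_hom_one {C : Type*} [CommGroup C] : Nat.card (Gp 1 →* C) = 1 := by
  have h1 : ∀ x : Gp 1, x = 1 := by
    intro x
    obtain ⟨z, rfl⟩ := toGp_surjective 1 x
    rw [Subsingleton.elim z 1, map_one]
  rw [Nat.card_eq_one_iff_unique]
  refine ⟨⟨fun φ ψ => MonoidHom.ext fun x => ?_⟩, ⟨1⟩⟩
  rw [h1 x, map_one, map_one]

/-- **the number of all homomorphisms** -/
theorem card_hom_prod (hp2 : p ≠ 2) {n : ℕ} {C : Type*} [CommGroup C]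
    (hC : ∀ c : C, c ^ p ^ n = 1) {t : ℕ} (hsq : Squarefree t) :
    Nat.card (Gp t →* C) = ∏ l ∈ t.primeFactors, Nat.card (Gp l →* C) := by
  classical
  induction t using Nat.strong_induction_on with
  | _ t ih =>
    rcases eq_or_ne t 1 with rfl | ht1
    · rw [card_hom_one, Nat.primeFactors_one, Finset.prod_empty]
    · obtain ⟨q, hq, d, rfl⟩ := Nat.exists_prime_and_dvd ht1
      have h1 := Nat.squarefree_mul_iff.mp hsq
      have hd0 : d ≠ 0 := h1.2.2.ne_zero
      have hlt : d < q * d := by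
        have := hq.one_lt
        have := Nat.pos_of_ne_zero hd0
        nlinarith
      rw [card_hom_mul hp2 h1.1 hC, ih d hlt h1.2.2, h1.1.primeFactors_mul,
        Finset.prod_union h1.1.disjoint_primeFactors, hq.primeFactors, Finset.prod_singleton]

omit hp in
/-- homomorphisms to a subgroup -/
theorem card_hom_sub_le {m : ℕ} (hm : m ≠ 0) {C : Type*} [CommGroup C] [Finite C]
    (K : Subgroup C) : Nat.card (Gp m →* K) ≤ Nat.card (Gp m →* C) := by
  have := finite_hom hm C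
  refine Nat.card_le_card_of_injective (fun φ => K.subtype.comp φ) fun φ ψ h => ?_
  refine MonoidHom.ext fun x => Subtype.ext ?_
  exact DFunLike.congr_fun h x

/-- primes of the level of the exponent -/
theorem card_hom_level (hp2 : p ≠ 2) {n : ℕ} {C : Type*} [CommGroup C] [Finite C]
    (hC : ∀ c : C, c ^ p ^ n = 1) {l : ℕ} (hl : l.Prime) (hd : p ^ n ∣ l - 1) :
    Nat.card (Gp l →* C) = Nat.card C := by
  rw [card_hom hp2 hl.squarefree (fun q hq => ?_) hC, hl.primeFactors, Finset.card_singleton,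
    pow_one]
  rw [hl.primeFactors, Finset.mem_singleton] at hq
  rwa [hq]

omit hp in
/-- the number of the homomorphisms is bounded -/
theorem card_hom_le {C : Type*} [CommGroup C] [Finite C] {l : ℕ} (hl : l.Prime) :
    Nat.card (Gp l →* C) ≤ Nat.card C := by
  have : Fact (Nat.Prime 2) := ⟨Nat.prime_two⟩
  obtain ⟨c, -, hc, -⟩ := exists_gen (p := 2) hl
  refine Nat.card_le_card_of_injective (fun φ : Gp l →* C => φ (toGp l c)) fun φ ψ h => ?_
  refine MonoidHom.ext fun x => ?_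
  obtain ⟨z, rfl⟩ := toGp_surjective l x
  obtain ⟨k, rfl⟩ := hc z
  have h' : φ (toGp l c) = ψ (toGp l c) := h
  rw [map_pow, map_pow, map_pow, h']

omit hp in
theorem one_le_card_hom {C : Type*} [CommGroup C] [Finite C] {m : ℕ} (hm : m ≠ 0) :
    1 ≤ Nat.card (Gp m →* C) := by
  have := finite_hom hm C
  exact Nat.card_pos

omit hp in
/-- homomorphisms which are not surjective -/
theorem card_ns_le {t : ℕ} (ht : t ≠ 0) {C : Type*} [CommGroup C] [Finite C]
    [Fintype {K : Subgroup C // K ≠ ⊤}] :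
    Nat.card {ψ : Gp t →* C // ¬ Function.Surjective ψ} ≤
      ∑ K : {K : Subgroup C // K ≠ ⊤}, Nat.card (Gp t →* K.1) := by
  have hV : ∀ K : {K : Subgroup C // K ≠ ⊤}, Finite (Gp t →* K.1) := fun K => finite_hom ht _
  rw [← Nat.card_sigma (β := fun K : {K : Subgroup C // K ≠ ⊤} => (Gp t →* K.1))]
  refine Nat.card_le_card_of_injective (fun ψ => ⟨⟨ψ.1.range, fun h =>
    ψ.2 (MonoidHom.range_eq_top.mp h)⟩, ψ.1.rangeRestrict⟩) ?_
  intro ψ ψ' h
  have key : ∀ (a b : Σ K : {K : Subgroup C // K ≠ ⊤}, (Gp t →* K.1)), a = b →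
      a.1.1.subtype.comp a.2 = b.1.1.subtype.comp b.2 := by
    rintro a _ rfl
    rfl
  exact Subtype.ext (key _ _ h)

/-- the index of a proper subgroup -/
theorem card_sub_le {n : ℕ} {C : Type*} [CommGroup C] [Finite C]
    (hC : ∀ c : C, c ^ p ^ n = 1) {K : Subgroup C} (hK : K ≠ ⊤) :
    p * Nat.card K ≤ Nat.card C := by
  have hpg : IsPGroup p C := fun c => ⟨n, hC c⟩
  obtain ⟨k, hk⟩ := IsPGroup.iff_card.mp hpg
  have h1 : K.index ∣ p ^ k := by
    rw [← hk]
    exact K.index_dvd_card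
  obtain ⟨j, -, hj⟩ := (Nat.dvd_prime_pow hp.out).mp h1
  have h2 : K.index ≠ 1 := fun h => hK (Subgroup.index_eq_one.mp h)
  have h3 : p ≤ K.index := by
    rw [hj] at h2 ⊢
    rcases Nat.eq_zero_or_pos j with rfl | hj0
    · exact absurd (pow_zero p) h2
    · exact Nat.le_self_pow hj0.ne' p
  calc p * Nat.card K ≤ K.index * Nat.card K := Nat.mul_le_mul_right _ h3
    _ = Nat.card C := by rw [mul_comm, K.card_mul_index]

omit hp in
/-- the number of the proper subgroups -/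
theorem card_proper {C : Type*} [CommGroup C] [Finite C] [Fintype {K : Subgroup C // K ≠ ⊤}] :
    Fintype.card {K : Subgroup C // K ≠ ⊤} ≤ 2 ^ Nat.card C := by
  have : Fintype C := Fintype.ofFinite C
  have h1 : Nat.card (Set C) = 2 ^ Nat.card C := by
    rw [Nat.card_eq_fintype_card (α := Set C), Fintype.card_set, Nat.card_eq_fintype_card (α := C)]
  rw [← h1, ← Nat.card_eq_fintype_card]
  exact Nat.card_le_card_of_injective (fun K => (K.1 : Set C)) fun K K' h =>
    Subtype.ext (SetLike.coe_injective h)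

end MTate
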