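import Mathlib
import Pool.Agent.Lib.MP_5deabe_nt_DN.Fin

/-!
# Weighted sums over the fields of conductor dividing `t`
-/

namespace MTate

open MonoidAlgebra

variable {p : ℕ} [hp : Fact p.Prime] {D : MTData}

section
variable {C : Type} [CommGroup C] [Finite C]

/-- the upper bound for the sum over all fields -/
theorem wt_all_le (hp2 : p ≠ 2) [Nontrivial C] {n : ℕ} (hC : ∀ c : C, c ^ p ^ n = 1) {t : ℕ}
    (hsq : Squarefree t) (ht : ∀ l ∈ t.primeFactors, p ^ n ∣ l - 1) {w : ℕ → ℝ}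
    (hw : ∀ l, 0 ≤ w l) (hw' : ∀ l, w l ≤ 1) (P : ∀ m, (Gp m →* C) → Prop) :
    1 + ∑ m ∈ t.divisors, (NF C P m : ℝ) * wt w m ≤
      ∏ l ∈ t.primeFactors, (1 - w l + w l * Nat.card C) := by
  classical
  rw [mix_sum hsq, ← mix_prod hsq]
  have h1 : ∀ t' ∈ t.divisors, mixc w t t' * ∑ m ∈ t'.divisors, (NF C P m : ℝ) ≤
      mixc w t t' * (Nat.card C : ℝ) ^ t'.primeFactors.card - mixc w t t' := by
    intro t' ht'
    have hd := Nat.dvd_of_mem_divisors ht'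
    have hsq' := hsq.squarefree_of_dvd hd
    have hV := finite_hom hsq'.ne_zero C
    have h2 : ∑ m ∈ t'.divisors, NF C P m ≤
        Nat.card {ψ : Gp t' →* C // Function.Surjective ψ} :=
      sum_NF_le hsq' fun m hm ψ hψ _ => hψ.1.comp (res_surjective hsq'.ne_zero hm)
    have h3 : 1 ≤ Nat.card {ψ : Gp t' →* C // ¬ Function.Surjective ψ} := by
      refine Nat.card_pos_iff.mpr ⟨⟨⟨1, ?_⟩⟩, inferInstance⟩
      intro hs
      obtain ⟨y, hy⟩ := exists_ne (1 : C)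
      obtain ⟨x, hx⟩ := hs y
      exact hy (hx.symm.trans rfl)
    have h4 := card_surj_add (C := C) hsq'.ne_zero
    rw [card_hom hp2 hsq' (fun l hl => ht l (Nat.primeFactors_mono hd hsq.ne_zero hl)) hC] at h4
    have h5 : (∑ m ∈ t'.divisors, (NF C P m : ℝ)) ≤
        (Nat.card C : ℝ) ^ t'.primeFactors.card - 1 := by
      have h6 : ∑ m ∈ t'.divisors, NF C P m + 1 ≤ Nat.card C ^ t'.primeFactors.card := by omega
      have h7 : ((∑ m ∈ t'.divisors, NF C P m + 1 : ℕ) : ℝ) ≤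
          ((Nat.card C ^ t'.primeFactors.card : ℕ) : ℝ) := by exact_mod_cast h6
      push_cast at h7
      linarith
    have h6 := mul_le_mul_of_nonneg_left h5 (mixc_nonneg hw hw' t t')
    linarith
  have h2 := Finset.sum_le_sum h1
  rw [Finset.sum_sub_distrib, mix_one hsq] at h2
  linarith

end

namespace MTData

/-- weighted version of `count_A1` -/
theorem wt_A1 (hD : D.Valid p) (hr1 : 1 ≤ D.r) (hr : D.r < p) {t : ℕ} (hM : D.Adm p t)
    (hI : D.Integral p t) (hP : D.Pairing p t) (ht : ∀ l ∈ t.primeFactors, p ^ 1 ∣ l - 1)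
    (hQ : ∀ (G : Type) [CommGroup G] (f : Gp 1 →* G), IsField 1 f → D.Q1 p 1 f) {j : ℕ}
    (hj1 : 1 ≤ j) (hjr : j ≤ D.r) (hj : j = 1 ∨ ∀ d, d ∣ t → ∀ f : Gp d →* Cpn p 1, IsField d f →
      ∃ θ, D.IsTheta p d f θ ∧ θ ∈ augI ℤ_[p] (Cpn p 1) ^ j) {w : ℕ → ℝ}
    (hw : ∀ l, 0 ≤ w l) (hw' : ∀ l, w l ≤ 1) :
    ((p : ℝ) - 1) * ∏ l ∈ t.primeFactors, (1 - w l + w l * p) ≤
      ((p : ℝ) ^ (∑ k ∈ Finset.Icc j D.r, k + 1) - 1) *
        (1 + ∑ m ∈ t.divisors, (NF (Cpn p 1) (fun m ψ => D.Q1 p m ψ) m : ℝ) * wt w m) := by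
  classical
  have hsq := hM.1
  have hp1 : (1 : ℝ) < p := by exact_mod_cast hp.out.one_lt
  rw [mix_sum hsq, ← mix_prod hsq]
  set c : ℝ := (p : ℝ) ^ (∑ k ∈ Finset.Icc j D.r, k + 1) - 1 with hc
  have hc0 : 0 ≤ c := by
    rw [hc, sub_nonneg]
    exact one_le_pow₀ hp1.le
  have h1 : ∀ t' ∈ t.divisors, ((p : ℝ) - 1) * (mixc w t t' * (p : ℝ) ^ t'.primeFactors.card) ≤
      c * (mixc w t t' * ∑ m ∈ t'.divisors, (NF (Cpn p 1) (fun m ψ => D.Q1 p m ψ) m : ℝ) +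
        mixc w t t') := by
    intro t' ht'
    have hd := Nat.dvd_of_mem_divisors ht'
    have hM' := hM.of_dvd hd
    have hsq' := hsq.squarefree_of_dvd hd
    have hI' : D.Integral p t' := fun m hm => hI m (hm.trans hd)
    have hP' : D.Pairing p t' := by
      refine ⟨?_, fun m hm => hP.pow m (hm.trans hd)⟩
      obtain ⟨n, hn, hn'⟩ := hP.ext
      exact ⟨n, hn, fun j => (hn' j).of_dvd hd⟩
    have h2 := count_A1 hD hr1 hr hM' hI' hP'
      (fun l hl => ht l (Nat.primeFactors_mono hd hsq.ne_zero hl)) hQ hj1 hjr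
      (hj.imp_right fun h d hd' => h d (hd'.trans hd))
    have h3 : Nat.card {ψ : Gp t' →* Cpn p 1 // Function.Surjective ψ ∧ D.Q1At p t' ψ} ≤
        ∑ m ∈ t'.divisors, NF (Cpn p 1) (fun m ψ => D.Q1 p m ψ) m := by
      have hfC := Cpn_finite (p := p) 1
      refine le_sum_NF hsq' fun ψ hψ => ?_
      obtain ⟨-, d, hd', f, hf, hff, hQ⟩ := hψ
      exact ⟨d, hd', f, hf, hQ, hff⟩
    have h4 : (p - 1) * p ^ t'.primeFactors.card ≤ (p ^ (∑ k ∈ Finset.Icc j D.r, k + 1) - 1) *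
        (∑ m ∈ t'.divisors, NF (Cpn p 1) (fun m ψ => D.Q1 p m ψ) m + 1) :=
      h2.trans (Nat.mul_le_mul_left _ (Nat.succ_le_succ h3))
    have h5 : ((p : ℝ) - 1) * (p : ℝ) ^ t'.primeFactors.card ≤ c *
        ((∑ m ∈ t'.divisors, (NF (Cpn p 1) (fun m ψ => D.Q1 p m ψ) m : ℝ)) + 1) := by
      have h6 : (((p - 1) * p ^ t'.primeFactors.card : ℕ) : ℝ) ≤
          (((p ^ (∑ k ∈ Finset.Icc j D.r, k + 1) - 1) *
        (∑ m ∈ t'.divisors, NF (Cpn p 1) (fun m ψ => D.Q1 p m ψ) m + 1) : ℕ) : ℝ) := by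
        exact_mod_cast h4
      have h7 : 1 ≤ p ^ (∑ k ∈ Finset.Icc j D.r, k + 1) := Nat.one_le_pow _ _ hp.out.pos
      rw [Nat.cast_mul, Nat.cast_mul, Nat.cast_sub hp.out.one_lt.le, Nat.cast_sub h7] at h6
      push_cast at h6
      exact h6
    have h6 := mul_le_mul_of_nonneg_left h5 (mixc_nonneg hw hw' t t')
    calc _ = mixc w t t' * (((p : ℝ) - 1) * (p : ℝ) ^ t'.primeFactors.card) := by ring
      _ ≤ _ := h6
      _ = _ := by ring
  have h2 := Finset.sum_le_sum h1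
  rw [← Finset.mul_sum, ← Finset.mul_sum, Finset.sum_add_distrib, mix_one hsq] at h2
  calc _ ≤ _ := h2
    _ = _ := by ring

/-- weighted version of `count_B` -/
theorem wt_B (hD : D.Valid p) (hr1 : 1 ≤ D.r) (hr : D.r < p) {t : ℕ}
    (hM : D.Adm p t) (hI : D.Integral p t) (hP : D.Pairing p t) {n : ℕ} (hn : 1 ≤ n)
    (ht : ∀ l ∈ t.primeFactors, p ^ n ∣ l - 1) {G : Type} [CommGroup G] {m₁ : ℕ} (hm : m₁ ∣ t)
    (hm1 : m₁ ≠ 1) {f : Gp m₁ →* G} (hf : IsField m₁ f)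
    (hG : ∃ k, p.Coprime k ∧ ∀ g : G, g ^ (p ^ n * k) = 1)
    (hQ : ¬ D.Q1 p m₁ f) {w : ℕ → ℝ} (hw : ∀ l, 0 ≤ w l) (hw' : ∀ l, w l ≤ 1) :
    ((p : ℝ) - D.r) * (p - 1) * (wt w m₁ * ∏ l ∈ t.primeFactors, (1 - w l + w l * (p : ℝ) ^ n)) ≤
      (p : ℝ) ^ 2 *
        ∑ m ∈ t.divisors, (NF (Cpn p n) (fun m ψ => ¬ D.Q1 p m ψ) m : ℝ) * wt w m := by
  classical
  have hsq := hM.1
  have hp1 : (1 : ℝ) < p := by exact_mod_cast hp.out.one_lt
  have hrp : (D.r : ℝ) < p := by exact_mod_cast hr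
  have hpn : (1 : ℝ) ≤ (p : ℝ) ^ n := one_le_pow₀ hp1.le
  have hc0 : 0 ≤ ((p : ℝ) - D.r) * (p - 1) := mul_nonneg (by linarith) (by linarith)
  have h0 : wt w m₁ * ∏ l ∈ t.primeFactors, (1 - w l + w l * (p : ℝ) ^ n) ≤
      (∏ l ∈ m₁.primeFactors, w l * (p : ℝ) ^ n) *
        ∏ l ∈ t.primeFactors \ m₁.primeFactors, (1 - w l + w l * (p : ℝ) ^ n) := by
    have hsub : m₁.primeFactors ⊆ t.primeFactors := Nat.primeFactors_mono hm hsq.ne_zero
    rw [← Finset.prod_sdiff hsub, mul_comm (∏ l ∈ t.primeFactors \ m₁.primeFactors,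
      (1 - w l + w l * (p : ℝ) ^ n)), ← mul_assoc]
    refine mul_le_mul_of_nonneg_right ?_ (Finset.prod_nonneg fun l _ => ?_)
    · unfold wt
      rw [← Finset.prod_mul_distrib]
      refine Finset.prod_le_prod (fun l _ => ?_) fun l _ => ?_
      · have h1 := hw l
        have h2 := hw' l
        exact mul_nonneg h1 (by nlinarith)
      · have h1 := hw l
        have h2 := hw' l
        refine mul_le_mul_of_nonneg_left ?_ h1
        nlinarith
    · have h1 := hw l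
      have h2 := hw' l
      nlinarith
  refine (mul_le_mul_of_nonneg_left h0 hc0).trans ?_
  rw [← mix_mul hsq hm, mix_sum hsq, Finset.mul_sum, Finset.mul_sum, Finset.sum_filter]
  refine Finset.sum_le_sum fun t' ht' => ?_
  have hd := Nat.dvd_of_mem_divisors ht'
  have hM' := hM.of_dvd hd
  have hsq' := hsq.squarefree_of_dvd hd
  have hmix := mixc_nonneg hw hw' t t'
  by_cases hmt : m₁ ∣ t'
  · rw [if_pos hmt]
    have hI' : D.Integral p t' := fun m hm => hI m (hm.trans hd)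
    have hP' : D.Pairing p t' := by
      refine ⟨?_, fun m hm => hP.pow m (hm.trans hd)⟩
      obtain ⟨n, hn, hn'⟩ := hP.ext
      exact ⟨n, hn, fun j => (hn' j).of_dvd hd⟩
    have ht1 : t' ≠ 1 := by
      rintro rfl
      exact hm1 (Nat.dvd_one.mp hmt)
    have h2 := count_B hD hr1 hr ht1 hM' hI' hP' hn
      (fun l hl => ht l (Nat.primeFactors_mono hd hsq.ne_zero hl)) hmt hf hG hQ
    have h3 : Nat.card {ψ : Gp t' →* Cpn p n // Function.Surjective ψ ∧ ¬ D.Q1At p t' ψ} ≤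
        ∑ m ∈ t'.divisors, NF (Cpn p n) (fun m ψ => ¬ D.Q1 p m ψ) m := by
      have hfC := Cpn_finite (p := p) n
      refine le_sum_NF hsq' fun ψ hψ => ?_
      obtain ⟨d, hd', f', hf', rfl⟩ := exists_field hsq'.ne_zero hψ.1
      exact ⟨d, hd', f', hf', fun h => hψ.2 (h.q1At hd' hf'), rfl⟩
    have h4 := h2.trans (Nat.mul_le_mul_left _ h3)
    have h5 : ((p : ℝ) - D.r) * (p - 1) * ((p : ℝ) ^ n) ^ t'.primeFactors.card ≤ (p : ℝ) ^ 2 *
        ∑ m ∈ t'.divisors, (NF (Cpn p n) (fun m ψ => ¬ D.Q1 p m ψ) m : ℝ) := by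
      have h6 : (((p - D.r) * (p - 1) * (p ^ n) ^ t'.primeFactors.card : ℕ) : ℝ) ≤
          ((p ^ 2 * ∑ m ∈ t'.divisors, NF (Cpn p n) (fun m ψ => ¬ D.Q1 p m ψ) m : ℕ) : ℝ) := by
        exact_mod_cast h4
      rw [Nat.cast_mul, Nat.cast_mul, Nat.cast_sub hp.out.one_lt.le, Nat.cast_sub hr.le] at h6
      push_cast at h6
      exact h6
    have h6 := mul_le_mul_of_nonneg_left h5 hmix
    calc _ = mixc w t t' * (((p : ℝ) - D.r) * (p - 1) *
          ((p : ℝ) ^ n) ^ t'.primeFactors.card) := by ring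
      _ ≤ _ := h6
      _ = _ := by ring
  · rw [if_neg hmt]
    exact mul_nonneg (by positivity) (mul_nonneg hmix (Finset.sum_nonneg fun m _ =>
      Nat.cast_nonneg _))

end MTData

end MTate
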