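import Mathlib
import Pool.Agent.Lib.MP_5deabe_nt_DN.Wt

/-!
# Weighted sums over the fields of conductor dividing `t`: general groups
-/

namespace MTate

open MonoidAlgebra

variable {p : ℕ} [hp : Fact p.Prime] {D : MTData}

theorem exp_bound {B c q : ℕ} (hc : c ≤ B) (hq : 4 ≤ q) {S : ℝ} (hS : 2 * (B : ℝ) + 1 ≤ S) :
    (2 : ℝ) ^ c * Real.exp (-((1 - 1 / (q : ℝ)) * S)) ≤ 1 / 2 ^ (B + 1) := by
  have hq' : (4 : ℝ) ≤ q := by exact_mod_cast hq
  have hc' : (c : ℝ) ≤ B := by exact_mod_cast hc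
  have h1 : (3 : ℝ) / 4 ≤ 1 - 1 / (q : ℝ) := by
    have h2 : 1 / (q : ℝ) ≤ 1 / 4 := one_div_le_one_div_of_le (by norm_num) hq'
    linarith
  have h2 : Real.log 2 < 3 / 4 := lt_of_lt_of_le Real.log_two_lt_d9 (by norm_num)
  have h0 : 0 < Real.log 2 := Real.log_pos (by norm_num)
  have hB : (0 : ℝ) ≤ B := Nat.cast_nonneg B
  have h3 : ((c : ℝ) + (B + 1)) * Real.log 2 ≤ (1 - 1 / (q : ℝ)) * S := by
    have h4 : ((c : ℝ) + (B + 1)) * Real.log 2 ≤ (2 * B + 1) * (3 / 4) := by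
      have h5 : ((c : ℝ) + (B + 1)) * Real.log 2 ≤ (2 * B + 1) * Real.log 2 :=
        mul_le_mul_of_nonneg_right (by linarith) h0.le
      have h6 : (2 * (B : ℝ) + 1) * Real.log 2 ≤ (2 * B + 1) * (3 / 4) :=
        mul_le_mul_of_nonneg_left h2.le (by linarith)
      exact h5.trans h6
    have h5 : (2 * (B : ℝ) + 1) * (3 / 4) ≤ S * (1 - 1 / (q : ℝ)) :=
      mul_le_mul hS h1 (by norm_num) (by linarith)
    linarith
  have h4 : Real.exp (-((1 - 1 / (q : ℝ)) * S)) ≤ ((2 : ℝ) ^ (c + (B + 1)))⁻¹ := by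
    rw [← Real.exp_log (show (0 : ℝ) < ((2 : ℝ) ^ (c + (B + 1)))⁻¹ by positivity)]
    rw [Real.exp_le_exp, Real.log_inv, Real.log_pow]
    push_cast
    linarith
  refine (mul_le_mul_of_nonneg_left h4 (by positivity)).trans (le_of_eq ?_)
  rw [pow_add]
  field_simp

namespace MTData

/-- the estimate which is used in `positive_proportion` -/
theorem count_A (hD : D.Valid p) (hr : 1 ≤ D.r) {m t : ℕ}
    (hM : D.Adm p (m * t)) (hI : D.Integral p (m * t)) (hP : D.Pairing p (m * t))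
    {G : Type} [CommGroup G] {f : Gp m →* G} (hf : IsField m f) (hQ : D.Q1 p m f)
    {C : Type} [CommGroup C] [Finite C] {n : ℕ} (hC : ∀ c : C, c ^ p ^ n = 1) {B : ℕ}
    (hB : B = D.r * Nat.card G * Nat.card C ^ 2 * p ^ (n * D.r)) :
    Nat.card (Gp t →* C) ≤ 2 ^ B * (Nat.card {ψ : Gp t →* C // Function.Surjective ψ ∧
        D.Q1At p (m * t) ((f.comp (res (Dvd.intro t rfl))).prod
          (ψ.comp (res (Dvd.intro_left m rfl))))} +
      Nat.card {ψ : Gp t →* C // ¬ Function.Surjective ψ}) := by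
  classical
  have hsq := Nat.squarefree_mul_iff.mp hM.1
  have hm0 : m ≠ 0 := hsq.2.1.ne_zero
  have ht0 : t ≠ 0 := hsq.2.2.ne_zero
  have hfG : Finite G := by
    have := finite_Gp hm0
    exact Finite.of_surjective f hf.1
  have hV := finite_hom ht0 C
  obtain ⟨x, hx⟩ := exists_defect hD hM hI hP
  set π : Gp (m * t) →* G := f.comp (res (Dvd.intro t rfl)) with hπ
  set ρ : Gp (m * t) →* Gp t := res (Dvd.intro_left m rfl) with hρ
  have hπs : Function.Surjective π :=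
    hf.1.comp (res_surjective (mul_ne_zero hm0 ht0) _)
  have hx0 : push π x ∈ augI ℤ_[p] G ^ (D.r + 1) :=
    (hx G π hπs).mp ⟨m, Dvd.intro t rfl, f, hf, rfl, hQ⟩
  have h1 := card_le_of_cube (V := Gp t →* C)
    (fun ψ => push (π.prod (ψ.comp ρ)) x ∈ augI ℤ_[p] (G × C) ^ (D.r + 1)) B (by
    intro v
    obtain ⟨y, hy, hy'⟩ := cube_push hC π (fun i => (v i).comp ρ) hr hx0 (by
      rw [Fintype.card_fin, Nat.card_prod, Nat.card_prod, hB]
      apply le_of_eq
      ring)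
    refine ⟨y, hy, ?_⟩
    have h2 : (∏ i ∈ y, v i).comp ρ = ∏ i ∈ y, (v i).comp ρ := by
      ext g
      rw [MonoidHom.comp_apply, MonoidHom.finsetProd_apply, MonoidHom.finsetProd_apply]
      rfl
    show push (π.prod ((∏ i ∈ y, v i).comp ρ)) x ∈ _
    rw [h2]
    exact hy')
  have h4 : Nat.card {ψ : Gp t →* C //
      push (π.prod (ψ.comp ρ)) x ∈ augI ℤ_[p] (G × C) ^ (D.r + 1)} ≤
      Nat.card {ψ : Gp t →* C // Function.Surjective ψ ∧
        D.Q1At p (m * t) (π.prod (ψ.comp ρ))} +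
      Nat.card {ψ : Gp t →* C // ¬ Function.Surjective ψ} := by
    rw [← Nat.card_sum]
    refine Nat.card_le_card_of_injective (fun ψ => if h : Function.Surjective ψ.1 then
      Sum.inl ⟨ψ.1, h, (hx _ _ ?_).mpr ψ.2⟩ else Sum.inr ⟨ψ.1, h⟩) ?_
    · rintro ⟨a, b⟩
      obtain ⟨a', ha'⟩ := hf.1 a
      obtain ⟨b', hb'⟩ := h b
      obtain ⟨g, hg1, hg2⟩ := Gp_surjective_pair hsq.1 a' b'
      refine ⟨g, Prod.ext ?_ ?_⟩
      · show f (res _ g) = a
        rw [hg1, ha']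
      · show ψ.1 (res _ g) = b
        rw [hg2, hb']
    · intro ψ ψ' h
      by_cases h1 : Function.Surjective ψ.1 <;> by_cases h2 : Function.Surjective ψ'.1
      · simp only [h1, h2, dif_pos] at h
        exact Subtype.ext (congrArg (fun z => (z : _).1) (Sum.inl.inj h))
      · simp [h1, h2] at h
      · simp [h1, h2] at h
      · simp only [h1, h2, dif_neg, not_false_iff] at h
        exact Subtype.ext (congrArg (fun z => (z : _).1) (Sum.inr.inj h))
  exact (h1.trans (Nat.mul_le_mul_left _ h4)).trans (Nat.mul_le_mul_right _ (Nat.sub_le _ _))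

/-- **the compositum of `F₀` and `F_ψ`** -/
theorem Q1At.down_prod {m t' t : ℕ} (hd : t' ∣ t) (hsq : Squarefree (m * t))
    {G : Type} [CommGroup G] {f : Gp m →* G} (hf : Function.Surjective f)
    {C : Type} [CommGroup C] {ψ : Gp t' →* C} (hψ : Function.Surjective ψ)
    (h : D.Q1At p (m * t) ((f.comp (res (Dvd.intro t rfl))).prod
      ((ψ.comp (res hd)).comp (res (Dvd.intro_left m rfl))))) :
    D.Q1At p (m * t') ((f.comp (res (Dvd.intro t' rfl))).prod
      (ψ.comp (res (Dvd.intro_left m rfl)))) := by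
  have hd' : m * t' ∣ m * t := Nat.mul_dvd_mul_left m hd
  have hc : m.Coprime t' :=
    (Nat.squarefree_mul_iff.mp hsq).1.coprime_dvd_right hd
  have h1 : (f.comp (res (Dvd.intro t rfl))).prod
      ((ψ.comp (res hd)).comp (res (Dvd.intro_left m rfl))) =
      ((f.comp (res (Dvd.intro t' rfl))).prod (ψ.comp (res (Dvd.intro_left m rfl)))).comp
        (res hd') := by
    refine MonoidHom.ext fun x => Prod.ext ?_ ?_
    · show f (res _ x) = f (res _ (res _ x))
      rw [res_res]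
    · show ψ (res _ (res _ x)) = ψ (res _ (res _ x))
      rw [res_res, res_res]
  rw [h1] at h
  refine h.down hsq hd' ?_
  rintro ⟨a, b⟩
  obtain ⟨a', ha'⟩ := hf a
  obtain ⟨b', hb'⟩ := hψ b
  obtain ⟨g, hg1, hg2⟩ := Gp_surjective_pair hc a' b'
  refine ⟨g, Prod.ext ?_ ?_⟩
  · show f (res _ g) = a
    rw [hg1, ha']
  · show ψ (res _ g) = b
    rw [hg2, hb']

/-- weighted version of `positive_proportion` -/
theorem wt_A (hD : D.Valid p) (hr : 1 ≤ D.r) {m₀ t : ℕ}
    (hM : D.Adm p (m₀ * t)) (hI : D.Integral p (m₀ * t)) (hP : D.Pairing p (m₀ * t))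
    {G : Type} [CommGroup G] {f : Gp m₀ →* G} (hf : IsField m₀ f) (hQ : D.Q1 p m₀ f)
    {C : Type} [CommGroup C] [Finite C] [Nontrivial C] {n : ℕ} (hC : ∀ c : C, c ^ p ^ n = 1)
    (ht : ∀ l ∈ t.primeFactors, p ^ n ∣ l - 1) {B : ℕ}
    (hB : B = D.r * Nat.card G * Nat.card C ^ 2 * p ^ (n * D.r)) {w : ℕ → ℝ}
    (hw : ∀ l, 0 ≤ w l) (hw' : ∀ l, w l ≤ 1) (hS : 2 * (B : ℝ) + 1 ≤ ∑ l ∈ t.primeFactors, w l) :
    ∏ l ∈ t.primeFactors, (1 - w l + w l * Nat.card C) ≤
      2 ^ (B + 1) * ∑ m ∈ t.divisors, (NF C (fun m ψ => D.Q1At p (m₀ * m)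
        ((f.comp (res (Dvd.intro m rfl))).prod (ψ.comp (res (Dvd.intro_left m₀ rfl))))) m : ℝ) *
          wt w m := by
  classical
  have hsqm := Nat.squarefree_mul_iff.mp hM.1
  have hsq := hsqm.2.2
  have hp2 := hD.ne_two
  have hfG : Finite G := by
    have := finite_Gp hsqm.2.1.ne_zero
    exact Finite.of_surjective f hf.1
  have hGpos : 0 < Nat.card G := Nat.card_pos
  have hCpos : 0 < Nat.card C := Nat.card_pos
  have hcB : Nat.card C ≤ B := by
    have h1 : 0 < D.r * Nat.card G * Nat.card C * p ^ (n * D.r) :=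
      Nat.mul_pos (Nat.mul_pos (Nat.mul_pos hr hGpos) hCpos) (Nat.pow_pos hp.out.pos)
    calc Nat.card C = Nat.card C * 1 := (mul_one _).symm
      _ ≤ Nat.card C * (D.r * Nat.card G * Nat.card C * p ^ (n * D.r)) :=
        Nat.mul_le_mul_left _ h1
      _ = B := by rw [hB]; ring
  set c : ℝ := (Nat.card C : ℝ) with hc
  have hc1 : 1 ≤ c := by
    rw [hc]
    exact_mod_cast hCpos
  have hp1 : (1 : ℝ) < p := by exact_mod_cast hp.out.one_lt
  rw [mix_sum hsq]
  set N : ℕ → ℕ := NF C (fun m ψ => D.Q1At p (m₀ * m)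
        ((f.comp (res (Dvd.intro m rfl))).prod (ψ.comp (res (Dvd.intro_left m₀ rfl))))) with hN
  -- the estimate for each divisor
  have h1 : ∀ t' ∈ t.divisors, mixc w t t' * c ^ t'.primeFactors.card ≤
      2 ^ B * (mixc w t t' * ∑ m ∈ t'.divisors, (N m : ℝ)) +
        2 ^ B * (2 ^ Nat.card C * (mixc w t t' * (c / p) ^ t'.primeFactors.card)) := by
    intro t' ht'
    have hd := Nat.dvd_of_mem_divisors ht'
    have hsq' := hsq.squarefree_of_dvd hd
    have hdm : m₀ * t' ∣ m₀ * t := Nat.mul_dvd_mul_left m₀ hd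
    have hI' : D.Integral p (m₀ * t') := fun m hm => hI m (hm.trans hdm)
    have hP' : D.Pairing p (m₀ * t') := by
      refine ⟨?_, fun m hm => hP.pow m (hm.trans hdm)⟩
      obtain ⟨n, hn, hn'⟩ := hP.ext
      exact ⟨n, hn, fun j => (hn' j).of_dvd hdm⟩
    have ht2 : ∀ l ∈ t'.primeFactors, p ^ n ∣ l - 1 :=
      fun l hl => ht l (Nat.primeFactors_mono hd hsq.ne_zero hl)
    have h2 := count_A hD hr (hM.of_dvd hdm) hI' hP' hf hQ hC hB
    have h3 : Nat.card {ψ : Gp t' →* C // Function.Surjective ψ ∧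
        D.Q1At p (m₀ * t') ((f.comp (res (Dvd.intro t' rfl))).prod
          (ψ.comp (res (Dvd.intro_left m₀ rfl))))} ≤ ∑ m ∈ t'.divisors, N m := by
      refine le_sum_NF hsq' fun ψ hψ => ?_
      obtain ⟨hs, hQ'⟩ := hψ
      obtain ⟨d, hd', f', hf', rfl⟩ := exists_field hsq'.ne_zero hs
      exact ⟨d, hd', f', hf', hQ'.down_prod hd' (hM.of_dvd hdm).1 hf.1 hf'.1, rfl⟩
    have h4 := card_not_surjective hp2 hsq' ht2 hC
    rw [card_hom hp2 hsq' ht2 hC] at h2 h4
    set NS := Nat.card {ψ : Gp t' →* C // ¬ Function.Surjective ψ} with hNS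
    have h5 : c ^ t'.primeFactors.card ≤
        2 ^ B * ((∑ m ∈ t'.divisors, (N m : ℝ)) + NS) := by
      have h6 := h2.trans (Nat.mul_le_mul_left _ (Nat.add_le_add_right h3 NS))
      have h7 : ((Nat.card C ^ t'.primeFactors.card : ℕ) : ℝ) ≤
          ((2 ^ B * (∑ m ∈ t'.divisors, N m + NS) : ℕ) : ℝ) := by exact_mod_cast h6
      push_cast at h7
      exact h7
    have h6 : (NS : ℝ) ≤ 2 ^ Nat.card C * (c / p) ^ t'.primeFactors.card := by
      have h7 : ((NS * p ^ t'.primeFactors.card : ℕ) : ℝ) ≤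
          ((Nat.card C ^ t'.primeFactors.card * 2 ^ Nat.card C : ℕ) : ℝ) := by
        exact_mod_cast h4
      push_cast at h7
      rw [div_pow, ← mul_div_assoc, le_div_iff₀ (by positivity)]
      linarith
    have h7 : c ^ t'.primeFactors.card ≤ 2 ^ B * ((∑ m ∈ t'.divisors, (N m : ℝ)) +
        2 ^ Nat.card C * (c / p) ^ t'.primeFactors.card) :=
      h5.trans (mul_le_mul_of_nonneg_left (by linarith) (by positivity))
    have h8 := mul_le_mul_of_nonneg_left h7 (mixc_nonneg hw hw' t t')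
    calc _ ≤ _ := h8
      _ = _ := by ring
  have h2 := Finset.sum_le_sum h1
  rw [Finset.sum_add_distrib, ← Finset.mul_sum, ← Finset.mul_sum, ← Finset.mul_sum,
    mix_prod hsq, mix_prod hsq] at h2
  set A := ∏ l ∈ t.primeFactors, (1 - w l + w l * c) with hA
  have hA0 : 0 ≤ A := Finset.prod_nonneg fun l _ => by
    have h3 := hw l
    have h4 := hw' l
    nlinarith
  have h3 := prod_le_exp hw hw' (T := t.primeFactors) hc1 hp1.le
  have h4 := exp_bound hcB (four_le hD) hS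
  have h5 : 2 ^ B * (2 ^ Nat.card C * ∏ l ∈ t.primeFactors, (1 - w l + w l * (c / p))) ≤
      A / 2 := by
    have h6 : (2 : ℝ) ^ Nat.card C * ∏ l ∈ t.primeFactors, (1 - w l + w l * (c / p)) ≤
        1 / 2 ^ (B + 1) * A := by
      refine (mul_le_mul_of_nonneg_left h3 (by positivity)).trans ?_
      rw [← mul_assoc]
      exact mul_le_mul_of_nonneg_right h4 hA0
    have h7 := mul_le_mul_of_nonneg_left h6 (show (0 : ℝ) ≤ 2 ^ B by positivity)
    refine h7.trans (le_of_eq ?_)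
    rw [pow_succ]
    field_simp
  have h6 : A ≤ 2 * (2 ^ B * ∑ i ∈ t.divisors, mixc w t i * ∑ m ∈ i.divisors, (N m : ℝ)) := by
    linarith
  calc A ≤ _ := h6
    _ = _ := by ring

end MTData

end MTate
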