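import Mathlib
import Pool.Agent.Lib.MP_5deabe_nt_DN.WtA

/-!
# Sums over all conductors
-/

namespace MTate

open MonoidAlgebra

variable {p : ℕ} [hp : Fact p.Prime] {D : MTData}

/-- properties of a set of conductors -/
structure IsLvl (L : ℕ → Prop) : Prop where
  sq : ∀ t, L t → Squarefree t
  dvd : ∀ t m, L t → m ∣ t → L m
  dir : ∀ F : Finset ℕ, (∀ m ∈ F, L m) → ∃ t, L t ∧ ∀ m ∈ F, m ∣ t

/-- passage to the limit -/
theorem tsum_bound {L : ℕ → Prop} (hL : IsLvl L) {a b : ℕ → ℝ} (ha0 : ∀ m, ¬ L m → a m = 0)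
    (ha : ∀ m, 0 ≤ a m) (hb : ∀ m, 0 ≤ b m) (hbs : Summable b) {K c : ℝ} (hK : 0 ≤ K) {t₀ : ℕ}
    (ht₀ : L t₀) (h : ∀ t, L t → t₀ ∣ t →
      ∑ m ∈ t.divisors, a m ≤ K * ∑ m ∈ t.divisors, b m + c) :
    Summable a ∧ ∑' m, a m ≤ K * ∑' m, b m + c := by
  classical
  have key : ∀ F : Finset ℕ, ∑ m ∈ F, a m ≤ K * ∑' m, b m + c := by
    intro F
    obtain ⟨t, ht, ht'⟩ := hL.dir (insert t₀ (F.filter L)) (by
      intro m hm
      rcases Finset.mem_insert.mp hm with rfl | hm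
      · exact ht₀
      · exact (Finset.mem_filter.mp hm).2)
    have h1 : ∑ m ∈ F, a m ≤ ∑ m ∈ t.divisors, a m := by
      have h2 : ∑ m ∈ F, a m = ∑ m ∈ F.filter L, a m := by
        rw [Finset.sum_filter]
        refine Finset.sum_congr rfl fun m _ => ?_
        by_cases hm : L m
        · rw [if_pos hm]
        · rw [if_neg hm, ha0 m hm]
      rw [h2]
      refine Finset.sum_le_sum_of_subset_of_nonneg ?_ fun m _ _ => ha m
      intro m hm
      exact Nat.mem_divisors.mpr ⟨ht' m (Finset.mem_insert_of_mem hm), (hL.sq t ht).ne_zero⟩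
    refine h1.trans ((h t ht (ht' t₀ (Finset.mem_insert_self _ _))).trans ?_)
    have h3 : ∑ m ∈ t.divisors, b m ≤ ∑' m, b m := hbs.sum_le_tsum _ fun m _ => hb m
    have h4 := mul_le_mul_of_nonneg_left h3 hK
    linarith
  have hs : Summable a := summable_of_sum_le ha key
  exact ⟨hs, hs.tsum_le_of_sum_le key⟩

/-- the weights -/
noncomputable def ws (s : ℝ) (l : ℕ) : ℝ := (l : ℝ) ^ (-s)

theorem ws_nonneg (s : ℝ) (l : ℕ) : 0 ≤ ws s l := Real.rpow_nonneg (Nat.cast_nonneg l) _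

theorem ws_le_one {s : ℝ} (hs : 0 < s) (l : ℕ) : ws s l ≤ 1 := by
  unfold ws
  rcases Nat.eq_zero_or_pos l with rfl | hl
  · rw [Nat.cast_zero, Real.zero_rpow (by linarith)]
    exact zero_le_one
  · exact Real.rpow_le_one_of_one_le_of_nonpos (by exact_mod_cast hl) (by linarith)

theorem wt_ws (s : ℝ) {m : ℕ} (hsq : Squarefree m) : wt (ws s) m = (m : ℝ) ^ (-s) := by
  unfold wt ws
  rw [Real.finsetProd_rpow _ _ fun l _ => Nat.cast_nonneg l, ← Nat.cast_prod,
    Nat.prod_primeFactors_of_squarefree hsq]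

section
variable {C : Type} [CommGroup C] [Finite C]

/-- sums over the divisors of `t` -/
theorem sum_div {L : ℕ → Prop} (hL : IsLvl L) (P : ∀ m, (Gp m →* C) → Prop) (s : ℝ) {t : ℕ}
    (ht : L t) : ∑ m ∈ t.divisors, (NF C (fun m ψ => L m ∧ P m ψ) m : ℝ) * (m : ℝ) ^ (-s) =
      ∑ m ∈ t.divisors, (NF C P m : ℝ) * wt (ws s) m := by
  refine Finset.sum_congr rfl fun m hm => ?_
  have hd := Nat.dvd_of_mem_divisors hm
  have h1 : L m := hL.dvd t m ht hd
  rw [wt_ws s (hL.sq m h1)]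
  congr 2
  unfold NF
  refine Nat.card_congr (Equiv.subtypeEquivRight fun ψ => ?_)
  simp [h1]

theorem NF_zero {L : ℕ → Prop} (P : ∀ m, (Gp m →* C) → Prop) {m : ℕ} (hm : ¬ L m) :
    NF C (fun m ψ => L m ∧ P m ψ) m = 0 := by
  unfold NF
  have : IsEmpty {ψ : Gp m →* C // IsField m ψ ∧ (L m ∧ P m ψ)} :=
    ⟨fun ψ => hm ψ.2.2.1⟩
  exact Nat.card_of_isEmpty

/-- the series converges -/
theorem summable_DS (hp2 : p ≠ 2) [Nontrivial C] {n : ℕ} (hC : ∀ c : C, c ^ p ^ n = 1)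
    {L : ℕ → Prop} (hL : IsLvl L) (h1 : L 1) (hLn : ∀ t, L t → ∀ l ∈ t.primeFactors, p ^ n ∣ l - 1)
    (P : ∀ m, (Gp m →* C) → Prop) {s : ℝ} (hs : 1 < s) :
    Summable fun m : ℕ => (NF C (fun m ψ => L m ∧ P m ψ) m : ℝ) * (m : ℝ) ^ (-s) := by
  have hsum : Summable (ws s) := by
    unfold ws
    exact Real.summable_nat_rpow.mpr (by linarith)
  refine (tsum_bound hL (b := fun _ => 0) (K := 0)
    (c := Real.exp (Nat.card C * ∑' l, ws s l)) (fun m hm => ?_) (fun m => ?_) (fun _ => le_rfl)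
    summable_zero le_rfl h1 fun t ht _ => ?_).1
  · rw [NF_zero P hm, Nat.cast_zero, zero_mul]
  · exact mul_nonneg (Nat.cast_nonneg _) (Real.rpow_nonneg (Nat.cast_nonneg m) _)
  · rw [sum_div hL P s ht, zero_mul, zero_add]
    have h2 := wt_all_le hp2 hC (hL.sq t ht) (hLn t ht) (ws_nonneg s)
      (ws_le_one (by linarith)) P
    have h3 : ∏ l ∈ t.primeFactors, (1 - ws s l + ws s l * Nat.card C) ≤
        Real.exp (∑ l ∈ t.primeFactors, Nat.card C * ws s l) := by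
      rw [Real.exp_sum]
      refine Finset.prod_le_prod (fun l _ => ?_) fun l _ => ?_
      · have e1 := ws_nonneg s l
        have e2 := ws_le_one (s := s) (by linarith) l
        have e3 : 0 ≤ ws s l * Nat.card C := mul_nonneg e1 (Nat.cast_nonneg _)
        linarith
      · have e1 := ws_nonneg s l
        have e2 := Real.add_one_le_exp ((Nat.card C : ℝ) * ws s l)
        linarith
    have h4 : ∑ l ∈ t.primeFactors, (Nat.card C : ℝ) * ws s l ≤ Nat.card C * ∑' l, ws s l := by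
      rw [← Finset.mul_sum]
      exact mul_le_mul_of_nonneg_left (hsum.sum_le_tsum _ fun l _ => ws_nonneg s l)
        (Nat.cast_nonneg _)
    have h5 := Real.exp_le_exp.mpr h4
    linarith

end

namespace MTData

/-- the levels are directed -/
theorem isLvl {n m₀ : ℕ} (h₀ : D.Adm p m₀) : IsLvl (D.Lvl p n m₀) := by
  classical
  have hsub : ∀ t, D.Lvl p n m₀ t → Squarefree t := fun t ht =>
    (Nat.squarefree_mul_iff.mp ht.1.1).2.2
  refine ⟨hsub, fun t m ht hm => ?_, fun F hF => ?_⟩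
  · exact ⟨ht.1.of_dvd (Nat.mul_dvd_mul_left m₀ hm), fun l hl =>
      ht.2 l (Nat.primeFactors_mono hm (hsub t ht).ne_zero hl)⟩
  · set T : Finset ℕ := F.biUnion Nat.primeFactors with hT
    have hTp : ∀ l ∈ T, l.Prime ∧ ∃ m ∈ F, l ∣ m := by
      intro l hl
      obtain ⟨m, hm, hlm⟩ := Finset.mem_biUnion.mp hl
      exact ⟨Nat.prime_of_mem_primeFactors hlm, m, hm, Nat.dvd_of_mem_primeFactors hlm⟩
    have hpf : (∏ l ∈ T, l).primeFactors = T := Nat.primeFactors_prod fun l hl => (hTp l hl).1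
    have hsq : Squarefree (∏ l ∈ T, l) := by
      refine Finset.squarefree_prod_of_pairwise_isCoprime ?_ fun l hl => (hTp l hl).1.squarefree
      intro i hi j hj hij
      exact Nat.coprime_iff_isRelPrime.mp ((Nat.coprime_primes (hTp i hi).1 (hTp j hj).1).mpr hij)
    have hadm : ∀ l ∈ T, D.Adm p (m₀ * l) ∧ p ^ n ∣ l - 1 := by
      intro l hl
      obtain ⟨hlp, m, hm, hlm⟩ := hTp l hl
      have h1 := hF m hm
      exact ⟨h1.1.of_dvd (Nat.mul_dvd_mul_left m₀ hlm), h1.2 l (Nat.mem_primeFactors.mpr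
        ⟨hlp, hlm, (hsub m h1).ne_zero⟩)⟩
    have hc0 : m₀.Coprime (∏ l ∈ T, l) := Nat.Coprime.prod_right fun l hl =>
      (Nat.squarefree_mul_iff.mp (hadm l hl).1.1).1
    refine ⟨∏ l ∈ T, l, ⟨⟨?_, ?_, ?_, ?_⟩, ?_⟩, ?_⟩
    · exact Nat.squarefree_mul_iff.mpr ⟨hc0, h₀.1, hsq⟩
    · exact Nat.Coprime.mul_left h₀.2.1 (Nat.Coprime.prod_left fun l hl =>
        (hadm l hl).1.2.1.coprime_dvd_left (Dvd.intro_left m₀ rfl))
    · exact Nat.Coprime.mul_right h₀.2.2.1 (Nat.Coprime.prod_right fun l hl =>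
        (hadm l hl).1.2.2.1.coprime_dvd_right (Dvd.intro_left m₀ rfl))
    · intro l hl
      rw [Nat.primeFactors_mul h₀.1.ne_zero hsq.ne_zero, Finset.mem_union, hpf] at hl
      rcases hl with hl | hl
      · exact h₀.2.2.2 l hl
      · exact (hadm l hl).1.2.2.2 l (Nat.mem_primeFactors.mpr ⟨(hTp l hl).1,
          Dvd.intro_left m₀ rfl, (hadm l hl).1.1.ne_zero⟩)
    · intro l hl
      rw [hpf] at hl
      exact (hadm l hl).2
    · intro m hm
      have h1 := hsub m (hF m hm)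
      rw [← Nat.prod_primeFactors_of_squarefree h1]
      exact Finset.prod_dvd_prod_of_subset _ _ _ (Finset.subset_biUnion_of_mem _ hm)

theorem lvl_one {n m₀ : ℕ} (h₀ : D.Adm p m₀) : D.Lvl p n m₀ 1 :=
  ⟨by rwa [mul_one], fun l hl => by simp at hl⟩

end MTData

end MTate
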