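import Mathlib
import Pool.Agent.Lib.MP_5deabe_nt.TestSet
import Pool.Agent.Lib.MP_5deabe_nt_DN.Inf

/-!
# The density of the fields for which Q1 holds
-/

namespace MTate

open MonoidAlgebra

variable {p : ℕ} [hp : Fact p.Prime] {D : MTData}

theorem DS_nonneg (L : ℕ → Prop) (C : Type) [CommGroup C] (P : ∀ m, (Gp m →* C) → Prop) (s : ℝ)
    (m : ℕ) : 0 ≤ (NF C (fun m ψ => L m ∧ P m ψ) m : ℝ) * (m : ℝ) ^ (-s) :=
  mul_nonneg (Nat.cast_nonneg _) (Real.rpow_nonneg (Nat.cast_nonneg m) _)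

/-- the trivial field -/
theorem one_isField : IsField 1 (MonoidHom.id (Gp 1)) :=
  ⟨Function.surjective_id, fun _ hd _ => Nat.dvd_one.mp hd⟩

namespace MTData

/-- the lower bound in terms of the divergence of the sum over the primes -/
theorem dens_A (hD : D.Valid p) (hr : 1 ≤ D.r)
    (hI : ∀ m, D.Adm p m → D.Integral p m) (hP : ∀ m, D.Adm p m → D.Pairing p m)
    {m₀ : ℕ} (h₀ : D.Adm p m₀) {G : Type} [CommGroup G] {f : Gp m₀ →* G} (hf : IsField m₀ f)
    {C : Type} [CommGroup C] [Finite C] [Nontrivial C] {n : ℕ} (hC : ∀ c : C, c ^ p ^ n = 1)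
    {B : ℕ} (hB : B = D.r * Nat.card G * Nat.card C ^ 2 * p ^ (n * D.r)) {s : ℝ} (hs : 1 < s)
    (hdiv : 2 * (B : ℝ) + 1 < ∑' l : Nat.Primes, (Set.indicator {l : ℕ | D.Lvl p n m₀ l}
      (fun l => (l : ℝ) ^ (-s)) l)) :
    D.Q1 p m₀ f ↔ 1 + DS (D.Lvl p n m₀) C (fun _ _ => True) s ≤
      2 ^ (B + 1) * DS (D.Lvl p n m₀) C (fun m ψ => D.Q1At p (m₀ * m)
        ((f.comp (res (Dvd.intro m rfl))).prod (ψ.comp (res (Dvd.intro_left m₀ rfl))))) s := by
  classical
  have hL := isLvl (n := n) h₀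
  have hp2 := hD.ne_two
  have hsm := fun P => summable_DS hp2 hC hL (lvl_one h₀) (fun t ht => ht.2) P hs
  constructor
  · intro hQ
    -- a level with a large sum
    obtain ⟨t₀, ht₀, hS⟩ : ∃ t₀, D.Lvl p n m₀ t₀ ∧
        2 * (B : ℝ) + 1 ≤ ∑ l ∈ t₀.primeFactors, ws s l := by
      have hsum : Summable fun l : Nat.Primes => (Set.indicator {l : ℕ | D.Lvl p n m₀ l}
          (fun l => (l : ℝ) ^ (-s)) l) := by
        have h1 : Summable fun l : ℕ => (l : ℝ) ^ (-s) :=
          Real.summable_nat_rpow.mpr (by linarith)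
        exact (h1.indicator _).comp_injective Nat.Primes.coe_nat_injective
      by_contra hcon
      push Not at hcon
      refine absurd hdiv (not_lt.mpr (hsum.tsum_le_of_sum_le fun F => ?_))
      set F' : Finset ℕ := (F.filter fun l : Nat.Primes => D.Lvl p n m₀ l).image
        (fun l : Nat.Primes => (l : ℕ)) with hF'
      obtain ⟨t, ht, ht'⟩ := hL.dir F' (by
        intro l hl
        obtain ⟨l', hl', rfl⟩ := Finset.mem_image.mp hl
        exact (Finset.mem_filter.mp hl').2)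
      have h2 : ∑ l ∈ F, (Set.indicator {l : ℕ | D.Lvl p n m₀ l}
          (fun l => (l : ℝ) ^ (-s)) (l : ℕ)) = ∑ l ∈ F', ws s l := by
        rw [hF', Finset.sum_image (g := fun l : Nat.Primes => (l : ℕ))
          (fun a _ b _ h => Nat.Primes.coe_nat_injective h), Finset.sum_filter]
        refine Finset.sum_congr rfl fun l _ => ?_
        rw [Set.indicator_apply]
        rfl
      rw [h2]
      refine le_trans (Finset.sum_le_sum_of_subset_of_nonneg ?_ fun l _ _ => ws_nonneg s l)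
        (hcon t ht).le
      intro l hl
      obtain ⟨l', hl', rfl⟩ := Finset.mem_image.mp hl
      exact Nat.mem_primeFactors.mpr ⟨l'.2, ht' _ hl, (hL.sq t ht).ne_zero⟩
    have h1 := (tsum_bound hL (a := fun m : ℕ => (NF C (fun m _ => D.Lvl p n m₀ m ∧ True) m : ℝ) *
        (m : ℝ) ^ (-s)) (b := fun m : ℕ => (NF C (fun m ψ => D.Lvl p n m₀ m ∧
          D.Q1At p (m₀ * m) ((f.comp (res (Dvd.intro m rfl))).prod
            (ψ.comp (res (Dvd.intro_left m₀ rfl))))) m : ℝ) * (m : ℝ) ^ (-s))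
      (K := 2 ^ (B + 1)) (c := -1) (fun m hm => ?_) (DS_nonneg _ _ _ s) (DS_nonneg _ _ _ s)
      (hsm _) (by positivity) ht₀ fun t ht htd => ?_).2
    · unfold DS
      linarith
    · rw [NF_zero (fun _ _ => True) hm, Nat.cast_zero, zero_mul]
    · rw [sum_div hL (fun _ _ => True) s ht, sum_div hL _ s ht]
      have e1 := wt_all_le hp2 hC (hL.sq t ht) ht.2 (ws_nonneg s) (ws_le_one (by linarith))
        (fun _ _ => True)
      have e2 := wt_A hD hr ht.1 (hI _ ht.1) (hP _ ht.1) hf hQ hC ht.2 hB (ws_nonneg s)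
        (ws_le_one (by linarith)) (hS.trans (Finset.sum_le_sum_of_subset_of_nonneg
          (Nat.primeFactors_mono htd (hL.sq t ht).ne_zero) fun l _ _ => ws_nonneg s l))
      linarith
  · intro h
    have h1 : 0 ≤ DS (D.Lvl p n m₀) C (fun _ _ => True) s := tsum_nonneg (DS_nonneg _ _ _ s)
    have h2 : 0 < DS (D.Lvl p n m₀) C (fun m ψ => D.Q1At p (m₀ * m)
        ((f.comp (res (Dvd.intro m rfl))).prod (ψ.comp (res (Dvd.intro_left m₀ rfl))))) s := by
      by_contra hcon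
      have h3 : (2 : ℝ) ^ (B + 1) * DS (D.Lvl p n m₀) C (fun m ψ => D.Q1At p (m₀ * m)
        ((f.comp (res (Dvd.intro m rfl))).prod (ψ.comp (res (Dvd.intro_left m₀ rfl))))) s ≤ 0 :=
        mul_nonpos_of_nonneg_of_nonpos (by positivity) (not_lt.mp hcon)
      linarith
    obtain ⟨m, hm⟩ : ∃ m : ℕ, (NF C (fun m ψ => D.Lvl p n m₀ m ∧ D.Q1At p (m₀ * m)
        ((f.comp (res (Dvd.intro m rfl))).prod (ψ.comp (res (Dvd.intro_left m₀ rfl))))) m : ℝ) *
          (m : ℝ) ^ (-s) ≠ 0 := by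
      by_contra hcon
      push Not at hcon
      unfold DS at h2
      simp only [hcon, tsum_zero, lt_irrefl] at h2
    have hm' : NF C (fun m ψ => D.Lvl p n m₀ m ∧ D.Q1At p (m₀ * m)
        ((f.comp (res (Dvd.intro m rfl))).prod (ψ.comp (res (Dvd.intro_left m₀ rfl))))) m ≠ 0 := by
      intro h0
      rw [h0, Nat.cast_zero, zero_mul] at hm
      exact hm rfl
    obtain ⟨⟨ψ, hψ, hlv, hQ⟩⟩ := (Nat.card_pos_iff.mp (Nat.pos_of_ne_zero hm')).1
    obtain ⟨d, hd, f', hf', hff, hQ'⟩ := hQ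
    have hfG : Finite G := by
      have := finite_Gp h₀.1.ne_zero
      exact Finite.of_surjective f hf.1
    obtain ⟨x, hx⟩ := exists_defect' hD hlv.1 (hI _ hlv.1) (hP _ hlv.1)
    refine (hx m₀ (Dvd.intro m rfl) G f hf).mpr ?_
    have h1 := (hx d hd _ f' hf').mp hQ'
    rw [hff] at h1
    have h2 := push_mem (MonoidHom.fst G C) h1
    rw [push_push] at h2
    exact h2

end MTData

end MTate
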