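import Mathlib
import Pool.Agent.Lib.MP_5deabe_nt_DN.Main

/-!
# The density of the fields for which Q1 holds: cyclic fields
-/

namespace MTate

open MonoidAlgebra

variable {p : ℕ} [hp : Fact p.Prime] {D : MTData}

namespace MTData

/-- **the lower bound for cyclic fields of degree `p`** -/
theorem dens_A1 (hD : D.Valid p) (hr1 : 1 ≤ D.r) (hr : D.r < p)
    (hI : ∀ m, D.Adm p m → D.Integral p m) (hP : ∀ m, D.Adm p m → D.Pairing p m)
    (hQ : ∀ (G : Type) [CommGroup G] (f : Gp 1 →* G), IsField 1 f → D.Q1 p 1 f) {j : ℕ}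
    (hj1 : 1 ≤ j) (hjr : j ≤ D.r) (hj : j = 1 ∨ ∀ m, D.Lvl p 1 1 m → ∀ f : Gp m →* Cpn p 1,
      IsField m f → ∃ θ, D.IsTheta p m f θ ∧ θ ∈ augI ℤ_[p] (Cpn p 1) ^ j)
    (h₁ : D.Adm p 1) {s : ℝ} (hs : 1 < s) :
    ((p : ℝ) - 1) * (1 + DS (D.Lvl p 1 1) (Cpn p 1) (fun _ _ => True) s) ≤
      ((p : ℝ) ^ (∑ k ∈ Finset.Icc j D.r, k + 1) - 1) *
        (1 + DS (D.Lvl p 1 1) (Cpn p 1) (fun m ψ => D.Q1 p m ψ) s) := by
  have hL := isLvl (n := 1) h₁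
  have hp2 := hD.ne_two
  have hfC := Cpn_finite (p := p) 1
  have hnC := Cpn_nontrivial (p := p) le_rfl
  have hC : ∀ c : Cpn p 1, c ^ p ^ 1 = 1 := fun c => Cpn_pow_card c
  have hp1 : (1 : ℝ) < p := by exact_mod_cast hp.out.one_lt
  set q : ℝ := (p : ℝ) ^ (∑ k ∈ Finset.Icc j D.r, k + 1) - 1 with hq
  have hq0 : 0 ≤ q := by
    rw [hq, sub_nonneg]
    exact one_le_pow₀ hp1.le
  have hp0 : (0 : ℝ) < p - 1 := by linarith
  have h1 := (tsum_bound hL (a := fun m : ℕ => (NF (Cpn p 1)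
      (fun m _ => D.Lvl p 1 1 m ∧ True) m : ℝ) * (m : ℝ) ^ (-s))
    (b := fun m : ℕ => (NF (Cpn p 1) (fun m ψ => D.Lvl p 1 1 m ∧ D.Q1 p m ψ) m : ℝ) *
      (m : ℝ) ^ (-s)) (K := q / (p - 1)) (c := q / (p - 1) - 1) (fun m hm => ?_)
    (DS_nonneg _ _ _ s) (DS_nonneg _ _ _ s)
    (summable_DS hp2 hC hL (lvl_one h₁) (fun t ht => ht.2) _ hs) (by positivity) (lvl_one h₁)
    fun t ht _ => ?_).2
  · unfold DS
    have h2 := mul_le_mul_of_nonneg_left h1 hp0.le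
    have h3 : ((p : ℝ) - 1) * (q / (p - 1) * (∑' m : ℕ, (NF (Cpn p 1)
        (fun m ψ => D.Lvl p 1 1 m ∧ D.Q1 p m ψ) m : ℝ) * (m : ℝ) ^ (-s)) + (q / (p - 1) - 1)) =
        q * (1 + ∑' m : ℕ, (NF (Cpn p 1)
        (fun m ψ => D.Lvl p 1 1 m ∧ D.Q1 p m ψ) m : ℝ) * (m : ℝ) ^ (-s)) - (p - 1) := by
      field_simp
      ring
    rw [h3] at h2
    linarith
  · rw [NF_zero (fun _ _ => True) hm, Nat.cast_zero, zero_mul]
  · rw [sum_div hL (fun _ _ => True) s ht, sum_div hL _ s ht]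
    have hA : D.Adm p t := by
      have := ht.1
      rwa [one_mul] at this
    have e1 := wt_all_le hp2 hC (hL.sq t ht) ht.2 (ws_nonneg s) (ws_le_one (by linarith))
      (fun _ _ => True)
    rw [Cpn_card] at e1
    have e3 : ((p ^ 1 : ℕ) : ℝ) = p := by
      push_cast
      exact pow_one _
    rw [e3] at e1
    have e2 := wt_A1 hD hr1 hr hA (hI t hA) (hP t hA) ht.2 hQ hj1 hjr
      (hj.imp_right fun h d hd => h d (hL.dvd t d ht hd)) (ws_nonneg s) (ws_le_one (by linarith))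
    have e4 := mul_le_mul_of_nonneg_left e1 hp0.le
    have e5 := e4.trans e2
    have e6 : q / (p - 1) * (∑ m ∈ t.divisors, (NF (Cpn p 1) (fun m ψ => D.Q1 p m ψ) m : ℝ) *
        wt (ws s) m) + (q / (p - 1) - 1) = (q * (1 + ∑ m ∈ t.divisors, (NF (Cpn p 1)
          (fun m ψ => D.Q1 p m ψ) m : ℝ) * wt (ws s) m) - (p - 1)) / (p - 1) := by
      field_simp
      ring
    rw [e6, le_div_iff₀ hp0]
    linarith

/-- **the lower bound for the fields without Q1** -/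
theorem dens_B (hD : D.Valid p) (hr1 : 1 ≤ D.r) (hr : D.r < p)
    (hI : ∀ m, D.Adm p m → D.Integral p m) (hP : ∀ m, D.Adm p m → D.Pairing p m)
    (h₁ : D.Adm p 1) {n : ℕ} (hn : 1 ≤ n) {m₁ : ℕ} (hm : D.Lvl p n 1 m₁) (hm1 : m₁ ≠ 1)
    {G : Type} [CommGroup G] {f : Gp m₁ →* G} (hf : IsField m₁ f)
    (hG : ∃ k, p.Coprime k ∧ ∀ g : G, g ^ (p ^ n * k) = 1) (hQ : ¬ D.Q1 p m₁ f)
    {s : ℝ} (hs : 1 < s) :
    ((p : ℝ) - D.r) * (p - 1) * (m₁ : ℝ) ^ (-s) *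
        (1 + DS (D.Lvl p n 1) (Cpn p n) (fun _ _ => True) s) ≤
      (p : ℝ) ^ 2 * DS (D.Lvl p n 1) (Cpn p n) (fun m ψ => ¬ D.Q1 p m ψ) s := by
  have hL := isLvl (n := n) h₁
  have hp2 := hD.ne_two
  have hfC := Cpn_finite (p := p) n
  have hnC := Cpn_nontrivial (p := p) hn
  have hC : ∀ c : Cpn p n, c ^ p ^ n = 1 := fun c => Cpn_pow_card c
  have hp1 : (1 : ℝ) < p := by exact_mod_cast hp.out.one_lt
  have hrp : (D.r : ℝ) < p := by exact_mod_cast hr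
  have hm0 : (0 : ℝ) < m₁ := by
    exact_mod_cast Nat.pos_of_ne_zero (hL.sq m₁ hm).ne_zero
  set κ : ℝ := ((p : ℝ) - D.r) * (p - 1) * (m₁ : ℝ) ^ (-s) with hκ
  have hκ0 : 0 < κ :=
    mul_pos (mul_pos (by linarith) (by linarith)) (Real.rpow_pos_of_pos hm0 _)
  have hp0 : (0 : ℝ) < p := by linarith
  have h1 := (tsum_bound hL (a := fun m : ℕ => (NF (Cpn p n)
      (fun m _ => D.Lvl p n 1 m ∧ True) m : ℝ) * (m : ℝ) ^ (-s))
    (b := fun m : ℕ => (NF (Cpn p n) (fun m ψ => D.Lvl p n 1 m ∧ ¬ D.Q1 p m ψ) m : ℝ) *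
      (m : ℝ) ^ (-s)) (K := p ^ 2 / κ) (c := -1) (fun m hm => ?_)
    (DS_nonneg _ _ _ s) (DS_nonneg _ _ _ s)
    (summable_DS hp2 hC hL (lvl_one h₁) (fun t ht => ht.2) _ hs) (by positivity) hm
    fun t ht htd => ?_).2
  · unfold DS
    have h2 := mul_le_mul_of_nonneg_left h1 hκ0.le
    have h3 : κ * (p ^ 2 / κ * (∑' m : ℕ, (NF (Cpn p n)
        (fun m ψ => D.Lvl p n 1 m ∧ ¬ D.Q1 p m ψ) m : ℝ) * (m : ℝ) ^ (-s)) + (-1)) =
        p ^ 2 * (∑' m : ℕ, (NF (Cpn p n)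
        (fun m ψ => D.Lvl p n 1 m ∧ ¬ D.Q1 p m ψ) m : ℝ) * (m : ℝ) ^ (-s)) - κ := by
      field_simp
      ring
    rw [h3] at h2
    linarith
  · rw [NF_zero (fun _ _ => True) hm, Nat.cast_zero, zero_mul]
  · rw [sum_div hL (fun _ _ => True) s ht, sum_div hL _ s ht]
    have hA : D.Adm p t := by
      have := ht.1
      rwa [one_mul] at this
    have e1 := wt_all_le hp2 hC (hL.sq t ht) ht.2 (ws_nonneg s) (ws_le_one (by linarith))
      (fun _ _ => True)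
    rw [Cpn_card] at e1
    have e3 : ((p ^ n : ℕ) : ℝ) = (p : ℝ) ^ n := by push_cast; rfl
    rw [e3] at e1
    have e2 := wt_B hD hr1 hr hA (hI t hA) (hP t hA) hn ht.2 htd hm1 hf hG hQ
      (ws_nonneg s) (ws_le_one (by linarith))
    rw [wt_ws s (hL.sq m₁ hm), ← mul_assoc, ← hκ] at e2
    have e4 := mul_le_mul_of_nonneg_left e1 hκ0.le
    have e5 := e4.trans e2
    have e6 : p ^ 2 / κ * (∑ m ∈ t.divisors, (NF (Cpn p n) (fun m ψ => ¬ D.Q1 p m ψ) m : ℝ) *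
        wt (ws s) m) + (-1) = (p ^ 2 * (∑ m ∈ t.divisors, (NF (Cpn p n)
          (fun m ψ => ¬ D.Q1 p m ψ) m : ℝ) * wt (ws s) m) - κ) / κ := by
      field_simp
      ring
    rw [e6, le_div_iff₀ hκ0]
    linarith

/-- if the fields with Q1 have upper density one then Q1 holds for all fields -/
theorem all_of_dens (hD : D.Valid p) (hr1 : 1 ≤ D.r) (hr : D.r < p)
    (hI : ∀ m, D.Adm p m → D.Integral p m) (hP : ∀ m, D.Adm p m → D.Pairing p m)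
    (h₁ : D.Adm p 1) {n : ℕ} (hn : 1 ≤ n)
    (h : ∀ ε : ℝ, 0 < ε → ∃ s : ℝ, 1 < s ∧ s ≤ 2 ∧
      DS (D.Lvl p n 1) (Cpn p n) (fun m ψ => ¬ D.Q1 p m ψ) s ≤
        ε * (1 + DS (D.Lvl p n 1) (Cpn p n) (fun _ _ => True) s))
    {m₁ : ℕ} (hm : D.Lvl p n 1 m₁) (hm1 : m₁ ≠ 1)
    {G : Type} [CommGroup G] {f : Gp m₁ →* G} (hf : IsField m₁ f)
    (hG : ∃ k, p.Coprime k ∧ ∀ g : G, g ^ (p ^ n * k) = 1) : D.Q1 p m₁ f := by
  by_contra hQ
  have hL := isLvl (n := n) h₁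
  have hp1 : (1 : ℝ) < p := by exact_mod_cast hp.out.one_lt
  have hrp : (D.r : ℝ) < p := by exact_mod_cast hr
  have hm0 : (0 : ℝ) < m₁ := by
    exact_mod_cast Nat.pos_of_ne_zero (hL.sq m₁ hm).ne_zero
  have hm1' : (1 : ℝ) ≤ m₁ := by
    exact_mod_cast Nat.pos_of_ne_zero (hL.sq m₁ hm).ne_zero
  set κ : ℝ := ((p : ℝ) - D.r) * (p - 1) * (m₁ : ℝ) ^ (-(2 : ℝ)) with hκ
  have hκ0 : 0 < κ :=
    mul_pos (mul_pos (by linarith) (by linarith)) (Real.rpow_pos_of_pos hm0 _)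
  have hp0 : (0 : ℝ) < (p : ℝ) ^ 2 := by positivity
  obtain ⟨s, hs, hs2, hle⟩ := h (κ / (2 * (p : ℝ) ^ 2)) (by positivity)
  have h1 := dens_B hD hr1 hr hI hP h₁ hn hm hm1 hf hG hQ hs
  set Z := DS (D.Lvl p n 1) (Cpn p n) (fun _ _ => True) s with hZ
  have hZ0 : 0 ≤ Z := tsum_nonneg (DS_nonneg _ _ _ s)
  have h2 : κ ≤ ((p : ℝ) - D.r) * (p - 1) * (m₁ : ℝ) ^ (-s) := by
    refine mul_le_mul_of_nonneg_left ?_ (mul_nonneg (by linarith) (by linarith))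
    exact Real.rpow_le_rpow_of_exponent_le hm1' (by linarith)
  have h3 : κ * (1 + Z) ≤ (p : ℝ) ^ 2 * (κ / (2 * (p : ℝ) ^ 2) * (1 + Z)) :=
    (mul_le_mul_of_nonneg_right h2 (by linarith)).trans
      (h1.trans (mul_le_mul_of_nonneg_left hle hp0.le))
  have h4 : (p : ℝ) ^ 2 * (κ / (2 * (p : ℝ) ^ 2) * (1 + Z)) = κ * (1 + Z) / 2 := by
    field_simp
  rw [h4] at h3
  have h5 : 0 < κ * (1 + Z) := mul_pos hκ0 (by linarith)
  linarith

/-- **Q1 for all fields in terms of densities** -/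
theorem dens_iff (hD : D.Valid p) (hr1 : 1 ≤ D.r) (hr : D.r < p)
    (hI : ∀ m, D.Adm p m → D.Integral p m) (hP : ∀ m, D.Adm p m → D.Pairing p m)
    (h₁ : D.Adm p 1) :
    (∀ m, D.Adm p m → ∀ (G : Type) [CommGroup G] (f : Gp m →* G), IsField m f → D.Q1 p m f) ↔
    (∀ (G : Type) [CommGroup G] (f : Gp 1 →* G), IsField 1 f → D.Q1 p 1 f) ∧
    ∀ n : ℕ, 1 ≤ n → ∀ ε : ℝ, 0 < ε → ∃ s : ℝ, 1 < s ∧ s ≤ 2 ∧
      DS (D.Lvl p n 1) (Cpn p n) (fun m ψ => ¬ D.Q1 p m ψ) s ≤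
        ε * (1 + DS (D.Lvl p n 1) (Cpn p n) (fun _ _ => True) s) := by
  constructor
  · intro h
    refine ⟨h 1 h₁, fun n hn ε hε => ⟨2, by norm_num, le_rfl, ?_⟩⟩
    have h1 : DS (D.Lvl p n 1) (Cpn p n) (fun m ψ => ¬ D.Q1 p m ψ) 2 = 0 := by
      unfold DS
      have h2 : ∀ m : ℕ, (NF (Cpn p n) (fun m ψ => D.Lvl p n 1 m ∧ ¬ D.Q1 p m ψ) m : ℝ) *
          (m : ℝ) ^ (-(2 : ℝ)) = 0 := by
        intro m
        have h3 : NF (Cpn p n) (fun m ψ => D.Lvl p n 1 m ∧ ¬ D.Q1 p m ψ) m = 0 := by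
          unfold NF
          have : IsEmpty {ψ : Gp m →* Cpn p n // IsField m ψ ∧
              (D.Lvl p n 1 m ∧ ¬ D.Q1 p m ψ)} := by
            refine ⟨fun ψ => ψ.2.2.2 (h m ?_ _ _ ψ.2.1)⟩
            have := ψ.2.2.1.1
            rwa [one_mul] at this
          exact Nat.card_of_isEmpty
        rw [h3, Nat.cast_zero, zero_mul]
      rw [tsum_congr h2, tsum_zero]
    rw [h1]
    exact mul_nonneg hε.le (add_nonneg zero_le_one (tsum_nonneg (DS_nonneg _ _ _ 2)))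
  · rintro ⟨h1, h2⟩ M hM G _ f hf
    have star : ∀ m, m ∣ M → m ≠ 1 → ∀ n, 1 ≤ n → (∀ l ∈ m.primeFactors, p ^ n ∣ l - 1) →
        ∀ (G : Type) [CommGroup G] (f : Gp m →* G), IsField m f →
        (∀ g : G, g ^ p ^ n = 1) → D.Q1 p m f := by
      intro m hm hm1 n hn hdiv G _ f hf hG
      exact all_of_dens hD hr1 hr hI hP h₁ hn (h2 n hn)
        ⟨by rw [one_mul]; exact hM.of_dvd hm, hdiv⟩ hm1 hf
        ⟨1, Nat.coprime_one_right p, fun g => by rw [mul_one, hG]⟩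
    refine (reduction hD hM).mpr ⟨hI M hM, ?_, ?_⟩ M dvd_rfl G f hf
    · intro m hm _ G _ f hf hcard hcyc
      obtain ⟨n, hn⟩ := hcard
      obtain ⟨hc, htr⟩ := hcyc hr
      rcases eq_or_ne m 1 with rfl | hm1
      · exact h1 G f hf
      · have hsq := hM.1.squarefree_of_dvd hm
        have hfG : Finite G := by
          have := finite_Gp hsq.ne_zero
          exact Finite.of_surjective f hf.1
        rcases Nat.eq_zero_or_pos n with rfl | hn0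
        · exfalso
          rw [pow_zero] at hn
          have : Subsingleton G := (Nat.card_eq_one_iff_unique.mp hn).1
          apply hm1
          refine (hf.2 1 (one_dvd m) ?_).symm
          intro y _
          exact Subsingleton.elim _ _
        · refine star m hm hm1 n hn0 (totRam_dvd hsq hn0 hn htr) G f hf fun g => ?_
          rw [← hn]
          exact pow_card_eq_one'
    · intro _ m hm hm1 _ n hn hdiv
      have hsq := hM.1.squarefree_of_dvd hm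
      obtain ⟨c, hc1, hc2, hc3, hc4, hc5⟩ := exists_gens (p := p) hsq
      obtain ⟨φ, hφ, htr, hs⟩ := exists_totRam (u := fun _ => 1) hD.ne_two hsq.ne_zero hc3
        (fun i => Nat.coprime_one_right p) (hc5 n (fun i => hdiv i.1 i.2) fun _ => 1)
      have := Cpn_nontrivial (p := p) hn
      have hfield := htr.isField (hs hm1)
      exact ⟨φ, hfield, htr, star m hm hm1 n hn hdiv _ φ hfield fun g => Cpn_pow_card g⟩

end MTData

end MTate
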