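import Mathlib
import Pool.Agent.Lib.MP_5deabe_nt_DN.Mix

/-!
# Multiplicative weights as mixtures of uniform distributions, II
-/

namespace MTate

/-- the mixture of the multiplicative functions -/
theorem mixG_prod {w : ℕ → ℝ} {t : ℕ} (hsq : Squarefree t) (x : ℕ → ℝ) :
    ∑ t' ∈ t.divisors, mixc w t t' * ∏ l ∈ t'.primeFactors, x l =
      ∏ l ∈ t.primeFactors, (1 - w l + w l * x l) := by
  classical
  let F : Finset ℕ → ℝ := fun S => (∏ l ∈ S, w l * x l) * ∏ l ∈ t.primeFactors \ S, (1 - w l)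
  have h1 : ∀ t' ∈ t.divisors, mixc w t t' * ∏ l ∈ t'.primeFactors, x l =
      F t'.primeFactors := by
    intro t' _
    show _ = (∏ l ∈ t'.primeFactors, w l * x l) *
      ∏ l ∈ t.primeFactors \ t'.primeFactors, (1 - w l)
    rw [Finset.prod_mul_distrib]
    unfold mixc
    ring
  rw [Finset.sum_congr rfl h1, sum_divisors_sq hsq F, ← Finset.prod_add]
  refine Finset.prod_congr rfl fun l _ => ?_
  ring

/-- the mixture over the multiples of a divisor -/
theorem mixG_mul {w : ℕ → ℝ} {t m : ℕ} (hsq : Squarefree t) (hm : m ∣ t) (x : ℕ → ℝ) :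
    ∑ t' ∈ t.divisors.filter (fun t' => m ∣ t'), mixc w t t' * ∏ l ∈ t'.primeFactors, x l =
      (∏ l ∈ m.primeFactors, w l * x l) *
        ∏ l ∈ t.primeFactors \ m.primeFactors, (1 - w l + w l * x l) := by
  classical
  have hsub : m.primeFactors ⊆ t.primeFactors := Nat.primeFactors_mono hm hsq.ne_zero
  have hdvd : ∀ t' ∈ t.divisors, (m ∣ t' ↔ m.primeFactors ⊆ t'.primeFactors) := by
    intro t' ht'
    have ht'' := Nat.dvd_of_mem_divisors ht'
    constructor
    · intro h
      exact Nat.primeFactors_mono h (hsq.squarefree_of_dvd ht'').ne_zero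
    · intro h
      rw [← Nat.prod_primeFactors_of_squarefree (hsq.squarefree_of_dvd hm),
        ← Nat.prod_primeFactors_of_squarefree (hsq.squarefree_of_dvd ht'')]
      exact Finset.prod_dvd_prod_of_subset _ _ _ h
  rw [Finset.sum_filter]
  let F : Finset ℕ → ℝ := fun S => (∏ l ∈ S, w l * x l) *
    ∏ l ∈ t.primeFactors \ S, if l ∈ m.primeFactors then 0 else (1 - w l)
  have h1 : ∀ t' ∈ t.divisors, (if m ∣ t' then mixc w t t' * ∏ l ∈ t'.primeFactors, x l else 0) =
      F t'.primeFactors := by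
    intro t' ht'
    show _ = (∏ l ∈ t'.primeFactors, w l * x l) * ∏ l ∈ t.primeFactors \ t'.primeFactors,
      if l ∈ m.primeFactors then 0 else (1 - w l)
    by_cases h : m ∣ t'
    · rw [if_pos h, Finset.prod_mul_distrib]
      have h2 : (∏ l ∈ t.primeFactors \ t'.primeFactors,
          if l ∈ m.primeFactors then 0 else (1 - w l)) =
          ∏ l ∈ t.primeFactors \ t'.primeFactors, (1 - w l) := by
        refine Finset.prod_congr rfl fun l hl => ?_
        rw [if_neg]
        intro hlm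
        exact (Finset.mem_sdiff.mp hl).2 ((hdvd t' ht').mp h hlm)
      rw [h2]
      unfold mixc
      ring
    · rw [if_neg h]
      have h2 : ¬ m.primeFactors ⊆ t'.primeFactors := fun h3 => h ((hdvd t' ht').mpr h3)
      obtain ⟨l, hl, hl'⟩ := Finset.not_subset.mp h2
      have h3 : (∏ l ∈ t.primeFactors \ t'.primeFactors,
          if l ∈ m.primeFactors then 0 else (1 - w l)) = 0 :=
        Finset.prod_eq_zero (Finset.mem_sdiff.mpr ⟨hsub hl, hl'⟩) (if_pos hl)
      rw [h3, mul_zero]
  rw [Finset.sum_congr rfl h1, sum_divisors_sq hsq F, ← Finset.prod_add,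
    ← Finset.prod_sdiff hsub, mul_comm]
  congr 1
  · refine Finset.prod_congr rfl fun l hl => ?_
    rw [if_pos hl, add_zero]
  · refine Finset.prod_congr rfl fun l hl => ?_
    rw [if_neg (Finset.mem_sdiff.mp hl).2]
    ring

/-- comparison of the products -/
theorem prodG_le_exp {w : ℕ → ℝ} (hw : ∀ l, 0 ≤ w l) (hw' : ∀ l, w l ≤ 1) {T : Finset ℕ} {q : ℝ}
    (hq : 1 ≤ q) {L : ℕ → Prop} [DecidablePred L] {x y : ℕ → ℝ} (hx : ∀ l ∈ T, 1 ≤ x l)
    (hy0 : ∀ l ∈ T, 0 ≤ y l) (hy : ∀ l ∈ T, y l ≤ x l) (hyL : ∀ l ∈ T, L l → y l ≤ x l / q) :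
    ∏ l ∈ T, (1 - w l + w l * y l) ≤
      Real.exp (-((1 - 1 / q) * ∑ l ∈ T.filter L, w l)) * ∏ l ∈ T, (1 - w l + w l * x l) := by
  rw [Finset.sum_filter, Finset.mul_sum, ← Finset.sum_neg_distrib, Real.exp_sum,
    ← Finset.prod_mul_distrib]
  have hq0 : 0 < q := by linarith
  have hq1 : 0 ≤ 1 - 1 / q := by
    rw [sub_nonneg, div_le_one hq0]
    exact hq
  refine Finset.prod_le_prod (fun l hl => ?_) fun l hl => ?_
  · have h1 := hw l
    have h2 := hw' l
    have h3 : 0 ≤ w l * y l := mul_nonneg h1 (hy0 l hl)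
    linarith
  · have h1 := hw l
    have h2 := hw' l
    have hx1 := hx l hl
    by_cases hL : L l
    · rw [if_pos hL]
      have h3 : 1 - (1 - 1 / q) * w l ≤ Real.exp (-((1 - 1 / q) * w l)) := by
        have := Real.add_one_le_exp (-((1 - 1 / q) * w l))
        linarith
      have h4 : 0 ≤ 1 - w l + w l * x l := by nlinarith
      refine le_trans ?_ (mul_le_mul_of_nonneg_right h3 h4)
      have h5 : x l / q = x l - (1 - 1 / q) * x l := by
        field_simp
        ring
      have h7 : w l * y l ≤ w l * (x l - (1 - 1 / q) * x l) := by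
        rw [← h5]
        exact mul_le_mul_of_nonneg_left (hyL l hl hL) h1
      have h6 : 0 ≤ (1 - 1 / q) * w l * (x l - 1) * (1 - w l) :=
        mul_nonneg (mul_nonneg (mul_nonneg hq1 h1) (by linarith)) (by linarith)
      nlinarith
    · rw [if_neg hL, mul_zero, neg_zero, Real.exp_zero, one_mul]
      have h3 := mul_le_mul_of_nonneg_left (hy l hl) h1
      linarith

end MTate
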