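import Mathlib
import Pool.Agent.Lib.MP_5deabe_nt_DN.WtA
import Pool.Agent.Lib.MP_5deabe_nt_DN.HomC
import Pool.Agent.Lib.MP_5deabe_nt_DN.MixG

/-!
# Weighted sums over all fields of conductor dividing `t`
-/

namespace MTate

open MonoidAlgebra

variable {p : ℕ} [hp : Fact p.Prime] {D : MTData}

/-- the product of the local factors -/
noncomputable def EP (C : Type) [CommGroup C] (w : ℕ → ℝ) (t : ℕ) : ℝ :=
  ∏ l ∈ t.primeFactors, (1 - w l + w l * Nat.card (Gp l →* C))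

section
variable {C : Type} [CommGroup C] [Finite C]

omit hp in
theorem one_le_local {w : ℕ → ℝ} (hw : ∀ l, 0 ≤ w l) {l : ℕ} (hl : l ≠ 0) :
    1 ≤ 1 - w l + w l * (Nat.card (Gp l →* C) : ℝ) := by
  have h1 : (1 : ℝ) ≤ (Nat.card (Gp l →* C) : ℝ) := by
    exact_mod_cast one_le_card_hom (C := C) hl
  have h2 := hw l
  nlinarith

omit hp in
theorem one_le_EP {w : ℕ → ℝ} (hw : ∀ l, 0 ≤ w l) (t : ℕ) : 1 ≤ EP C w t := by
  have h : ∏ _l ∈ t.primeFactors, (1 : ℝ) ≤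
      ∏ l ∈ t.primeFactors, (1 - w l + w l * (Nat.card (Gp l →* C) : ℝ)) :=
    Finset.prod_le_prod (fun _ _ => zero_le_one) fun l hl =>
      one_le_local hw (Nat.prime_of_mem_primeFactors hl).ne_zero
  rwa [Finset.prod_const_one] at h

/-- the upper bound for the sum over all fields -/
theorem wtG_all_le (hp2 : p ≠ 2) [Nontrivial C] {n : ℕ} (hC : ∀ c : C, c ^ p ^ n = 1) {t : ℕ}
    (hsq : Squarefree t) {w : ℕ → ℝ}
    (hw : ∀ l, 0 ≤ w l) (hw' : ∀ l, w l ≤ 1) (P : ∀ m, (Gp m →* C) → Prop) :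
    1 + ∑ m ∈ t.divisors, (NF C P m : ℝ) * wt w m ≤ EP C w t := by
  classical
  unfold EP
  rw [mix_sum hsq, ← mixG_prod hsq]
  have h1 : ∀ t' ∈ t.divisors, mixc w t t' * ∑ m ∈ t'.divisors, (NF C P m : ℝ) ≤
      mixc w t t' * (∏ l ∈ t'.primeFactors, (Nat.card (Gp l →* C) : ℝ)) - mixc w t t' := by
    intro t' ht'
    have hd := Nat.dvd_of_mem_divisors ht'
    have hsq' := hsq.squarefree_of_dvd hd
    have hV := finite_hom hsq'.ne_zero C
    have h2 : ∑ m ∈ t'.divisors, NF C P m ≤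
        Nat.card {ψ : Gp t' →* C // Function.Surjective ψ} :=
      sum_NF_le hsq' fun m hm ψ hψ _ => hψ.1.comp (res_surjective hsq'.ne_zero hm)
    have h3 : 1 ≤ Nat.card {ψ : Gp t' →* C // ¬ Function.Surjective ψ} := by
      refine Nat.card_pos_iff.mpr ⟨⟨⟨1, ?_⟩⟩, inferInstance⟩
      intro hs
      obtain ⟨y, hy⟩ := exists_ne (1 : C)
      obtain ⟨x, hx⟩ := hs y
      exact hy (hx.symm.trans rfl)
    have h4 := card_surj_add (C := C) hsq'.ne_zero
    rw [card_hom_prod hp2 hC hsq'] at h4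
    have h5 : (∑ m ∈ t'.divisors, (NF C P m : ℝ)) ≤
        (∏ l ∈ t'.primeFactors, (Nat.card (Gp l →* C) : ℝ)) - 1 := by
      have h6 : ∑ m ∈ t'.divisors, NF C P m + 1 ≤
          ∏ l ∈ t'.primeFactors, Nat.card (Gp l →* C) := by omega
      have h7 : ((∑ m ∈ t'.divisors, NF C P m + 1 : ℕ) : ℝ) ≤
          ((∏ l ∈ t'.primeFactors, Nat.card (Gp l →* C) : ℕ) : ℝ) := by exact_mod_cast h6
      push_cast at h7
      linarith
    have h6 := mul_le_mul_of_nonneg_left h5 (mixc_nonneg hw hw' t t')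
    linarith
  have h2 := Finset.sum_le_sum h1
  rw [Finset.sum_sub_distrib, mix_one hsq] at h2
  linarith

/-- the homomorphisms which are not surjective -/
theorem wtG_ns (hp2 : p ≠ 2) {n : ℕ} (hC : ∀ c : C, c ^ p ^ n = 1) {t : ℕ}
    (hsq : Squarefree t) {w : ℕ → ℝ} (hw : ∀ l, 0 ≤ w l) (hw' : ∀ l, w l ≤ 1) :
    ∑ t' ∈ t.divisors, mixc w t t' *
      (Nat.card {ψ : Gp t' →* C // ¬ Function.Surjective ψ} : ℝ) ≤
      2 ^ Nat.card C * (Real.exp (-((1 - 1 / (p : ℝ)) *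
        ∑ l ∈ t.primeFactors.filter (fun l => p ^ n ∣ l - 1), w l)) * EP C w t) := by
  classical
  have : Fintype {K : Subgroup C // K ≠ ⊤} := Fintype.ofFinite _
  have hp1 : (1 : ℝ) < p := by exact_mod_cast hp.out.one_lt
  set E := Real.exp (-((1 - 1 / (p : ℝ)) *
        ∑ l ∈ t.primeFactors.filter (fun l => p ^ n ∣ l - 1), w l)) * EP C w t with hE
  have hE0 : 0 ≤ E := mul_nonneg (Real.exp_pos _).le (by
    have := one_le_EP (C := C) hw t
    linarith)
  have hCK : ∀ K : Subgroup C, ∀ c : K, c ^ p ^ n = 1 := fun K c => Subtype.ext (by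
    rw [SubmonoidClass.coe_pow, hC]
    rfl)
  have h1 : ∀ t' ∈ t.divisors, mixc w t t' *
      (Nat.card {ψ : Gp t' →* C // ¬ Function.Surjective ψ} : ℝ) ≤
      ∑ K : {K : Subgroup C // K ≠ ⊤},
        mixc w t t' * ∏ l ∈ t'.primeFactors, (Nat.card (Gp l →* K.1) : ℝ) := by
    intro t' ht'
    have hsq' := hsq.squarefree_of_dvd (Nat.dvd_of_mem_divisors ht')
    rw [← Finset.mul_sum]
    refine mul_le_mul_of_nonneg_left ?_ (mixc_nonneg hw hw' t t')
    have h2 := card_ns_le (C := C) hsq'.ne_zero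
    have h3 : (Nat.card {ψ : Gp t' →* C // ¬ Function.Surjective ψ} : ℝ) ≤
        ((∑ K : {K : Subgroup C // K ≠ ⊤}, Nat.card (Gp t' →* K.1) : ℕ) : ℝ) := by
      exact_mod_cast h2
    rw [Nat.cast_sum] at h3
    refine h3.trans (le_of_eq (Finset.sum_congr rfl fun K _ => ?_))
    rw [card_hom_prod hp2 (hCK K.1) hsq', Nat.cast_prod]
  refine (Finset.sum_le_sum h1).trans ?_
  rw [Finset.sum_comm]
  have h2 : ∀ K : {K : Subgroup C // K ≠ ⊤}, ∑ t' ∈ t.divisors,
      mixc w t t' * ∏ l ∈ t'.primeFactors, (Nat.card (Gp l →* K.1) : ℝ) ≤ E := by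
    intro K
    rw [mixG_prod hsq]
    refine prodG_le_exp hw hw' hp1.le (fun l hl => ?_) (fun l _ => Nat.cast_nonneg _)
      (fun l hl => ?_) fun l hl hL => ?_
    · exact_mod_cast one_le_card_hom (C := C) (Nat.prime_of_mem_primeFactors hl).ne_zero
    · exact_mod_cast card_hom_sub_le (Nat.prime_of_mem_primeFactors hl).ne_zero K.1
    · have hlp := Nat.prime_of_mem_primeFactors hl
      rw [card_hom_level hp2 (hCK K.1) hlp hL, card_hom_level hp2 hC hlp hL,
        le_div_iff₀ (by linarith), mul_comm]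
      exact_mod_cast card_sub_le hC K.2
  refine (Finset.sum_le_sum fun K _ => h2 K).trans ?_
  rw [Finset.sum_const, nsmul_eq_mul, Finset.card_univ]
  refine mul_le_mul_of_nonneg_right ?_ hE0
  exact_mod_cast card_proper (C := C)

end

namespace MTData

/-- weighted version of `positive_proportion` for all fields -/
theorem wtG_A (hD : D.Valid p) (hr : 1 ≤ D.r) {m₀ t : ℕ}
    (hM : D.Adm p (m₀ * t)) (hI : D.Integral p (m₀ * t)) (hP : D.Pairing p (m₀ * t))
    {G : Type} [CommGroup G] {f : Gp m₀ →* G} (hf : IsField m₀ f) (hQ : D.Q1 p m₀ f)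
    {C : Type} [CommGroup C] [Finite C] [Nontrivial C] {n : ℕ} (hC : ∀ c : C, c ^ p ^ n = 1)
    {B : ℕ} (hB : B = D.r * Nat.card G * Nat.card C ^ 2 * p ^ (n * D.r)) {w : ℕ → ℝ}
    (hw : ∀ l, 0 ≤ w l) (hw' : ∀ l, w l ≤ 1)
    (hS : 2 * (B : ℝ) + 1 ≤ ∑ l ∈ t.primeFactors.filter (fun l => p ^ n ∣ l - 1), w l) :
    EP C w t ≤ 2 ^ (B + 1) * ∑ m ∈ t.divisors, (NF C (fun m ψ => D.Q1At p (m₀ * m)
        ((f.comp (res (Dvd.intro m rfl))).prod (ψ.comp (res (Dvd.intro_left m₀ rfl))))) m : ℝ) *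
          wt w m := by
  classical
  have hsqm := Nat.squarefree_mul_iff.mp hM.1
  have hsq := hsqm.2.2
  have hp2 := hD.ne_two
  have hfG : Finite G := by
    have := finite_Gp hsqm.2.1.ne_zero
    exact Finite.of_surjective f hf.1
  have hGpos : 0 < Nat.card G := Nat.card_pos
  have hCpos : 0 < Nat.card C := Nat.card_pos
  have hcB : Nat.card C ≤ B := by
    have h1 : 0 < D.r * Nat.card G * Nat.card C * p ^ (n * D.r) :=
      Nat.mul_pos (Nat.mul_pos (Nat.mul_pos hr hGpos) hCpos) (Nat.pow_pos hp.out.pos)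
    calc Nat.card C = Nat.card C * 1 := (mul_one _).symm
      _ ≤ Nat.card C * (D.r * Nat.card G * Nat.card C * p ^ (n * D.r)) :=
        Nat.mul_le_mul_left _ h1
      _ = B := by rw [hB]; ring
  rw [mix_sum hsq]
  set N : ℕ → ℕ := NF C (fun m ψ => D.Q1At p (m₀ * m)
        ((f.comp (res (Dvd.intro m rfl))).prod (ψ.comp (res (Dvd.intro_left m₀ rfl))))) with hN
  -- the estimate for each divisor
  have h1 : ∀ t' ∈ t.divisors, mixc w t t' * ∏ l ∈ t'.primeFactors, (Nat.card (Gp l →* C) : ℝ) ≤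
      2 ^ B * (mixc w t t' * ∑ m ∈ t'.divisors, (N m : ℝ)) +
        2 ^ B * (mixc w t t' * (Nat.card {ψ : Gp t' →* C // ¬ Function.Surjective ψ} : ℝ)) := by
    intro t' ht'
    have hd := Nat.dvd_of_mem_divisors ht'
    have hsq' := hsq.squarefree_of_dvd hd
    have hdm : m₀ * t' ∣ m₀ * t := Nat.mul_dvd_mul_left m₀ hd
    have hI' : D.Integral p (m₀ * t') := fun m hm => hI m (hm.trans hdm)
    have hP' : D.Pairing p (m₀ * t') := by
      refine ⟨?_, fun m hm => hP.pow m (hm.trans hdm)⟩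
      obtain ⟨n, hn, hn'⟩ := hP.ext
      exact ⟨n, hn, fun j => (hn' j).of_dvd hdm⟩
    have h2 := count_A hD hr (hM.of_dvd hdm) hI' hP' hf hQ hC hB
    have h3 : Nat.card {ψ : Gp t' →* C // Function.Surjective ψ ∧
        D.Q1At p (m₀ * t') ((f.comp (res (Dvd.intro t' rfl))).prod
          (ψ.comp (res (Dvd.intro_left m₀ rfl))))} ≤ ∑ m ∈ t'.divisors, N m := by
      refine le_sum_NF hsq' fun ψ hψ => ?_
      obtain ⟨hs, hQ'⟩ := hψ
      obtain ⟨d, hd', f', hf', rfl⟩ := exists_field hsq'.ne_zero hs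
      exact ⟨d, hd', f', hf', hQ'.down_prod hd' (hM.of_dvd hdm).1 hf.1 hf'.1, rfl⟩
    rw [card_hom_prod hp2 hC hsq'] at h2
    set NS := Nat.card {ψ : Gp t' →* C // ¬ Function.Surjective ψ} with hNS
    have h5 : ∏ l ∈ t'.primeFactors, (Nat.card (Gp l →* C) : ℝ) ≤
        2 ^ B * ((∑ m ∈ t'.divisors, (N m : ℝ)) + NS) := by
      have h6 := h2.trans (Nat.mul_le_mul_left _ (Nat.add_le_add_right h3 NS))
      have h7 : ((∏ l ∈ t'.primeFactors, Nat.card (Gp l →* C) : ℕ) : ℝ) ≤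
          ((2 ^ B * (∑ m ∈ t'.divisors, N m + NS) : ℕ) : ℝ) := by exact_mod_cast h6
      push_cast at h7
      exact h7
    have h8 := mul_le_mul_of_nonneg_left h5 (mixc_nonneg hw hw' t t')
    calc _ ≤ _ := h8
      _ = _ := by ring
  have h2 := Finset.sum_le_sum h1
  rw [Finset.sum_add_distrib, ← Finset.mul_sum, ← Finset.mul_sum, mixG_prod hsq] at h2
  have h3 := mul_le_mul_of_nonneg_left (wtG_ns hp2 hC hsq hw hw')
    (show (0 : ℝ) ≤ 2 ^ B by positivity)
  have hA1 := one_le_EP (C := C) hw t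
  have h4 := exp_bound hcB (four_le hD) hS
  have h5 : 2 ^ B * (2 ^ Nat.card C * (Real.exp (-((1 - 1 / (p : ℝ)) *
        ∑ l ∈ t.primeFactors.filter (fun l => p ^ n ∣ l - 1), w l)) * EP C w t)) ≤
      EP C w t / 2 := by
    have h6 := mul_le_mul_of_nonneg_right h4 (show 0 ≤ EP C w t by linarith)
    have h7 := mul_le_mul_of_nonneg_left h6 (show (0 : ℝ) ≤ 2 ^ B by positivity)
    rw [mul_assoc] at h7
    refine h7.trans (le_of_eq ?_)
    rw [pow_succ]
    field_simp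
  have h2' : EP C w t ≤ 2 ^ B * (∑ i ∈ t.divisors, mixc w t i * ∑ m ∈ i.divisors, (N m : ℝ)) +
      2 ^ B * ∑ i ∈ t.divisors, mixc w t i *
        (Nat.card {ψ : Gp i →* C // ¬ Function.Surjective ψ} : ℝ) := h2
  have h6 : EP C w t ≤
      2 * (2 ^ B * ∑ i ∈ t.divisors, mixc w t i * ∑ m ∈ i.divisors, (N m : ℝ)) := by
    linarith
  calc EP C w t ≤ _ := h6
    _ = _ := by ring

end MTData

end MTate
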