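import Mathlib
import Pool.Agent.Lib.MP_5deabe_nt_DN.WtG

/-!
# The fields for which Q1 fails: general groups
-/

namespace MTate

open MonoidAlgebra

variable {p : ℕ} [hp : Fact p.Prime] {D : MTData}

/-- the alternating sum over a cube -/
theorem alt_push {ι : Type*} [Fintype ι] [DecidableEq ι] {H G₀ C : Type*} [CommGroup H]
    [CommGroup G₀] [CommGroup C] (π : H →* G₀) (χ : H →* C) (η : ι → H →* C)
    (x : MonoidAlgebra ℤ_[p] H) :
    ∑ y : Finset ι, (-1) ^ y.card * push (π.prod (χ * ∏ i ∈ y, η i)) x ∈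
      augI ℤ_[p] (G₀ × C) ^ Fintype.card ι := by
  induction x using MonoidAlgebra.induction_linear with
  | zero => simp
  | add a b ha hb =>
    have h1 : ∑ y : Finset ι, (-1) ^ y.card * push (π.prod (χ * ∏ i ∈ y, η i)) (a + b) =
        ∑ y : Finset ι, (-1) ^ y.card * push (π.prod (χ * ∏ i ∈ y, η i)) a +
        ∑ y : Finset ι, (-1) ^ y.card * push (π.prod (χ * ∏ i ∈ y, η i)) b := by
      rw [← Finset.sum_add_distrib]
      refine Finset.sum_congr rfl fun y _ => ?_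
      rw [map_add, mul_add]
    rw [h1]
    exact Ideal.add_mem _ ha hb
  | single h a =>
    have h1 : ∀ y : Finset ι, (-1) ^ y.card * push (π.prod (χ * ∏ i ∈ y, η i)) (single h a) =
        algebraMap ℤ_[p] _ a * of ℤ_[p] (G₀ × C) (π h, χ h) *
          ∏ i ∈ y, (-of ℤ_[p] (G₀ × C) (1, η i h)) := by
      intro y
      have h2 : (π.prod (χ * ∏ i ∈ y, η i)) h =
          (π h, χ h) * ∏ i ∈ y, ((1, η i h) : G₀ × C) := by
        refine Prod.ext ?_ ?_
        · rw [Prod.fst_mul, Prod.fst_prod]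
          simp
        · rw [Prod.snd_mul, Prod.snd_prod]
          simp [MonoidHom.finsetProd_apply]
      rw [push_single, h2, Finset.prod_neg, ← map_prod]
      have h3 : (single ((π h, χ h) * ∏ i ∈ y, ((1, η i h) : G₀ × C)) a :
          MonoidAlgebra ℤ_[p] (G₀ × C)) = algebraMap ℤ_[p] _ a *
          (of ℤ_[p] (G₀ × C) (π h, χ h) * of ℤ_[p] (G₀ × C) (∏ i ∈ y, ((1, η i h) : G₀ × C))) := by
        rw [← map_mul]
        simp [MonoidAlgebra.single_mul_single]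
      rw [h3]
      ring
    rw [Finset.sum_congr rfl fun y _ => h1 y, ← Finset.mul_sum]
    refine Ideal.mul_mem_left _ _ ?_
    have h2 : ∑ y : Finset ι, ∏ i ∈ y, (-of ℤ_[p] (G₀ × C) (1, η i h)) =
        ∏ i, (1 + -of ℤ_[p] (G₀ × C) (1, η i h)) := by
      rw [Finset.prod_one_add, Finset.powerset_univ]
    rw [h2]
    have h3 : ∀ s : Finset ι, ∏ i ∈ s, (1 + -of ℤ_[p] (G₀ × C) (1, η i h)) ∈
        augI ℤ_[p] (G₀ × C) ^ s.card := by
      intro s
      induction s using Finset.induction_on with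
      | empty => simp
      | insert i s hi ih =>
        rw [Finset.prod_insert hi, Finset.card_insert_of_notMem hi, pow_succ']
        refine Ideal.mul_mem_mul ?_ ih
        have h4 : (1 + -of ℤ_[p] (G₀ × C) (1, η i h)) =
            -(of ℤ_[p] (G₀ × C) (1, η i h) - 1) := by ring
        rw [h4]
        exact neg_mem (of_sub_one_mem _)
    have h4 := h3 Finset.univ
    rwa [Finset.card_univ] at h4

namespace MTData

/-- **the number of the fields for which Q1 fails** -/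
theorem count_fail (hD : D.Valid p) {m₀ m₁ u : ℕ} (hM : D.Adm p (m₀ * (m₁ * u)))
    (hI : D.Integral p (m₀ * (m₁ * u))) (hP : D.Pairing p (m₀ * (m₁ * u)))
    {G : Type} [CommGroup G] {f : Gp m₀ →* G} (hf : IsField m₀ f)
    {C : Type} [CommGroup C] [Finite C] {ψ₁ : Gp m₁ →* C} (hψ₁ : IsField m₁ ψ₁)
    (hQ : ¬ D.Q1At p (m₀ * m₁) ((f.comp (res (Dvd.intro m₁ rfl))).prod
      (ψ₁.comp (res (Dvd.intro_left m₀ rfl))))) :
    Nat.card (Gp u →* C) ≤ (2 ^ (D.r + 1) - 1) *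
      Nat.card {ψ : Gp (m₁ * u) →* C // Function.Surjective ψ ∧
        ¬ D.Q1At p (m₀ * (m₁ * u)) ((f.comp (res (Dvd.intro (m₁ * u) rfl))).prod
          (ψ.comp (res (Dvd.intro_left m₀ rfl))))} := by
  classical
  have hsq := Nat.squarefree_mul_iff.mp hM.1
  have hsq1 := Nat.squarefree_mul_iff.mp hsq.2.2
  have hm0 : m₀ ≠ 0 := hsq.2.1.ne_zero
  have ht0 : m₁ * u ≠ 0 := hsq.2.2.ne_zero
  have hu0 : u ≠ 0 := hsq1.2.2.ne_zero
  have hfG : Finite G := by
    have := finite_Gp hm0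
    exact Finite.of_surjective f hf.1
  have hV := finite_hom hu0 C
  have hV' := finite_hom ht0 C
  obtain ⟨x, hx⟩ := exists_defect hD hM hI hP
  set π : Gp (m₀ * (m₁ * u)) →* G := f.comp (res (Dvd.intro (m₁ * u) rfl)) with hπ
  set ρ : Gp (m₀ * (m₁ * u)) →* Gp (m₁ * u) := res (Dvd.intro_left m₀ rfl) with hρ
  set ρ₁ : Gp (m₁ * u) →* Gp m₁ := res (Dvd.intro u rfl) with hρ₁
  set ρ₂ : Gp (m₁ * u) →* Gp u := res (Dvd.intro_left m₁ rfl) with hρ₂
  -- surjectivity
  have hsurj : ∀ ψ : Gp (m₁ * u) →* C, Function.Surjective ψ →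
      Function.Surjective (π.prod (ψ.comp ρ)) := by
    rintro ψ hψ ⟨a, b⟩
    obtain ⟨a', ha'⟩ := hf.1 a
    obtain ⟨b', hb'⟩ := hψ b
    obtain ⟨g, hg1, hg2⟩ := Gp_surjective_pair hsq.1 a' b'
    refine ⟨g, Prod.ext ?_ ?_⟩
    · show f (res _ g) = a
      rw [hg1, ha']
    · show ψ (res _ g) = b
      rw [hg2, hb']
  have hsurj1 : ∀ b : Gp u →* C, Function.Surjective ((ψ₁.comp ρ₁) * (b.comp ρ₂)) := by
    intro b c
    obtain ⟨a, ha⟩ := hψ₁.1 c
    obtain ⟨g, hg1, hg2⟩ := Gp_surjective_pair hsq1.1 a 1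
    refine ⟨g, ?_⟩
    show ψ₁ (res _ g) * b (res _ g) = c
    rw [hg1, hg2, map_one, mul_one, ha]
  -- the failing field at the level `m₀ m₁ u`
  have hfail : push (π.prod ((ψ₁.comp ρ₁).comp ρ)) x ∉ augI ℤ_[p] (G × C) ^ (D.r + 1) := by
    intro hmem
    have hs : Function.Surjective (ψ₁.comp ρ₁) := by
      have h := hsurj1 1
      have h' : (ψ₁.comp ρ₁) * ((1 : Gp u →* C).comp ρ₂) = ψ₁.comp ρ₁ := by
        rw [MonoidHom.one_comp, mul_one]
      rwa [h'] at h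
    have h1 := (hx _ _ (hsurj _ hs)).mpr hmem
    have hd' : m₀ * m₁ ∣ m₀ * (m₁ * u) := Nat.mul_dvd_mul_left m₀ (Dvd.intro u rfl)
    have h2 : π.prod ((ψ₁.comp ρ₁).comp ρ) =
        ((f.comp (res (Dvd.intro m₁ rfl))).prod (ψ₁.comp (res (Dvd.intro_left m₀ rfl)))).comp
          (res hd') := by
      refine MonoidHom.ext fun y => Prod.ext ?_ ?_
      · show f (res _ y) = f (res _ (res _ y))
        rw [res_res]
      · show ψ₁ (res _ (res _ y)) = ψ₁ (res _ (res _ y))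
        rw [res_res, res_res]
    rw [h2] at h1
    refine hQ (h1.down hM.1 hd' ?_)
    rintro ⟨a, b⟩
    obtain ⟨a', ha'⟩ := hf.1 a
    obtain ⟨b', hb'⟩ := hψ₁.1 b
    obtain ⟨g, hg1, hg2⟩ := Gp_surjective_pair (hsq.1.coprime_dvd_right (Dvd.intro u rfl)) a' b'
    refine ⟨g, Prod.ext ?_ ?_⟩
    · show f (res _ g) = a
      rw [hg1, ha']
    · show ψ₁ (res _ g) = b
      rw [hg2, hb']
  have h1 := card_le_of_cube (V := Gp u →* C)
    (fun b => push (π.prod (((ψ₁.comp ρ₁) * (b.comp ρ₂)).comp ρ)) x ∉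
      augI ℤ_[p] (G × C) ^ (D.r + 1)) (D.r + 1) (by
    intro v
    by_contra hcon
    push Not at hcon
    refine hfail ?_
    have h2 := alt_push π ((ψ₁.comp ρ₁).comp ρ) (fun i => ((v i).comp ρ₂).comp ρ) x
    rw [Fintype.card_fin, ← Finset.add_sum_erase _ _ (Finset.mem_univ (∅ : Finset (Fin (D.r + 1)))),
      Finset.card_empty, pow_zero, one_mul, Finset.prod_empty, mul_one] at h2
    refine (Ideal.add_mem_iff_left _ (Ideal.sum_mem _ fun y hy => ?_)).mp h2
    refine Ideal.mul_mem_left _ _ ?_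
    have h3 := hcon y (Finset.nonempty_iff_ne_empty.mpr (Finset.mem_erase.mp hy).1)
    have h4 : ((ψ₁.comp ρ₁) * ((∏ i ∈ y, v i).comp ρ₂)).comp ρ =
        (ψ₁.comp ρ₁).comp ρ * ∏ i ∈ y, ((v i).comp ρ₂).comp ρ := by
      refine MonoidHom.ext fun g => ?_
      rw [MonoidHom.comp_apply, MonoidHom.mul_apply, MonoidHom.mul_apply,
        MonoidHom.finsetProd_apply, MonoidHom.comp_apply (∏ i ∈ y, v i), MonoidHom.finsetProd_apply]
      rfl
    rwa [h4] at h3)
  refine h1.trans (Nat.mul_le_mul_left _ ?_)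
  refine Nat.card_le_card_of_injective (fun b => ⟨(ψ₁.comp ρ₁) * (b.1.comp ρ₂), hsurj1 b.1,
    fun h => b.2 ((hx _ _ (hsurj _ (hsurj1 b.1))).mp h)⟩) ?_
  intro b b' hb
  have h2 : (ψ₁.comp ρ₁) * (b.1.comp ρ₂) = (ψ₁.comp ρ₁) * (b'.1.comp ρ₂) :=
    congrArg Subtype.val hb
  have h3 : b.1.comp ρ₂ = b'.1.comp ρ₂ := mul_left_cancel h2
  exact Subtype.ext (comp_res_injective ht0 _ h3)

/-- the weighted sum of the fields for which Q1 fails -/
theorem wtG_B (hD : D.Valid p) {m₀ t : ℕ}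
    (hM : D.Adm p (m₀ * t)) (hI : D.Integral p (m₀ * t)) (hP : D.Pairing p (m₀ * t))
    {G : Type} [CommGroup G] {f : Gp m₀ →* G} (hf : IsField m₀ f)
    {C : Type} [CommGroup C] [Finite C] {n : ℕ} (hC : ∀ c : C, c ^ p ^ n = 1)
    {m₁ : ℕ} (hm₁ : m₁ ∣ t) {ψ₁ : Gp m₁ →* C} (hψ₁ : IsField m₁ ψ₁)
    (hQ : ¬ D.Q1At p (m₀ * m₁) ((f.comp (res (Dvd.intro m₁ rfl))).prod
      (ψ₁.comp (res (Dvd.intro_left m₀ rfl))))) {w : ℕ → ℝ}
    (hw : ∀ l, 0 ≤ w l) (hw' : ∀ l, w l ≤ 1) :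
    wt w m₁ * EP C w t ≤ (2 ^ (D.r + 1) - 1) * EP C w m₁ *
      ∑ m ∈ t.divisors, (NF C (fun m ψ => ¬ D.Q1At p (m₀ * m)
        ((f.comp (res (Dvd.intro m rfl))).prod (ψ.comp (res (Dvd.intro_left m₀ rfl))))) m : ℝ) *
          wt w m := by
  classical
  have hsqm := Nat.squarefree_mul_iff.mp hM.1
  have hsq := hsqm.2.2
  have hp2 := hD.ne_two
  set N : ℕ → ℕ := NF C (fun m ψ => ¬ D.Q1At p (m₀ * m)
        ((f.comp (res (Dvd.intro m rfl))).prod (ψ.comp (res (Dvd.intro_left m₀ rfl))))) with hN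
  set x : ℕ → ℝ := fun l => if l ∈ m₁.primeFactors then 1 else (Nat.card (Gp l →* C) : ℝ) with hx
  have hk0 : (0 : ℝ) ≤ 2 ^ (D.r + 1) - 1 := by
    have : (1 : ℝ) ≤ 2 ^ (D.r + 1) := one_le_pow₀ (by norm_num)
    linarith
  -- the estimate for the multiples of `m₁`
  have h1 : ∑ t' ∈ t.divisors.filter (fun t' => m₁ ∣ t'),
      mixc w t t' * ∏ l ∈ t'.primeFactors, x l ≤
      (2 ^ (D.r + 1) - 1) * ∑ t' ∈ t.divisors, mixc w t t' * ∑ m ∈ t'.divisors, (N m : ℝ) := by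
    rw [Finset.mul_sum, Finset.sum_filter]
    refine Finset.sum_le_sum fun t' ht' => ?_
    have hd := Nat.dvd_of_mem_divisors ht'
    have hmix := mixc_nonneg hw hw' t t'
    by_cases hmt : m₁ ∣ t'
    · rw [if_pos hmt]
      obtain ⟨u, rfl⟩ := hmt
      have hsq' := hsq.squarefree_of_dvd hd
      have hdm : m₀ * (m₁ * u) ∣ m₀ * t := Nat.mul_dvd_mul_left m₀ hd
      have hI' : D.Integral p (m₀ * (m₁ * u)) := fun m hm => hI m (hm.trans hdm)
      have hP' : D.Pairing p (m₀ * (m₁ * u)) := by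
        refine ⟨?_, fun m hm => hP.pow m (hm.trans hdm)⟩
        obtain ⟨n, hn, hn'⟩ := hP.ext
        exact ⟨n, hn, fun j => (hn' j).of_dvd hdm⟩
      have h2 := count_fail hD (hM.of_dvd hdm) hI' hP' hf hψ₁ hQ
      have hsqu := Nat.squarefree_mul_iff.mp hsq'
      have h3 : Nat.card {ψ : Gp (m₁ * u) →* C // Function.Surjective ψ ∧
          ¬ D.Q1At p (m₀ * (m₁ * u)) ((f.comp (res (Dvd.intro (m₁ * u) rfl))).prod
            (ψ.comp (res (Dvd.intro_left m₀ rfl))))} ≤ ∑ m ∈ (m₁ * u).divisors, N m := by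
        refine le_sum_NF hsq' fun ψ hψ => ?_
        obtain ⟨hs, hQ'⟩ := hψ
        obtain ⟨d, hd', f', hf', rfl⟩ := exists_field hsq'.ne_zero hs
        refine ⟨d, hd', f', hf', fun h => hQ' ?_, rfl⟩
        obtain ⟨e, he, g, hg, hgg, hgQ⟩ := h
        refine ⟨e, he.trans (Nat.mul_dvd_mul_left m₀ hd'), g, hg, ?_, hgQ⟩
        refine MonoidHom.ext fun y => ?_
        have h4 := DFunLike.congr_fun hgg (res (Nat.mul_dvd_mul_left m₀ hd') y)
        rw [MonoidHom.comp_apply, res_res] at h4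
        rw [MonoidHom.comp_apply, h4]
        refine Prod.ext ?_ ?_
        · show f (res _ (res _ y)) = f (res _ y)
          rw [res_res]
        · show f' (res _ (res _ y)) = f' (res _ (res _ y))
          rw [res_res, res_res]
      have h4 : ∏ l ∈ (m₁ * u).primeFactors, x l = (Nat.card (Gp u →* C) : ℝ) := by
        rw [hsqu.1.primeFactors_mul, Finset.prod_union hsqu.1.disjoint_primeFactors,
          card_hom_prod hp2 hC hsqu.2.2, Nat.cast_prod]
        have h5 : ∏ l ∈ m₁.primeFactors, x l = 1 :=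
          Finset.prod_eq_one fun l hl => if_pos hl
        rw [h5, one_mul]
        refine Finset.prod_congr rfl fun l hl => if_neg fun hl' => ?_
        exact Finset.disjoint_left.mp hsqu.1.disjoint_primeFactors hl' hl
      rw [h4]
      have h5 : (Nat.card (Gp u →* C) : ℝ) ≤
          (2 ^ (D.r + 1) - 1) * ∑ m ∈ (m₁ * u).divisors, (N m : ℝ) := by
        have h6 := h2.trans (Nat.mul_le_mul_left _ h3)
        have h7 : ((Nat.card (Gp u →* C) : ℕ) : ℝ) ≤
            (((2 ^ (D.r + 1) - 1) * ∑ m ∈ (m₁ * u).divisors, N m : ℕ) : ℝ) := by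
          exact_mod_cast h6
        rw [Nat.cast_mul, Nat.cast_sub Nat.one_le_two_pow] at h7
        push_cast at h7
        exact h7
      calc _ ≤ mixc w t (m₁ * u) * ((2 ^ (D.r + 1) - 1) *
            ∑ m ∈ (m₁ * u).divisors, (N m : ℝ)) := mul_le_mul_of_nonneg_left h5 hmix
        _ = _ := by ring
    · rw [if_neg hmt]
      exact mul_nonneg hk0 (mul_nonneg hmix (Finset.sum_nonneg fun m _ => Nat.cast_nonneg _))
  rw [mixG_mul hsq hm₁, ← mix_sum hsq] at h1
  have hsub : m₁.primeFactors ⊆ t.primeFactors := Nat.primeFactors_mono hm₁ hsq.ne_zero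
  have h2 : ∏ l ∈ m₁.primeFactors, w l * x l = wt w m₁ := by
    unfold wt
    refine Finset.prod_congr rfl fun l hl => ?_
    rw [hx]
    simp only [if_pos hl, mul_one]
  have h3 : ∏ l ∈ t.primeFactors \ m₁.primeFactors, (1 - w l + w l * x l) =
      ∏ l ∈ t.primeFactors \ m₁.primeFactors, (1 - w l + w l * (Nat.card (Gp l →* C) : ℝ)) := by
    refine Finset.prod_congr rfl fun l hl => ?_
    rw [hx]
    simp only [if_neg (Finset.mem_sdiff.mp hl).2]
  rw [h2, h3] at h1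
  have h4 : EP C w t = (∏ l ∈ t.primeFactors \ m₁.primeFactors,
      (1 - w l + w l * (Nat.card (Gp l →* C) : ℝ))) * EP C w m₁ := by
    unfold EP
    rw [← Finset.prod_sdiff hsub]
  have h5 := one_le_EP (C := C) hw m₁
  have h6 := mul_le_mul_of_nonneg_left h1 (show 0 ≤ EP C w m₁ by linarith)
  rw [h4]
  calc _ = EP C w m₁ * (wt w m₁ * ∏ l ∈ t.primeFactors \ m₁.primeFactors,
        (1 - w l + w l * (Nat.card (Gp l →* C) : ℝ))) := by ring
    _ ≤ _ := h6
    _ = _ := by ring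

end MTData

end MTate
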