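import Mathlib
import Pool.Agent.Lib.MP_5deabe_nt_DN.Main2
import Pool.Agent.Lib.MP_5deabe_nt_DN.WtB

/-!
# The density of the fields for which Q1 holds: all fields with a given group
-/

namespace MTate

open MonoidAlgebra

variable {p : ℕ} [hp : Fact p.Prime] {D : MTData}

section
variable {C : Type} [CommGroup C] [Finite C]

/-- the series converges -/
theorem summableG (hp2 : p ≠ 2) [Nontrivial C] {n : ℕ} (hC : ∀ c : C, c ^ p ^ n = 1)
    {L : ℕ → Prop} (hL : IsLvl L) (h1 : L 1)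
    (P : ∀ m, (Gp m →* C) → Prop) {s : ℝ} (hs : 1 < s) :
    Summable fun m : ℕ => (NF C (fun m ψ => L m ∧ P m ψ) m : ℝ) * (m : ℝ) ^ (-s) := by
  have hsum : Summable (ws s) := by
    unfold ws
    exact Real.summable_nat_rpow.mpr (by linarith)
  refine (tsum_bound hL (b := fun _ => 0) (K := 0)
    (c := Real.exp (Nat.card C * ∑' l, ws s l)) (fun m hm => ?_) (fun m => ?_) (fun _ => le_rfl)
    summable_zero le_rfl h1 fun t ht _ => ?_).1
  · rw [NF_zero P hm, Nat.cast_zero, zero_mul]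
  · exact mul_nonneg (Nat.cast_nonneg _) (Real.rpow_nonneg (Nat.cast_nonneg m) _)
  · rw [sum_div hL P s ht, zero_mul, zero_add]
    have h2 := wtG_all_le hp2 hC (hL.sq t ht) (ws_nonneg s) (ws_le_one (by linarith)) P
    have h3 : EP C (ws s) t ≤ Real.exp (∑ l ∈ t.primeFactors, Nat.card C * ws s l) := by
      unfold EP
      rw [Real.exp_sum]
      refine Finset.prod_le_prod (fun l hl => ?_) fun l hl => ?_
      · have := one_le_local (C := C) (ws_nonneg s) (Nat.prime_of_mem_primeFactors hl).ne_zero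
        linarith
      · have e1 := ws_nonneg s l
        have e2 := Real.add_one_le_exp ((Nat.card C : ℝ) * ws s l)
        have e3 : (Nat.card (Gp l →* C) : ℝ) ≤ Nat.card C := by
          exact_mod_cast card_hom_le (C := C) (Nat.prime_of_mem_primeFactors hl)
        have e4 := mul_le_mul_of_nonneg_left e3 e1
        linarith
    have h4 : ∑ l ∈ t.primeFactors, (Nat.card C : ℝ) * ws s l ≤ Nat.card C * ∑' l, ws s l := by
      rw [← Finset.mul_sum]
      exact mul_le_mul_of_nonneg_left (hsum.sum_le_tsum _ fun l _ => ws_nonneg s l)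
        (Nat.cast_nonneg _)
    have h5 := Real.exp_le_exp.mpr h4
    linarith

end

namespace MTData

theorem isLvlG {m₀ : ℕ} (h₀ : D.Adm p m₀) : IsLvl fun m => D.Adm p (m₀ * m) := by
  have h := isLvl (n := 0) h₀
  have e : D.Lvl p 0 m₀ = fun m => D.Adm p (m₀ * m) := by
    funext m
    simp [MTData.Lvl]
  rwa [e] at h

/-- **a positive proportion** -/
theorem densG_A (hD : D.Valid p) (hr : 1 ≤ D.r)
    (hI : ∀ m, D.Adm p m → D.Integral p m) (hP : ∀ m, D.Adm p m → D.Pairing p m)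
    {m₀ : ℕ} (h₀ : D.Adm p m₀) {G : Type} [CommGroup G] {f : Gp m₀ →* G} (hf : IsField m₀ f)
    {C : Type} [CommGroup C] [Finite C] [Nontrivial C] {n : ℕ} (hC : ∀ c : C, c ^ p ^ n = 1)
    {B : ℕ} (hB : B = D.r * Nat.card G * Nat.card C ^ 2 * p ^ (n * D.r)) {s : ℝ} (hs : 1 < s)
    (hdiv : 2 * (B : ℝ) + 1 < ∑' l : Nat.Primes, (Set.indicator
      {l : ℕ | D.Adm p (m₀ * l) ∧ p ^ n ∣ l - 1} (fun l => (l : ℝ) ^ (-s)) l)) :
    D.Q1 p m₀ f ↔ 1 + DS (fun m => D.Adm p (m₀ * m)) C (fun _ _ => True) s ≤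
      2 ^ (B + 1) * DS (fun m => D.Adm p (m₀ * m)) C (fun m ψ => D.Q1At p (m₀ * m)
        ((f.comp (res (Dvd.intro m rfl))).prod (ψ.comp (res (Dvd.intro_left m₀ rfl))))) s := by
  classical
  have hL := isLvlG h₀
  have hp2 := hD.ne_two
  have hone : D.Adm p (m₀ * 1) := by rwa [mul_one]
  have hsm := fun P => summableG hp2 hC hL hone P hs
  constructor
  · intro hQ
    -- a level with a large sum
    obtain ⟨t₀, ht₀, hS⟩ : ∃ t₀, D.Adm p (m₀ * t₀) ∧
        2 * (B : ℝ) + 1 ≤ ∑ l ∈ t₀.primeFactors.filter (fun l => p ^ n ∣ l - 1), ws s l := by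
      have hsum : Summable fun l : Nat.Primes => (Set.indicator
          {l : ℕ | D.Adm p (m₀ * l) ∧ p ^ n ∣ l - 1} (fun l => (l : ℝ) ^ (-s)) l) := by
        have h1 : Summable fun l : ℕ => (l : ℝ) ^ (-s) :=
          Real.summable_nat_rpow.mpr (by linarith)
        exact (h1.indicator _).comp_injective Nat.Primes.coe_nat_injective
      by_contra hcon
      push Not at hcon
      refine absurd hdiv (not_lt.mpr (hsum.tsum_le_of_sum_le fun F => ?_))
      set F' : Finset ℕ := (F.filter fun l : Nat.Primes =>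
        D.Adm p (m₀ * l) ∧ p ^ n ∣ (l : ℕ) - 1).image (fun l : Nat.Primes => (l : ℕ)) with hF'
      obtain ⟨t, ht, ht'⟩ := hL.dir F' (by
        intro l hl
        obtain ⟨l', hl', rfl⟩ := Finset.mem_image.mp hl
        exact (Finset.mem_filter.mp hl').2.1)
      have h2 : ∑ l ∈ F, (Set.indicator {l : ℕ | D.Adm p (m₀ * l) ∧ p ^ n ∣ l - 1}
          (fun l => (l : ℝ) ^ (-s)) (l : ℕ)) = ∑ l ∈ F', ws s l := by
        rw [hF', Finset.sum_image (g := fun l : Nat.Primes => (l : ℕ))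
          (fun a _ b _ h => Nat.Primes.coe_nat_injective h), Finset.sum_filter]
        refine Finset.sum_congr rfl fun l _ => ?_
        rw [Set.indicator_apply]
        rfl
      rw [h2]
      refine le_trans (Finset.sum_le_sum_of_subset_of_nonneg ?_ fun l _ _ => ws_nonneg s l)
        (hcon t ht).le
      intro l hl
      obtain ⟨l', hl', rfl⟩ := Finset.mem_image.mp hl
      exact Finset.mem_filter.mpr ⟨Nat.mem_primeFactors.mpr ⟨l'.2, ht' _ hl, (hL.sq t ht).ne_zero⟩,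
        (Finset.mem_filter.mp hl').2.2⟩
    have h1 := (tsum_bound hL (a := fun m : ℕ => (NF C (fun m _ => D.Adm p (m₀ * m) ∧ True) m : ℝ) *
        (m : ℝ) ^ (-s)) (b := fun m : ℕ => (NF C (fun m ψ => D.Adm p (m₀ * m) ∧
          D.Q1At p (m₀ * m) ((f.comp (res (Dvd.intro m rfl))).prod
            (ψ.comp (res (Dvd.intro_left m₀ rfl))))) m : ℝ) * (m : ℝ) ^ (-s))
      (K := 2 ^ (B + 1)) (c := -1) (fun m hm => ?_)
      (DS_nonneg (fun m => D.Adm p (m₀ * m)) _ _ s) (DS_nonneg (fun m => D.Adm p (m₀ * m)) _ _ s)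
      (hsm _) (by positivity) ht₀ fun t ht htd => ?_).2
    · unfold DS
      linarith
    · rw [NF_zero (L := fun m => D.Adm p (m₀ * m)) (fun _ _ => True) hm, Nat.cast_zero, zero_mul]
    · rw [sum_div hL (fun _ _ => True) s ht, sum_div hL _ s ht]
      have e1 := wtG_all_le hp2 hC (hL.sq t ht) (ws_nonneg s) (ws_le_one (by linarith))
        (fun _ _ => True)
      have e2 := wtG_A hD hr ht (hI _ ht) (hP _ ht) hf hQ hC hB (ws_nonneg s)
        (ws_le_one (by linarith)) (hS.trans (Finset.sum_le_sum_of_subset_of_nonneg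
          (Finset.filter_subset_filter _ (Nat.primeFactors_mono htd (hL.sq t ht).ne_zero))
            fun l _ _ => ws_nonneg s l))
      linarith
  · intro h
    have h1 : 0 ≤ DS (fun m => D.Adm p (m₀ * m)) C (fun _ _ => True) s :=
      tsum_nonneg (DS_nonneg _ _ _ s)
    have h2 : 0 < DS (fun m => D.Adm p (m₀ * m)) C (fun m ψ => D.Q1At p (m₀ * m)
        ((f.comp (res (Dvd.intro m rfl))).prod (ψ.comp (res (Dvd.intro_left m₀ rfl))))) s := by
      by_contra hcon
      have h3 : (2 : ℝ) ^ (B + 1) * DS (fun m => D.Adm p (m₀ * m)) C (fun m ψ => D.Q1At p (m₀ * m)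
        ((f.comp (res (Dvd.intro m rfl))).prod (ψ.comp (res (Dvd.intro_left m₀ rfl))))) s ≤ 0 :=
        mul_nonpos_of_nonneg_of_nonpos (by positivity) (not_lt.mp hcon)
      linarith
    obtain ⟨m, hm⟩ : ∃ m : ℕ, (NF C (fun m ψ => D.Adm p (m₀ * m) ∧ D.Q1At p (m₀ * m)
        ((f.comp (res (Dvd.intro m rfl))).prod (ψ.comp (res (Dvd.intro_left m₀ rfl))))) m : ℝ) *
          (m : ℝ) ^ (-s) ≠ 0 := by
      by_contra hcon
      push Not at hcon
      unfold DS at h2
      simp only [hcon, tsum_zero, lt_irrefl] at h2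
    have hm' : NF C (fun m ψ => D.Adm p (m₀ * m) ∧ D.Q1At p (m₀ * m)
        ((f.comp (res (Dvd.intro m rfl))).prod (ψ.comp (res (Dvd.intro_left m₀ rfl))))) m ≠ 0 := by
      intro h0
      rw [h0, Nat.cast_zero, zero_mul] at hm
      exact hm rfl
    obtain ⟨⟨ψ, hψ, hlv, hQ⟩⟩ := (Nat.card_pos_iff.mp (Nat.pos_of_ne_zero hm')).1
    obtain ⟨d, hd, f', hf', hff, hQ'⟩ := hQ
    have hfG : Finite G := by
      have := finite_Gp h₀.1.ne_zero
      exact Finite.of_surjective f hf.1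
    obtain ⟨x, hx⟩ := exists_defect' hD hlv (hI _ hlv) (hP _ hlv)
    refine (hx m₀ (Dvd.intro m rfl) G f hf).mpr ?_
    have h1 := (hx d hd _ f' hf').mp hQ'
    rw [hff] at h1
    have h2 := push_mem (MonoidHom.fst G C) h1
    rw [push_push] at h2
    exact h2

/-- **the lower bound for the fields without Q1** -/
theorem densG_B (hD : D.Valid p)
    (hI : ∀ m, D.Adm p m → D.Integral p m) (hP : ∀ m, D.Adm p m → D.Pairing p m)
    {m₀ : ℕ} (h₀ : D.Adm p m₀) {G : Type} [CommGroup G] {f : Gp m₀ →* G} (hf : IsField m₀ f)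
    {C : Type} [CommGroup C] [Finite C] [Nontrivial C] {n : ℕ} (hC : ∀ c : C, c ^ p ^ n = 1)
    {m₁ : ℕ} (h₁ : D.Adm p (m₀ * m₁)) {ψ₁ : Gp m₁ →* C} (hψ₁ : IsField m₁ ψ₁)
    (hQ : ¬ D.Q1At p (m₀ * m₁) ((f.comp (res (Dvd.intro m₁ rfl))).prod
      (ψ₁.comp (res (Dvd.intro_left m₀ rfl))))) {s : ℝ} (hs : 1 < s) :
    1 + DS (fun m => D.Adm p (m₀ * m)) C (fun _ _ => True) s ≤
      (2 ^ (D.r + 1) - 1) * (∏ l ∈ m₁.primeFactors, ((l : ℝ) ^ s + Nat.card C - 1)) *
        DS (fun m => D.Adm p (m₀ * m)) C (fun m ψ => ¬ D.Q1At p (m₀ * m)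
          ((f.comp (res (Dvd.intro m rfl))).prod (ψ.comp (res (Dvd.intro_left m₀ rfl))))) s := by
  classical
  have hL := isLvlG h₀
  have hp2 := hD.ne_two
  have hone : D.Adm p (m₀ * 1) := by rwa [mul_one]
  have hk0 : (0 : ℝ) ≤ 2 ^ (D.r + 1) - 1 := by
    have : (1 : ℝ) ≤ 2 ^ (D.r + 1) := one_le_pow₀ (by norm_num)
    linarith
  have hCp : (1 : ℝ) ≤ Nat.card C := by
    exact_mod_cast (Nat.card_pos : 0 < Nat.card C)
  have hfac : ∀ l ∈ m₁.primeFactors, 0 ≤ (l : ℝ) ^ s + Nat.card C - 1 := fun l _ => by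
    have := Real.rpow_nonneg (Nat.cast_nonneg l : (0 : ℝ) ≤ (l : ℝ)) s
    linarith
  have hsq₁ := hL.sq m₁ h₁
  have hm0 : (0 : ℝ) < m₁ := by
    exact_mod_cast Nat.pos_of_ne_zero hsq₁.ne_zero
  have h1 := (tsum_bound hL (a := fun m : ℕ => (NF C (fun m _ => D.Adm p (m₀ * m) ∧ True) m : ℝ) *
      (m : ℝ) ^ (-s)) (b := fun m : ℕ => (NF C (fun m ψ => D.Adm p (m₀ * m) ∧
        ¬ D.Q1At p (m₀ * m) ((f.comp (res (Dvd.intro m rfl))).prod
          (ψ.comp (res (Dvd.intro_left m₀ rfl))))) m : ℝ) * (m : ℝ) ^ (-s))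
    (K := (2 ^ (D.r + 1) - 1) * (∏ l ∈ m₁.primeFactors, ((l : ℝ) ^ s + Nat.card C - 1)))
    (c := -1) (fun m hm => ?_)
    (DS_nonneg (fun m => D.Adm p (m₀ * m)) _ _ s) (DS_nonneg (fun m => D.Adm p (m₀ * m)) _ _ s)
    (summableG hp2 hC hL hone _ hs) (mul_nonneg hk0 (Finset.prod_nonneg hfac)) h₁
      fun t ht htd => ?_).2
  · unfold DS
    linarith
  · rw [NF_zero (L := fun m => D.Adm p (m₀ * m)) (fun _ _ => True) hm, Nat.cast_zero, zero_mul]
  · rw [sum_div hL (fun _ _ => True) s ht, sum_div hL _ s ht]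
    have e1 := wtG_all_le hp2 hC (hL.sq t ht) (ws_nonneg s) (ws_le_one (by linarith))
      (fun _ _ => True)
    have e2 := wtG_B hD ht (hI _ ht) (hP _ ht) hf hC htd hψ₁ hQ (ws_nonneg s)
      (ws_le_one (by linarith))
    set S := ∑ m ∈ t.divisors, (NF C (fun m ψ => ¬ D.Q1At p (m₀ * m)
      ((f.comp (res (Dvd.intro m rfl))).prod (ψ.comp (res (Dvd.intro_left m₀ rfl))))) m : ℝ) *
        wt (ws s) m with hS
    have hS0 : 0 ≤ S := Finset.sum_nonneg fun m _ =>
      mul_nonneg (Nat.cast_nonneg _) (wt_nonneg (ws_nonneg s) m)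
    rw [wt_ws s hsq₁] at e2
    have e3 : (m₁ : ℝ) ^ s * (m₁ : ℝ) ^ (-s) = 1 := by
      rw [← Real.rpow_add hm0, add_neg_cancel, Real.rpow_zero]
    have e4 : (m₁ : ℝ) ^ s * EP C (ws s) m₁ ≤
        ∏ l ∈ m₁.primeFactors, ((l : ℝ) ^ s + Nat.card C - 1) := by
      have e5 : (m₁ : ℝ) ^ s = ∏ l ∈ m₁.primeFactors, (l : ℝ) ^ s := by
        rw [Real.finsetProd_rpow _ _ fun l _ => Nat.cast_nonneg l, ← Nat.cast_prod,
          Nat.prod_primeFactors_of_squarefree hsq₁]
      rw [e5]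
      unfold EP
      rw [← Finset.prod_mul_distrib]
      refine Finset.prod_le_prod (fun l hl => ?_) fun l hl => ?_
      · have hl' := Nat.prime_of_mem_primeFactors hl
        have := one_le_local (C := C) (ws_nonneg s) hl'.ne_zero
        exact mul_nonneg (Real.rpow_nonneg (Nat.cast_nonneg l) _) (by linarith)
      · have hl' := Nat.prime_of_mem_primeFactors hl
        have hl0 : (0 : ℝ) < l := by exact_mod_cast hl'.pos
        have e6 : (l : ℝ) ^ s * ws s l = 1 := by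
          unfold ws
          rw [← Real.rpow_add hl0, add_neg_cancel, Real.rpow_zero]
        have e7 : (Nat.card (Gp l →* C) : ℝ) ≤ Nat.card C := by
          exact_mod_cast card_hom_le (C := C) hl'
        calc (l : ℝ) ^ s * (1 - ws s l + ws s l * (Nat.card (Gp l →* C) : ℝ)) =
              (l : ℝ) ^ s - (l : ℝ) ^ s * ws s l +
                ((l : ℝ) ^ s * ws s l) * (Nat.card (Gp l →* C) : ℝ) := by ring
          _ ≤ _ := by
            rw [e6]
            linarith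
    have e8 : EP C (ws s) t ≤ (2 ^ (D.r + 1) - 1) *
        (∏ l ∈ m₁.primeFactors, ((l : ℝ) ^ s + Nat.card C - 1)) * S := by
      have e9 := mul_le_mul_of_nonneg_left e2 (Real.rpow_nonneg hm0.le s)
      calc EP C (ws s) t = (m₁ : ℝ) ^ s * (m₁ : ℝ) ^ (-s) * EP C (ws s) t := by
            rw [e3, one_mul]
        _ = (m₁ : ℝ) ^ s * ((m₁ : ℝ) ^ (-s) * EP C (ws s) t) := by ring
        _ ≤ _ := e9
        _ = (2 ^ (D.r + 1) - 1) * ((m₁ : ℝ) ^ s * EP C (ws s) m₁) * S := by ring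
        _ ≤ _ := mul_le_mul_of_nonneg_right (mul_le_mul_of_nonneg_left e4 hk0) hS0
    linarith

end MTData

end MTate
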