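import Mathlib
import Pool.Agent.Lib.MP_5deabe_nt_DN.MainG

/-!
# The density of the fields for which Q1 holds: the absolute case
-/

namespace MTate

open MonoidAlgebra

variable {p : ℕ} [hp : Fact p.Prime] {D : MTData}

theorem DS_congr {L L' : ℕ → Prop} {C : Type} [CommGroup C] {P P' : ∀ m, (Gp m →* C) → Prop}
    (h : ∀ m (ψ : Gp m →* C), IsField m ψ → (L m ∧ P m ψ ↔ L' m ∧ P' m ψ)) (s : ℝ) :
    DS L C P s = DS L' C P' s := by
  unfold DS
  refine tsum_congr fun m => ?_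
  congr 2
  unfold NF
  exact Nat.card_congr (Equiv.subtypeEquivRight fun ψ => and_congr_right fun hψ => h m ψ hψ)

theorem Gp_one_eq (x : Gp 1) : x = 1 := by
  obtain ⟨z, rfl⟩ := toGp_surjective 1 x
  rw [Subsingleton.elim z 1, map_one]

/-- the ramified primes of a cyclic field of degree `p` -/
theorem IsField.cyc_dvd {m : ℕ} (hsq : Squarefree m) {ψ : Gp m →* Cpn p 1} (hψ : IsField m ψ) :
    ∀ l ∈ m.primeFactors, p ^ 1 ∣ l - 1 := by
  have hfC := Cpn_finite (p := p) 1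
  have hcard : Nat.card (Cpn p 1) = p ^ 1 := Cpn_card (p := p) 1
  have hcp : (Nat.card (Cpn p 1)).Prime := by
    rw [hcard, pow_one]
    exact hp.out
  have htr : TotRam m ψ := by
    intro d l h hl
    have : Fact (Nat.card (Cpn p 1)).Prime := ⟨hcp⟩
    rcases Subgroup.eq_bot_or_eq_top_of_prime_card
      ((res (m := m) (d := d) ⟨l, h⟩).ker.map ψ) with h1 | h1
    · exfalso
      have h2 : (res (m := m) (d := d) ⟨l, h⟩).ker ≤ ψ.ker := by
        intro x hx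
        have h3 : ψ x ∈ (res (m := m) (d := d) ⟨l, h⟩).ker.map ψ := ⟨x, hx, rfl⟩
        rw [h1, Subgroup.mem_bot] at h3
        exact MonoidHom.mem_ker.mpr h3
      have h3 := hψ.2 d ⟨l, h⟩ h2
      rw [← h3] at h
      have hd0 : d ≠ 0 := by
        rw [h3]
        exact hsq.ne_zero
      have h4 : l = 1 := by
        have h5 : d * 1 = d * l := by rw [mul_one]; exact h
        exact (Nat.eq_of_mul_eq_mul_left (Nat.pos_of_ne_zero hd0) h5).symm
      exact hl.one_lt.ne' h4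
    · exact h1
  exact totRam_dvd hsq le_rfl hcard htr

namespace MTData

/-- the compositum of `ℚ` and `F_ψ` -/
theorem q1At_one_iff (hD : D.Valid p) {m : ℕ} (hM : D.Adm p (1 * m))
    (hI : D.Integral p (1 * m)) (hP : D.Pairing p (1 * m)) {C : Type} [CommGroup C] [Finite C]
    {ψ : Gp m →* C} (hψ : IsField m ψ) :
    D.Q1At p (1 * m) (((MonoidHom.id (Gp 1)).comp (res (Dvd.intro m rfl))).prod
      (ψ.comp (res (Dvd.intro_left 1 rfl)))) ↔ D.Q1 p m ψ := by
  have hf1 := finite_Gp one_ne_zero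
  obtain ⟨x, hx⟩ := exists_defect' hD hM hI hP
  constructor
  · rintro ⟨d, hd, f', hf', hff, hQ⟩
    refine (hx m (Dvd.intro_left 1 rfl) C ψ hψ).mpr ?_
    have h1 := (hx d hd _ f' hf').mp hQ
    rw [hff] at h1
    have h2 := push_mem (MonoidHom.snd (Gp 1) C) h1
    rw [push_push] at h2
    exact h2
  · intro hQ
    have h1 := (hx m (Dvd.intro_left 1 rfl) C ψ hψ).mp hQ
    have h2 := push_mem (MonoidHom.inr (Gp 1) C) h1
    rw [push_push] at h2
    have hfld : IsField m ((MonoidHom.inr (Gp 1) C).comp ψ) := by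
      refine ⟨?_, fun d hd hk => hψ.2 d hd fun y hy => ?_⟩
      · rintro ⟨a, b⟩
        obtain ⟨g, rfl⟩ := hψ.1 b
        exact ⟨g, Prod.ext (Gp_one_eq a).symm rfl⟩
      · have h3 := MonoidHom.mem_ker.mp (hk hy)
        exact MonoidHom.mem_ker.mpr (congrArg Prod.snd h3)
    refine ⟨m, Dvd.intro_left 1 rfl, (MonoidHom.inr (Gp 1) C).comp ψ, hfld, ?_, ?_⟩
    · refine MonoidHom.ext fun y => Prod.ext ?_ rfl
      exact (Gp_one_eq _).symm
    · exact (hx m (Dvd.intro_left 1 rfl) _ _ hfld).mpr h2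

theorem adm_one : D.Adm p 1 :=
  ⟨squarefree_one, Nat.coprime_one_left _, Nat.coprime_one_right _, fun l hl => by simp at hl⟩

/-- **the lower bound for the fields with group `C` without Q1** -/
theorem dens_fail (hD : D.Valid p)
    (hI : ∀ m, D.Adm p m → D.Integral p m) (hP : ∀ m, D.Adm p m → D.Pairing p m)
    {C : Type} [CommGroup C] [Finite C] [Nontrivial C] {n : ℕ} (hC : ∀ c : C, c ^ p ^ n = 1)
    {m₁ : ℕ} (h₁ : D.Adm p m₁) {ψ₁ : Gp m₁ →* C} (hψ₁ : IsField m₁ ψ₁)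
    (hQ : ¬ D.Q1 p m₁ ψ₁) {s : ℝ} (hs : 1 < s) :
    1 + DS (D.Adm p) C (fun _ _ => True) s ≤
      (2 ^ (D.r + 1) - 1) * (∏ l ∈ m₁.primeFactors, ((l : ℝ) ^ s + Nat.card C - 1)) *
        DS (D.Adm p) C (fun m ψ => ¬ D.Q1 p m ψ) s := by
  have h₀ : D.Adm p 1 := adm_one
  have h1 : D.Adm p (1 * m₁) := by rwa [one_mul]
  have key := densG_B hD hI hP h₀ one_isField hC h1 hψ₁
    (fun h => hQ ((q1At_one_iff hD h1 (hI _ h1) (hP _ h1) hψ₁).mp h)) hs
  have e1 : DS (fun m => D.Adm p (1 * m)) C (fun _ _ => True) s =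
      DS (D.Adm p) C (fun _ _ => True) s :=
    DS_congr (fun m ψ _ => by rw [one_mul]) s
  have e2 : DS (fun m => D.Adm p (1 * m)) C (fun m ψ => ¬ D.Q1At p (1 * m)
        (((MonoidHom.id (Gp 1)).comp (res (Dvd.intro m rfl))).prod
          (ψ.comp (res (Dvd.intro_left 1 rfl))))) s =
      DS (D.Adm p) C (fun m ψ => ¬ D.Q1 p m ψ) s := by
    refine DS_congr (fun m ψ hψ => ?_) s
    constructor
    · rintro ⟨h2, h3⟩
      refine ⟨by rwa [one_mul] at h2, fun h => h3 ?_⟩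
      exact (q1At_one_iff hD h2 (hI _ h2) (hP _ h2) hψ).mpr h
    · rintro ⟨h2, h3⟩
      have h4 : D.Adm p (1 * m) := by rwa [one_mul]
      exact ⟨h4, fun h => h3 ((q1At_one_iff hD h4 (hI _ h4) (hP _ h4) hψ).mp h)⟩
  rw [e1, e2] at key
  exact key

/-- **Q1 for the fields with group `C`** -/
theorem all_iff_dens (hD : D.Valid p)
    (hI : ∀ m, D.Adm p m → D.Integral p m) (hP : ∀ m, D.Adm p m → D.Pairing p m)
    {C : Type} [CommGroup C] [Finite C] [Nontrivial C] {n : ℕ} (hC : ∀ c : C, c ^ p ^ n = 1) :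
    (∀ m, D.Adm p m → ∀ ψ : Gp m →* C, IsField m ψ → D.Q1 p m ψ) ↔
    ∀ ε : ℝ, 0 < ε → ∃ s : ℝ, 1 < s ∧ s ≤ 2 ∧
      DS (D.Adm p) C (fun m ψ => ¬ D.Q1 p m ψ) s ≤
        ε * (1 + DS (D.Adm p) C (fun _ _ => True) s) := by
  constructor
  · intro h ε hε
    refine ⟨2, by norm_num, le_rfl, ?_⟩
    have h1 : DS (D.Adm p) C (fun m ψ => ¬ D.Q1 p m ψ) 2 = 0 := by
      unfold DS
      have h2 : ∀ m : ℕ, (NF C (fun m ψ => D.Adm p m ∧ ¬ D.Q1 p m ψ) m : ℝ) *
          (m : ℝ) ^ (-(2 : ℝ)) = 0 := by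
        intro m
        have h3 : NF C (fun m ψ => D.Adm p m ∧ ¬ D.Q1 p m ψ) m = 0 := by
          unfold NF
          have : IsEmpty {ψ : Gp m →* C // IsField m ψ ∧ (D.Adm p m ∧ ¬ D.Q1 p m ψ)} :=
            ⟨fun ψ => ψ.2.2.2 (h m ψ.2.2.1 ψ.1 ψ.2.1)⟩
          exact Nat.card_of_isEmpty
        rw [h3, Nat.cast_zero, zero_mul]
      rw [tsum_congr h2, tsum_zero]
    rw [h1]
    exact mul_nonneg hε.le (add_nonneg zero_le_one (tsum_nonneg (DS_nonneg _ _ _ 2)))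
  · intro h m₁ h₁ ψ₁ hψ₁
    by_contra hQ
    have hCp : (1 : ℝ) ≤ Nat.card C := by
      exact_mod_cast (Nat.card_pos : 0 < Nat.card C)
    have hk0 : (0 : ℝ) < 2 ^ (D.r + 1) - 1 := by
      have : (1 : ℝ) < 2 ^ (D.r + 1) := one_lt_pow₀ (by norm_num) (Nat.succ_ne_zero _)
      linarith
    set K : ℝ := (2 ^ (D.r + 1) - 1) *
      (∏ l ∈ m₁.primeFactors, ((l : ℝ) ^ (2 : ℝ) + Nat.card C - 1)) with hK
    have hKpos : 0 < K := by
      refine mul_pos hk0 (Finset.prod_pos fun l hl => ?_)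
      have hl0 : (0 : ℝ) < l := by
        exact_mod_cast (Nat.prime_of_mem_primeFactors hl).pos
      have := Real.rpow_pos_of_pos hl0 2
      linarith
    obtain ⟨s, hs, hs2, hle⟩ := h (1 / (2 * K)) (by positivity)
    have h1 := dens_fail hD hI hP hC h₁ hψ₁ hQ hs
    set Z := DS (D.Adm p) C (fun _ _ => True) s with hZ
    have hZ0 : 0 ≤ Z := tsum_nonneg (DS_nonneg _ _ _ s)
    have hF0 : 0 ≤ DS (D.Adm p) C (fun m ψ => ¬ D.Q1 p m ψ) s :=
      tsum_nonneg (DS_nonneg _ _ _ s)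
    have h2 : (2 ^ (D.r + 1) - 1) *
        (∏ l ∈ m₁.primeFactors, ((l : ℝ) ^ s + Nat.card C - 1)) ≤ K := by
      refine mul_le_mul_of_nonneg_left (Finset.prod_le_prod (fun l hl => ?_) fun l hl => ?_) hk0.le
      · have := Real.rpow_nonneg (Nat.cast_nonneg l : (0 : ℝ) ≤ (l : ℝ)) s
        linarith
      · have hl1 : (1 : ℝ) ≤ l := by
          exact_mod_cast (Nat.prime_of_mem_primeFactors hl).one_lt.le
        have := Real.rpow_le_rpow_of_exponent_le hl1 hs2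
        linarith
    have h3 : 1 + Z ≤ K * (1 / (2 * K) * (1 + Z)) :=
      h1.trans ((mul_le_mul_of_nonneg_right h2 hF0).trans
        (mul_le_mul_of_nonneg_left hle hKpos.le))
    have h4 : K * (1 / (2 * K) * (1 + Z)) = (1 + Z) / 2 := by
      field_simp
    rw [h4] at h3
    linarith

/-- **Q1 in terms of densities** -/
theorem q1_iff_dens (hD : D.Valid p)
    (hI : ∀ m, D.Adm p m → D.Integral p m) (hP : ∀ m, D.Adm p m → D.Pairing p m) :
    (∀ m, D.Adm p m → ∀ (G : Type) [CommGroup G] (f : Gp m →* G), IsField m f → D.Q1 p m f) ↔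
    (∀ (G : Type) [CommGroup G] (f : Gp 1 →* G), IsField 1 f → D.Q1 p 1 f) ∧
    ∀ (C : Type) [CommGroup C] [Finite C] [Nontrivial C], IsPGroup p C →
      ∀ ε : ℝ, 0 < ε → ∃ s : ℝ, 1 < s ∧ s ≤ 2 ∧
        DS (D.Adm p) C (fun m ψ => ¬ D.Q1 p m ψ) s ≤
          ε * (1 + DS (D.Adm p) C (fun _ _ => True) s) := by
  have hexp : ∀ (C : Type) [CommGroup C] [Finite C], IsPGroup p C →
      ∃ n : ℕ, ∀ c : C, c ^ p ^ n = 1 := by
    intro C _ _ hpg
    obtain ⟨n, hn⟩ := IsPGroup.iff_card.mp hpg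
    refine ⟨n, fun c => ?_⟩
    rw [← hn]
    exact pow_card_eq_one'
  constructor
  · intro h
    refine ⟨h 1 adm_one, fun C _ _ _ hpg => ?_⟩
    obtain ⟨n, hC⟩ := hexp C hpg
    exact (all_iff_dens hD hI hP hC).mp fun m hm ψ hψ => h m hm C ψ hψ
  · rintro ⟨h1, h2⟩ M hM G _ f hf
    have star : ∀ m, m ∣ M → ∀ (G : Type) [CommGroup G] (f : Gp m →* G), IsField m f →
        (∃ n, Nat.card G = p ^ n) → D.Q1 p m f := by
      intro m hm G _ f hf hcard
      obtain ⟨n, hn⟩ := hcard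
      have hA := hM.of_dvd hm
      have hfG : Finite G := by
        have := finite_Gp hA.1.ne_zero
        exact Finite.of_surjective f hf.1
      rcases subsingleton_or_nontrivial G with hS | hN
      · have hm1 : 1 = m := by
          refine hf.2 1 (one_dvd m) fun y _ => ?_
          exact Subsingleton.elim _ _
        subst hm1
        exact h1 G f hf
      · have hpg : IsPGroup p G := IsPGroup.of_card hn
        obtain ⟨k, hC⟩ := hexp G hpg
        exact (all_iff_dens hD hI hP hC).mpr (h2 G hpg) m hA f hf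
    refine (reduction hD hM).mpr ⟨hI M hM, ?_, ?_⟩ M dvd_rfl G f hf
    · intro m hm _ G _ f hf hcard _
      exact star m hm G f hf hcard
    · intro _ m hm hm1 _ n hn hdiv
      have hsq := hM.1.squarefree_of_dvd hm
      obtain ⟨c, hc1, hc2, hc3, hc4, hc5⟩ := exists_gens (p := p) hsq
      obtain ⟨φ, hφ, htr, hs⟩ := exists_totRam (u := fun _ => 1) hD.ne_two hsq.ne_zero hc3
        (fun i => Nat.coprime_one_right p) (hc5 n (fun i => hdiv i.1 i.2) fun _ => 1)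
      have := Cpn_nontrivial (p := p) hn
      have hfield := htr.isField (hs hm1)
      exact ⟨φ, hfield, htr, star m hm _ φ hfield ⟨n, Cpn_card n⟩⟩

/-- **the lower bound for cyclic fields of degree `p`** -/
theorem dens_cyc (hD : D.Valid p) (hr1 : 1 ≤ D.r) (hr : D.r < p)
    (hI : ∀ m, D.Adm p m → D.Integral p m) (hP : ∀ m, D.Adm p m → D.Pairing p m)
    (hQ : ∀ (G : Type) [CommGroup G] (f : Gp 1 →* G), IsField 1 f → D.Q1 p 1 f) {j : ℕ}
    (hj1 : 1 ≤ j) (hjr : j ≤ D.r) (hj : j = 1 ∨ ∀ m, D.Adm p m → ∀ f : Gp m →* Cpn p 1,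
      IsField m f → ∃ θ, D.IsTheta p m f θ ∧ θ ∈ augI ℤ_[p] (Cpn p 1) ^ j)
    {s : ℝ} (hs : 1 < s) :
    ((p : ℝ) - 1) * (1 + DS (D.Adm p) (Cpn p 1) (fun _ _ => True) s) ≤
      ((p : ℝ) ^ (∑ k ∈ Finset.Icc j D.r, k + 1) - 1) *
        (1 + DS (D.Adm p) (Cpn p 1) (fun m ψ => D.Q1 p m ψ) s) := by
  have h1 := dens_A1 hD hr1 hr hI hP hQ hj1 hjr (hj.imp_right fun h m hm =>
    h m (by have := hm.1; rwa [one_mul] at this)) adm_one hs
  have e : ∀ P : ∀ m, (Gp m →* Cpn p 1) → Prop, DS (D.Lvl p 1 1) (Cpn p 1) P s =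
      DS (D.Adm p) (Cpn p 1) P s := by
    intro P
    refine DS_congr (fun m ψ hψ => ?_) s
    constructor
    · rintro ⟨h2, h3⟩
      exact ⟨by have := h2.1; rwa [one_mul] at this, h3⟩
    · rintro ⟨h2, h3⟩
      exact ⟨⟨by rwa [one_mul], hψ.cyc_dvd h2.1⟩, h3⟩
  rw [e, e] at h1
  exact h1

end MTData

end MTate
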